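import Pool.Agent.MAbc.Cor

/-!
# EMu.AeAbc: the abc inequality for every `α > 0` and almost every `β > 0`

For positive `A, B, C`, `0 < β ≤ R` and `|A + α B - β C| < δ` with `δ = mx^(1-ε) / (rad A rad B rad C)` one has
`C ≥ c mx` with `c = c(α, R, ε) > 0` (`A ≤ R C + δ`, `α B ≤ R C + δ`, `δ ≤ mx^(1-ε)`).
Hence the set of such `β` is contained in an interval of length `≤ 2 δ / (c mx) = (2/c) mx^(-ε) / (rad A rad B rad C)`, which is
summable over all triples (`MAbc.gs`, `MAbc.summable_rad`, see `sum_bad_ne_top` in `Pool/Agent/MAbc/Metric.lean`).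
Borel-Cantelli (`ae_finite_setOfPred_mem`), `R ∈ ℕ`, `ε = 1/(m+1)`, exactly as in `MAbc.metric_abc`.
-/

set_option autoImplicit false

namespace EMu

open MeasureTheory

/-- the sets of multipliers `β` for Borel-Cantelli -/
noncomputable def AeAbc_bad (α R ε : ℝ) (T : ℤ × ℤ × ℤ) : Set ℝ :=
  {β | (0 < T.1 ∧ 0 < T.2.1 ∧ 0 < T.2.2) ∧ 0 < β ∧ β ≤ R ∧
    |(T.1 : ℝ) + α * T.2.1 - β * T.2.2| <
      MAbc.mx T.1 T.2.1 T.2.2 ^ (1 - ε) / (MAbc.rad T.1 * MAbc.rad T.2.1 * MAbc.rad T.2.2)}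

/-- the constant `c` -/
noncomputable def AeAbc_c (α R ε : ℝ) : ℝ :=
  min (1 / (2 * max 1 α⁻¹ * R)) (1 / (2 * max 1 α⁻¹) ^ (1 / ε))

theorem AeAbc_c_pos {α R ε : ℝ} (hR : 1 ≤ R) : 0 < AeAbc_c α R ε := by
  have h1 : (1 : ℝ) ≤ max 1 α⁻¹ := le_max_left _ _
  unfold AeAbc_c
  apply lt_min
  · positivity
  · positivity

/-- `C ≥ c mx` -/
theorem AeAbc_le {α R ε : ℝ} (hα : 0 < α) (hR : 1 ≤ R) (hε : 0 < ε) {T : ℤ × ℤ × ℤ} {β : ℝ}
    (hβ : β ∈ AeAbc_bad α R ε T) :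
    AeAbc_c α R ε * MAbc.mx T.1 T.2.1 T.2.2 ≤ T.2.2 := by
  obtain ⟨A, B, C⟩ := T
  obtain ⟨⟨hA, hB, hC⟩, hβ0, hβR, hlt⟩ := hβ
  simp only at hA hB hC hlt ⊢
  have hA' : (1 : ℝ) ≤ A := by exact_mod_cast hA
  have hB' : (1 : ℝ) ≤ B := by exact_mod_cast hB
  have hC' : (1 : ℝ) ≤ C := by exact_mod_cast hC
  set H : ℝ := MAbc.mx A B C with hH
  have hH1 : 1 ≤ H := MAbc.one_le_mx hA.ne' B C
  have hH0 : 0 < H := by linarith
  set κ : ℝ := max 1 α⁻¹ with hκ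
  have hκ1 : 1 ≤ κ := le_max_left _ _
  have hκα : 1 ≤ κ * α := by
    have : α⁻¹ ≤ κ := le_max_right _ _
    calc (1 : ℝ) = α⁻¹ * α := by field_simp
      _ ≤ κ * α := by gcongr
  have hrA : (1 : ℝ) ≤ MAbc.rad A := by exact_mod_cast MAbc.rad_pos A
  have hrB : (1 : ℝ) ≤ MAbc.rad B := by exact_mod_cast MAbc.rad_pos B
  have hrC : (1 : ℝ) ≤ MAbc.rad C := by exact_mod_cast MAbc.rad_pos C
  have hr : (1 : ℝ) ≤ (MAbc.rad A : ℝ) * MAbc.rad B * MAbc.rad C :=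
    one_le_mul_of_one_le_of_one_le (one_le_mul_of_one_le_of_one_le hrA hrB) hrC
  have hP : 0 < H ^ (1 - ε) := Real.rpow_pos_of_pos hH0 _
  have hδ : H ^ (1 - ε) / ((MAbc.rad A : ℝ) * MAbc.rad B * MAbc.rad C) ≤ H ^ (1 - ε) :=
    div_le_self hP.le hr
  have hab := (abs_lt.mp (hlt.trans_le hδ)).2
  -- `A + α B < β C + H ^ (1 - ε)`
  have hβC : β * C ≤ R * C := by gcongr
  have hsum : (A : ℝ) + α * B < R * C + H ^ (1 - ε) := by linarith
  have hαB : 0 < α * B := by positivity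
  have bA : (A : ℝ) ≤ κ * (R * C + H ^ (1 - ε)) := by
    have h1 : (A : ℝ) ≤ R * C + H ^ (1 - ε) := by linarith
    have h2 : 0 ≤ R * C + H ^ (1 - ε) := by linarith
    nlinarith
  have bB : (B : ℝ) ≤ κ * (R * C + H ^ (1 - ε)) := by
    have h1 : α * (B : ℝ) ≤ R * C + H ^ (1 - ε) := by linarith
    calc (B : ℝ) = 1 * B := by ring
      _ ≤ κ * α * B := by gcongr
      _ = κ * (α * B) := by ring
      _ ≤ κ * (R * C + H ^ (1 - ε)) := by gcongr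
  have bC : (C : ℝ) ≤ κ * (R * C + H ^ (1 - ε)) := by
    have h1 : (C : ℝ) ≤ R * C := by nlinarith
    have h2 : (C : ℝ) ≤ R * C + H ^ (1 - ε) := by linarith
    have h3 : 0 ≤ R * C + H ^ (1 - ε) := by linarith
    nlinarith
  have hHle : H ≤ κ * (R * C + H ^ (1 - ε)) := by
    have hval : H = max (A : ℝ) (max (B : ℝ) (C : ℝ)) := by
      rw [hH]
      unfold MAbc.mx
      rw [abs_of_pos (by linarith : (0 : ℝ) < A), abs_of_pos (by linarith : (0 : ℝ) < B),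
        abs_of_pos (by linarith : (0 : ℝ) < C)]
    exact hval.le.trans (max_le bA (max_le bB bC))
  have hHpow : H ^ (1 - ε) = H / H ^ ε := by
    rw [Real.rpow_sub hH0, Real.rpow_one]
  have hHe : 0 < H ^ ε := Real.rpow_pos_of_pos hH0 _
  rcases le_or_gt (2 * κ) (H ^ ε) with hbig | hsmall
  · have h1 : κ * H ^ (1 - ε) ≤ H / 2 := by
      rw [hHpow]
      rw [mul_div_assoc', div_le_iff₀ hHe]
      nlinarith
    have h2 : H ≤ 2 * κ * R * C := by nlinarith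
    have h3 : AeAbc_c α R ε ≤ 1 / (2 * κ * R) := min_le_left _ _
    calc AeAbc_c α R ε * H ≤ 1 / (2 * κ * R) * (2 * κ * R * C) := by
          gcongr
      _ = C := by field_simp
  · have h1 : H ≤ (2 * κ) ^ (1 / ε) := by
      have h2 : (H ^ ε) ^ (1 / ε) ≤ (2 * κ) ^ (1 / ε) :=
        Real.rpow_le_rpow hHe.le hsmall.le (by positivity)
      rwa [← Real.rpow_mul hH0.le, mul_one_div_cancel hε.ne', Real.rpow_one] at h2
    have h3 : AeAbc_c α R ε ≤ 1 / (2 * κ) ^ (1 / ε) := min_le_right _ _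
    have h4 : 0 < (2 * κ) ^ (1 / ε) := by positivity
    calc AeAbc_c α R ε * H ≤ 1 / (2 * κ) ^ (1 / ε) * (2 * κ) ^ (1 / ε) := by
          gcongr
      _ = 1 := by field_simp
      _ ≤ C := hC'

theorem AeAbc_bad_le {α R ε : ℝ} (hα : 0 < α) (hR : 1 ≤ R) (hε : 0 < ε) (T : ℤ × ℤ × ℤ) :
    volume (AeAbc_bad α R ε T) ≤
      ENNReal.ofReal (2 / AeAbc_c α R ε *
        (MAbc.gs (ε / 3) T.1 * (MAbc.gs (ε / 3) T.2.1 * MAbc.gs (ε / 3) T.2.2))) := by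
  have hc := AeAbc_c_pos (α := α) (R := R) (ε := ε) hR
  rcases Set.eq_empty_or_nonempty (AeAbc_bad α R ε T) with he | ⟨β₀, hβ₀⟩
  · rw [he, measure_empty]
    exact zero_le
  have hC := AeAbc_le hα hR hε hβ₀
  obtain ⟨A, B, C⟩ := T
  obtain ⟨⟨hA, hB, hC0⟩, -⟩ := hβ₀
  simp only at hA hB hC hC0 ⊢
  have hC' : (1 : ℝ) ≤ C := by exact_mod_cast hC0
  set H : ℝ := MAbc.mx A B C with hH
  have hH1 : 1 ≤ H := MAbc.one_le_mx hA.ne' B C
  have hH0 : 0 < H := by linarith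
  have hrA : (0 : ℝ) < MAbc.rad A := by exact_mod_cast MAbc.rad_pos A
  have hrB : (0 : ℝ) < MAbc.rad B := by exact_mod_cast MAbc.rad_pos B
  have hrC : (0 : ℝ) < MAbc.rad C := by exact_mod_cast MAbc.rad_pos C
  set δ : ℝ := H ^ (1 - ε) / ((MAbc.rad A : ℝ) * MAbc.rad B * MAbc.rad C) with hδ
  have hδ0 : 0 < δ := by positivity
  have hCpos : (0 : ℝ) < C := by linarith
  have hsub : AeAbc_bad α R ε (A, B, C) ⊆ Set.Icc (((A : ℝ) + α * B - δ) / C) (((A : ℝ) + α * B + δ) / C) := by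
    rintro β ⟨-, -, -, h⟩
    simp only at h
    have h' := abs_lt.mp h
    rw [Set.mem_Icc, div_le_iff₀ hCpos, le_div_iff₀ hCpos]
    constructor <;> linarith [h'.1, h'.2]
  refine (measure_mono hsub).trans ?_
  rw [Real.volume_Icc]
  apply ENNReal.ofReal_le_ofReal
  have e1 : ((A : ℝ) + α * B + δ) / C - ((A : ℝ) + α * B - δ) / C = 2 * δ / C := by
    field_simp
    ring
  rw [e1]
  have e2 : 2 * δ / C ≤ 2 * δ / (AeAbc_c α R ε * H) := by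
    gcongr
  refine e2.trans ?_
  have e3 : 2 * δ / (AeAbc_c α R ε * H) =
      2 / AeAbc_c α R ε * (H ^ (-ε) / ((MAbc.rad A : ℝ) * MAbc.rad B * MAbc.rad C)) := by
    rw [hδ, sub_eq_add_neg, Real.rpow_add hH0, Real.rpow_one]
    field_simp
  rw [e3]
  simp only [MAbc.gs, hA.ne', hB.ne', hC0.ne', if_false]
  have hA1 := MAbc.one_le_abs hA.ne'
  have hB1 := MAbc.one_le_abs hB.ne'
  have hC1 := MAbc.one_le_abs hC0.ne'
  have k1 : H ^ (-ε) ≤ |(A : ℝ)| ^ (-(ε / 3)) * (|(B : ℝ)| ^ (-(ε / 3)) * |(C : ℝ)| ^ (-(ε / 3))) := by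
    have e2 : H ^ (-ε) = H ^ (-(ε / 3)) * (H ^ (-(ε / 3)) * H ^ (-(ε / 3))) := by
      rw [← Real.rpow_add hH0, ← Real.rpow_add hH0]
      congr 1
      ring
    rw [e2]
    have f : ∀ x : ℝ, 1 ≤ x → x ≤ H → H ^ (-(ε / 3)) ≤ x ^ (-(ε / 3)) := by
      intro x hx hx'
      exact Real.rpow_le_rpow_of_nonpos (by linarith) hx' (by linarith)
    have fA := f _ hA1 (le_max_left _ _)
    have fB := f _ hB1 ((le_max_left _ _).trans (le_max_right _ _))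
    have fC := f _ hC1 ((le_max_right _ _).trans (le_max_right _ _))
    have p0 : 0 ≤ H ^ (-(ε / 3)) := by positivity
    exact mul_le_mul fA (mul_le_mul fB fC p0 (by positivity)) (by positivity) (by positivity)
  have e4 : |(A : ℝ)| ^ (-(ε / 3)) / MAbc.rad A *
      (|(B : ℝ)| ^ (-(ε / 3)) / MAbc.rad B * (|(C : ℝ)| ^ (-(ε / 3)) / MAbc.rad C)) =
      (|(A : ℝ)| ^ (-(ε / 3)) * (|(B : ℝ)| ^ (-(ε / 3)) * |(C : ℝ)| ^ (-(ε / 3)))) /
        (MAbc.rad A * MAbc.rad B * MAbc.rad C) := by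
    field_simp
  rw [e4]
  gcongr

theorem AeAbc_sum {α R ε : ℝ} (hα : 0 < α) (hR : 1 ≤ R) (hε : 0 < ε) :
    (∑' T, volume (AeAbc_bad α R ε T)) ≠ ⊤ := by
  have hs : Summable (MAbc.gs (ε / 3)) := MAbc.summable_rad (s := ε / 3) (by positivity)
  have h2 : Summable (fun T : ℤ × ℤ => MAbc.gs (ε / 3) T.1 * MAbc.gs (ε / 3) T.2) :=
    hs.mul_of_nonneg hs (MAbc.gs_nonneg _) (MAbc.gs_nonneg _)
  have h3 : Summable (fun T : ℤ × ℤ × ℤ =>
      MAbc.gs (ε / 3) T.1 * (MAbc.gs (ε / 3) T.2.1 * MAbc.gs (ε / 3) T.2.2)) :=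
    hs.mul_of_nonneg h2 (MAbc.gs_nonneg _) (fun T => mul_nonneg (MAbc.gs_nonneg _ _) (MAbc.gs_nonneg _ _))
  have h4 := h3.mul_left (2 / AeAbc_c α R ε)
  refine ne_top_of_le_ne_top ?_ (ENNReal.tsum_le_tsum (fun T => AeAbc_bad_le hα hR hε T))
  rw [← ENNReal.ofReal_tsum_of_nonneg (fun T => ?_) h4]
  · exact ENNReal.ofReal_ne_top
  · have h0 := AeAbc_c_pos (α := α) (R := R) (ε := ε) hR
    have := MAbc.gs_nonneg (ε / 3) T.1
    have := MAbc.gs_nonneg (ε / 3) T.2.1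
    have := MAbc.gs_nonneg (ε / 3) T.2.2
    positivity

theorem ae_abc {α : ℝ} (hα : 0 < α) : ∀ᵐ β : ℝ, 0 < β → ∀ ε : ℝ, 0 < ε →
    {T : ℤ × ℤ × ℤ | 0 < T.1 ∧ 0 < T.2.1 ∧ 0 < T.2.2 ∧
      (MAbc.rad T.1 : ℝ) * MAbc.rad T.2.1 * MAbc.rad T.2.2 * |T.1 + α * T.2.1 - β * T.2.2| <
        MAbc.mx T.1 T.2.1 T.2.2 ^ (1 - ε)}.Finite := by
  have key : ∀ᵐ β : ℝ, ∀ m : ℕ, ∀ R : ℕ, {T | β ∈ AeAbc_bad α (R + 1) (1 / (m + 1)) T}.Finite := by
    rw [ae_all_iff]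
    intro m
    rw [ae_all_iff]
    intro R
    apply ae_finite_setOfPred_mem
    exact AeAbc_sum hα (by have : (0 : ℝ) ≤ R := Nat.cast_nonneg R
                           linarith) (by positivity)
  filter_upwards [key] with β hv hβ ε hε
  obtain ⟨m, hm⟩ := exists_nat_one_div_lt hε
  obtain ⟨R, hR⟩ := exists_nat_ge β
  refine ((hv m R).subset ?_)
  rintro T ⟨h1, h2, h3, h4⟩
  refine ⟨⟨h1, h2, h3⟩, hβ, by linarith, ?_⟩
  have hrA : (0 : ℝ) < MAbc.rad T.1 := by exact_mod_cast MAbc.rad_pos _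
  have hrB : (0 : ℝ) < MAbc.rad T.2.1 := by exact_mod_cast MAbc.rad_pos _
  have hrC : (0 : ℝ) < MAbc.rad T.2.2 := by exact_mod_cast MAbc.rad_pos _
  rw [lt_div_iff₀ (by positivity), mul_comm]
  refine h4.trans_le ?_
  exact Real.rpow_le_rpow_of_exponent_le (MAbc.one_le_mx h1.ne' _ _) (by linarith)

end EMu
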