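import Pool.Agent.EMu.Xc

/-!
# EMu.Macro: the centres are equidistributed in intervals of length at least `W^(-6)`

For fixed `(y, z) ∈ yz Y Z` the condition `u ≤ cen ≤ v` is `u z^2 - θ y ≤ x^p ≤ v z^2 - θ y`. In both lemmas one may replace
`u, v` by `max u 1`, `min v 2`. Since `-1 ≤ θ y ≤ α y^3 + 1 ≤ Z^2/4 + 1` (`y ≤ 2 Y`) and `Z < z ≤ 2 Z`, `4 ≤ Z`, one has
`a = u z^2 - θ y ≥ Z^2 / 2`, `b = v z^2 - θ y ≤ 9 Z^2`, and `Z^2 = W^(6p)`. Apply `x_upper` (`b - a ≤ 4 (v - u) Z^2`) and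
`x_lower` (`b - a ≥ (v - u) Z^2`) and sum over `(y, z)`.
-/

set_option autoImplicit false

namespace EMu

open Finset

/-- facts on the pairs `(y, z)` -/
theorem macro_facts {p : ℕ} {α : ℝ} {θ : ℕ → ℝ} {W Y Z : ℕ} (P : Par p α θ W Y Z) {y z : ℕ}
    (h : (y, z) ∈ yz Y Z) :
    (Z : ℝ) ^ 2 = (W : ℝ) ^ (6 * p) ∧ (Z : ℝ) ^ 2 ≤ (z : ℝ) ^ 2 ∧ (z : ℝ) ^ 2 ≤ 4 * (Z : ℝ) ^ 2 ∧
      θ y ≤ (Z : ℝ) ^ 2 / 4 + 1 ∧ -1 ≤ θ y ∧ 4 ≤ (Z : ℝ) ^ 2 := by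
  have hZ2 : (Z : ℝ) ^ 2 = (W : ℝ) ^ (6 * p) := by
    rw [P.hZ]
    push_cast
    rw [← pow_mul]
    congr 1
    ring
  simp only [yz, prm, mem_product, mem_Ioc, mem_filter] at h
  obtain ⟨⟨hy1, hy2⟩, ⟨hz1, hz2⟩, hz3⟩ := h
  have hz1' : (Z : ℝ) ≤ z := by exact_mod_cast hz1.le
  have hz2' : (z : ℝ) ≤ 2 * Z := by exact_mod_cast hz2
  have hy2' : (y : ℝ) ≤ 2 * Y := by exact_mod_cast hy2
  have hZ0 : (0 : ℝ) ≤ Z := Nat.cast_nonneg _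
  have hz0 : (0 : ℝ) ≤ z := Nat.cast_nonneg _
  have hy0 : (0 : ℝ) ≤ y := Nat.cast_nonneg _
  have hW : (2 : ℝ) ≤ W := by exact_mod_cast P.hW
  have hth := abs_le.1 (P.hθ y)
  have hy3 : (y : ℝ) ^ 3 ≤ 8 * (Y : ℝ) ^ 3 := by
    calc (y : ℝ) ^ 3 ≤ (2 * (Y : ℝ)) ^ 3 := pow_le_pow_left₀ hy0 hy2' 3
      _ = 8 * (Y : ℝ) ^ 3 := by ring
  have hα := P.hα
  have hay : α * (y : ℝ) ^ 3 ≤ (Z : ℝ) ^ 2 / 4 := by
    have h1 := P.hY1
    have h2 : α * (y : ℝ) ^ 3 ≤ α * (8 * (Y : ℝ) ^ 3) := mul_le_mul_of_nonneg_left hy3 hα.le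
    linarith
  have hay0 : 0 ≤ α * (y : ℝ) ^ 3 := by positivity
  have hp := P.hp
  refine ⟨hZ2, pow_le_pow_left₀ hZ0 hz1' 2, ?_, by linarith, by linarith, ?_⟩
  · calc (z : ℝ) ^ 2 ≤ (2 * (Z : ℝ)) ^ 2 := pow_le_pow_left₀ hz0 hz2' 2
      _ = 4 * (Z : ℝ) ^ 2 := by ring
  · rw [hZ2]
    calc (4 : ℝ) = 2 ^ 2 := by norm_num
      _ ≤ 2 ^ (6 * p) := pow_le_pow_right₀ (by norm_num) (by omega)
      _ ≤ (W : ℝ) ^ (6 * p) := pow_le_pow_left₀ (by norm_num) hW _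

open Classical in
theorem macro_upper {p : ℕ} {α : ℝ} {θ : ℕ → ℝ} {W Y Z : ℕ} (P : Par p α θ W Y Z) {u v : ℝ} (huv : u ≤ v) :
    (((Om p θ Y Z).filter (fun t => u ≤ cen p θ t ∧ cen p θ t ≤ v)).card : ℝ) ≤
      (yz Y Z).card * (2 * (v - u) * (W : ℝ) ^ 6 + 1) := by
  have hW0 : (0 : ℝ) ≤ (W : ℝ) ^ 6 := by positivity
  have hWp : (0 : ℝ) < (W : ℝ) ^ (6 * p) := by
    have : (0 : ℝ) < W := by exact_mod_cast (show 0 < W from by have := P.hW; omega)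
    positivity
  have hmap : ∀ t ∈ (Om p θ Y Z).filter (fun t => u ≤ cen p θ t ∧ cen p θ t ≤ v), t.2 ∈ yz Y Z := by
    intro t ht
    have h1 := (mem_filter.1 ht).1
    have h2 := (mem_filter.1 h1).1
    exact (mem_product.1 h2).2
  rw [card_eq_sum_card_fiberwise hmap]
  push_cast
  rw [← nsmul_eq_mul]
  apply sum_le_card_nsmul
  rintro ⟨y, z⟩ hyz
  obtain ⟨hZ2, hz1, hz2, ht1, ht2, hZ4⟩ := macro_facts P hyz
  set F := ((Om p θ Y Z).filter (fun t => u ≤ cen p θ t ∧ cen p θ t ≤ v)).filter (fun t => t.2 = (y, z))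
    with hF
  have hcard : F.card = (F.image Prod.fst).card := by
    rw [card_image_of_injOn]
    intro s hs t ht hst
    have h1 := (mem_filter.1 (mem_coe.1 hs)).2
    have h2 := (mem_filter.1 (mem_coe.1 ht)).2
    exact Prod.ext hst (h1.trans h2.symm)
  have hz0 : (0 : ℝ) < (z : ℝ) ^ 2 := by linarith
  have key : ∀ x ∈ F.image Prod.fst, max u 1 * (z : ℝ) ^ 2 - θ y ≤ (x : ℝ) ^ p ∧
      (x : ℝ) ^ p ≤ min v 2 * (z : ℝ) ^ 2 - θ y := by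
    intro x hx
    obtain ⟨t, ht, rfl⟩ := mem_image.1 hx
    have h1 := mem_filter.1 ht
    have h2 := mem_filter.1 h1.1
    have h3 := mem_filter.1 h2.1
    obtain ⟨t1, t2, t3⟩ := t
    have h4 : (t2, t3) = (y, z) := h1.2
    simp only [Prod.mk.injEq] at h4
    obtain ⟨rfl, rfl⟩ := h4
    have h5 := h2.2
    have h6 := h3.2
    simp only [cen] at h5 h6
    have hlo : max u 1 ≤ ((t1 : ℝ) ^ p + θ t2) / (t3 : ℝ) ^ 2 := max_le h5.1 h6.1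
    have hhi : ((t1 : ℝ) ^ p + θ t2) / (t3 : ℝ) ^ 2 ≤ min v 2 := le_min h5.2 h6.2
    rw [le_div_iff₀ hz0] at hlo
    rw [div_le_iff₀ hz0] at hhi
    constructor
    · show _ ≤ (t1 : ℝ) ^ p
      linarith
    · show (t1 : ℝ) ^ p ≤ _
      linarith
  rw [hcard]
  by_cases hc : max u 1 ≤ min v 2
  · have ha : (W : ℝ) ^ (6 * p) / 2 ≤ max u 1 * (z : ℝ) ^ 2 - θ y := by
      have h1 : (1 : ℝ) * (z : ℝ) ^ 2 ≤ max u 1 * (z : ℝ) ^ 2 :=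
        mul_le_mul_of_nonneg_right (le_max_right _ _) hz0.le
      rw [← hZ2]
      linarith
    have hab : max u 1 * (z : ℝ) ^ 2 - θ y ≤ min v 2 * (z : ℝ) ^ 2 - θ y := by
      have := mul_le_mul_of_nonneg_right hc hz0.le
      linarith
    have hx := x_upper P.hp (by have := P.hW; omega) ha hab (F.image Prod.fst) key
    refine hx.trans ?_
    have h1 : min v 2 * (z : ℝ) ^ 2 - θ y - (max u 1 * (z : ℝ) ^ 2 - θ y) ≤
        4 * (v - u) * (W : ℝ) ^ (6 * p) := by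
      have h2 : min v 2 - max u 1 ≤ v - u := by
        have := min_le_left v 2
        have := le_max_left u 1
        linarith
      have h3 : (min v 2 - max u 1) * (z : ℝ) ^ 2 ≤ (v - u) * (z : ℝ) ^ 2 :=
        mul_le_mul_of_nonneg_right h2 hz0.le
      have h4 : (v - u) * (z : ℝ) ^ 2 ≤ (v - u) * (4 * (Z : ℝ) ^ 2) :=
        mul_le_mul_of_nonneg_left hz2 (by linarith)
      rw [← hZ2]
      nlinarith
    have h5 : (min v 2 * (z : ℝ) ^ 2 - θ y - (max u 1 * (z : ℝ) ^ 2 - θ y)) * (W : ℝ) ^ 6 /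
        (3 * (W : ℝ) ^ (6 * p)) ≤ 2 * (v - u) * (W : ℝ) ^ 6 := by
      rw [div_le_iff₀ (by positivity)]
      calc (min v 2 * (z : ℝ) ^ 2 - θ y - (max u 1 * (z : ℝ) ^ 2 - θ y)) * (W : ℝ) ^ 6
          ≤ 4 * (v - u) * (W : ℝ) ^ (6 * p) * (W : ℝ) ^ 6 := mul_le_mul_of_nonneg_right h1 hW0
        _ ≤ 2 * (v - u) * (W : ℝ) ^ 6 * (3 * (W : ℝ) ^ (6 * p)) := by
          have h6 : 0 ≤ (v - u) * (W : ℝ) ^ 6 * (W : ℝ) ^ (6 * p) := by
            have : 0 ≤ v - u := by linarith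
            positivity
          nlinarith
    linarith
  · have hemp : F.image Prod.fst = ∅ := by
      rw [eq_empty_iff_forall_notMem]
      intro x hx
      have h1 := key x hx
      have h2 : max u 1 * (z : ℝ) ^ 2 ≤ min v 2 * (z : ℝ) ^ 2 := by linarith [h1.1, h1.2]
      exact hc (le_of_mul_le_mul_right h2 hz0)
    rw [hemp]
    have : 0 ≤ v - u := by linarith
    simp only [card_empty, Nat.cast_zero]
    positivity

open Classical in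
theorem macro_lower {p : ℕ} {α : ℝ} {θ : ℕ → ℝ} {W Y Z : ℕ} (P : Par p α θ W Y Z) (hpW : p ≤ W ^ 6) {u v : ℝ}
    (hu : 1 ≤ u) (huv : u ≤ v) (hv : v ≤ 2) :
    (yz Y Z).card * ((v - u) * (W : ℝ) ^ 6 / (100 * p) - 1) ≤
      (((Om p θ Y Z).filter (fun t => u ≤ cen p θ t ∧ cen p θ t ≤ v)).card : ℝ) := by
  have hW0 : (0 : ℝ) ≤ (W : ℝ) ^ 6 := by positivity
  have hWp : (0 : ℝ) < (W : ℝ) ^ (6 * p) := by
    have : (0 : ℝ) < W := by exact_mod_cast (show 0 < W from by have := P.hW; omega)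
    positivity
  have hp0 : (0 : ℝ) < p := by
    exact_mod_cast (show 0 < p from by have := P.hp; omega)
  have hmap : ∀ t ∈ (Om p θ Y Z).filter (fun t => u ≤ cen p θ t ∧ cen p θ t ≤ v), t.2 ∈ yz Y Z := by
    intro t ht
    have h1 := (mem_filter.1 ht).1
    have h2 := (mem_filter.1 h1).1
    exact (mem_product.1 h2).2
  rw [card_eq_sum_card_fiberwise hmap]
  push_cast
  rw [← nsmul_eq_mul]
  apply card_nsmul_le_sum
  rintro ⟨y, z⟩ hyz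
  obtain ⟨hZ2, hz1, hz2, ht1, ht2, hZ4⟩ := macro_facts P hyz
  have hz0 : (0 : ℝ) < (z : ℝ) ^ 2 := by linarith
  have ha : (W : ℝ) ^ (6 * p) / 2 ≤ u * (z : ℝ) ^ 2 - θ y := by
    have h1 : (1 : ℝ) * (z : ℝ) ^ 2 ≤ u * (z : ℝ) ^ 2 := mul_le_mul_of_nonneg_right hu hz0.le
    rw [← hZ2]
    linarith
  have hab : u * (z : ℝ) ^ 2 - θ y ≤ v * (z : ℝ) ^ 2 - θ y := by
    have := mul_le_mul_of_nonneg_right huv hz0.le
    linarith
  have hb : v * (z : ℝ) ^ 2 - θ y ≤ 9 * (W : ℝ) ^ (6 * p) := by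
    have h1 : v * (z : ℝ) ^ 2 ≤ 2 * (z : ℝ) ^ 2 := mul_le_mul_of_nonneg_right hv hz0.le
    rw [← hZ2]
    linarith
  have hx := x_lower P.hp (by have := P.hW; omega) hpW ha hab hb
  have h5 : (v - u) * (W : ℝ) ^ 6 / (100 * p) ≤
      (v * (z : ℝ) ^ 2 - θ y - (u * (z : ℝ) ^ 2 - θ y)) * (W : ℝ) ^ 6 / (100 * p * (W : ℝ) ^ (6 * p)) := by
    rw [div_le_div_iff₀ (by positivity) (by positivity)]
    have h6 : (v - u) * (W : ℝ) ^ (6 * p) ≤ v * (z : ℝ) ^ 2 - θ y - (u * (z : ℝ) ^ 2 - θ y) := by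
      have h7 : (v - u) * (Z : ℝ) ^ 2 ≤ (v - u) * (z : ℝ) ^ 2 := mul_le_mul_of_nonneg_left hz1 (by linarith)
      rw [← hZ2]
      linarith
    have h8 : 0 ≤ (W : ℝ) ^ 6 * (100 * (p : ℝ)) := by positivity
    calc (v - u) * (W : ℝ) ^ 6 * (100 * p * (W : ℝ) ^ (6 * p))
        = (v - u) * (W : ℝ) ^ (6 * p) * ((W : ℝ) ^ 6 * (100 * (p : ℝ))) := by ring
      _ ≤ (v * (z : ℝ) ^ 2 - θ y - (u * (z : ℝ) ^ 2 - θ y)) * ((W : ℝ) ^ 6 * (100 * (p : ℝ))) :=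
        mul_le_mul_of_nonneg_right h6 h8
      _ = (v * (z : ℝ) ^ 2 - θ y - (u * (z : ℝ) ^ 2 - θ y)) * (W : ℝ) ^ 6 * (100 * (p : ℝ)) := by ring
  have hcard : ((Icc 1 (9 * W ^ (6 * p))).filter (fun x : ℕ => u * (z : ℝ) ^ 2 - θ y ≤ (x : ℝ) ^ p ∧
      (x : ℝ) ^ p ≤ v * (z : ℝ) ^ 2 - θ y)).card ≤
      (((Om p θ Y Z).filter (fun t => u ≤ cen p θ t ∧ cen p θ t ≤ v)).filter (fun t => t.2 = (y, z))).card := by
    apply card_le_card_of_injOn (fun x => (x, y, z))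
    · intro x hx
      have h1 := mem_filter.1 (mem_coe.1 hx)
      have h2 : u ≤ cen p θ (x, y, z) := by
        simp only [cen]
        rw [le_div_iff₀ hz0]
        linarith [h1.2.1]
      have h3 : cen p θ (x, y, z) ≤ v := by
        simp only [cen]
        rw [div_le_iff₀ hz0]
        linarith [h1.2.2]
      have h4 : Z ^ 2 = W ^ (6 * p) := by exact_mod_cast hZ2
      apply mem_coe.2
      refine mem_filter.2 ⟨mem_filter.2 ⟨mem_filter.2 ⟨mem_product.2 ⟨?_, hyz⟩, ?_, ?_⟩, h2, h3⟩, rfl⟩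
      · show x ∈ Icc 1 (9 * Z ^ 2)
        rw [h4]
        exact h1.1
      · exact hu.trans h2
      · exact h3.trans hv
    · intro s _ t _ hst
      exact (Prod.mk.inj hst).1
  have hcard' : (((Icc 1 (9 * W ^ (6 * p))).filter (fun x : ℕ => u * (z : ℝ) ^ 2 - θ y ≤ (x : ℝ) ^ p ∧
      (x : ℝ) ^ p ≤ v * (z : ℝ) ^ 2 - θ y)).card : ℝ) ≤
      ((((Om p θ Y Z).filter (fun t => u ≤ cen p θ t ∧ cen p θ t ≤ v)).filter
        (fun t => t.2 = (y, z))).card : ℝ) := by exact_mod_cast hcard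
  linarith

end EMu
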