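import Pool.Agent.EMu.Basic
import Pool.Agent.Sps.DivB

/-!
# EMu.Reps: representations as a difference of two cubes

`y^3 - y'^3 = D ≠ 0` with `1 ≤ y, y' ≤ M`: `d = |y - y'|` divides `|D| ≤ M^3` and `d` and the sign of `D` determine `(y, y')`
(for fixed `d ≥ 1` the map `y ↦ y^3 - (y - d)^3` is strictly increasing). So the number is at most the number of divisors
of `|D|`; use `card_divisors_le` of `Pool/Agent/Sps/DivB.lean` with `δ = ε / 3`.
-/

set_option autoImplicit false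

namespace EMu

open Finset

private theorem reps_inj {a b c e D : ℤ} (ha : 0 < a) (hb : 0 < b) (hc : 0 < c) (he : 0 < e)
    (h1 : a ^ 3 - b ^ 3 = D) (h2 : c ^ 3 - e ^ 3 = D) (hD : D ≠ 0)
    (h3 : (a - b).natAbs = (c - e).natAbs) : a = c ∧ b = e := by
  have hab : a - b ≠ 0 := by
    intro h
    apply hD
    have : a = b := by omega
    subst this
    rw [← h1]; ring
  have f1 : (a - b) * (a ^ 2 + a * b + b ^ 2) = D := by rw [← h1]; ring
  have f2 : (c - e) * (c ^ 2 + c * e + e ^ 2) = D := by rw [← h2]; ring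
  rcases Int.natAbs_eq_natAbs_iff.1 h3 with h | h
  · rw [← h] at f2
    have h4 : a ^ 2 + a * b + b ^ 2 = c ^ 2 + c * e + e ^ 2 :=
      mul_left_cancel₀ hab (f1.trans f2.symm)
    rcases lt_trichotomy b e with hlt | heq | hgt
    · exfalso
      have hac : a < c := by omega
      nlinarith [mul_pos ha hb, mul_pos hc he, mul_pos (sub_pos.2 hac) ha, mul_pos (sub_pos.2 hac) hb,
        mul_pos (sub_pos.2 hlt) ha, mul_pos (sub_pos.2 hlt) hb, mul_pos (sub_pos.2 hlt) (sub_pos.2 hac),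
        mul_pos (sub_pos.2 hac) (sub_pos.2 hac), mul_pos (sub_pos.2 hlt) (sub_pos.2 hlt)]
    · exact ⟨by omega, heq⟩
    · exfalso
      have hac : c < a := by omega
      nlinarith [mul_pos ha hb, mul_pos hc he, mul_pos (sub_pos.2 hac) hc, mul_pos (sub_pos.2 hac) he,
        mul_pos (sub_pos.2 hgt) hc, mul_pos (sub_pos.2 hgt) he, mul_pos (sub_pos.2 hgt) (sub_pos.2 hac),
        mul_pos (sub_pos.2 hac) (sub_pos.2 hac), mul_pos (sub_pos.2 hgt) (sub_pos.2 hgt)]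
  · exfalso
    have h5 : c - e = -(a - b) := by omega
    rw [h5] at f2
    have h6 : (a - b) * ((a ^ 2 + a * b + b ^ 2) + (c ^ 2 + c * e + e ^ 2)) = 0 := by
      linear_combination f1 - f2
    rcases mul_eq_zero.1 h6 with h7 | h7
    · exact hab h7
    · have := mul_pos ha hb
      have := mul_pos hc he
      have := pow_pos ha 2
      have := pow_pos hb 2
      have := pow_pos hc 2
      have := pow_pos he 2
      linarith

theorem cube_reps (ε : ℝ) (hε : 0 < ε) : ∃ K : ℝ, 1 ≤ K ∧ ∀ M : ℕ, 1 ≤ M → ∀ D : ℤ, D ≠ 0 →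
    (((Icc 1 M ×ˢ Icc 1 M).filter (fun q : ℕ × ℕ => (q.1 : ℤ) ^ 3 - (q.2 : ℤ) ^ 3 = D)).card : ℝ) ≤
      K * (M : ℝ) ^ ε := by
  obtain ⟨C, hC1, hC⟩ := Pool.Sps.card_divisors_le (ε / 3) (by positivity)
  refine ⟨C, hC1, ?_⟩
  intro M hM D hD
  have hC0 : (0 : ℝ) ≤ C := by linarith
  rcases Finset.eq_empty_or_nonempty
    ((Icc 1 M ×ˢ Icc 1 M).filter (fun q : ℕ × ℕ => (q.1 : ℤ) ^ 3 - (q.2 : ℤ) ^ 3 = D)) with hE | ⟨q0, hq0⟩
  · rw [hE, Finset.card_empty, Nat.cast_zero]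
    positivity
  -- `|D| ≤ M^3`
  have hDM : D.natAbs ≤ M ^ 3 := by
    rw [Finset.mem_filter, Finset.mem_product, Finset.mem_Icc, Finset.mem_Icc] at hq0
    obtain ⟨⟨⟨h1, h2⟩, h3, h4⟩, h5⟩ := hq0
    have h6 : q0.1 ^ 3 ≤ M ^ 3 := Nat.pow_le_pow_left h2 3
    have h7 : q0.2 ^ 3 ≤ M ^ 3 := Nat.pow_le_pow_left h4 3
    have h8 : (q0.1 : ℤ) ^ 3 = ((q0.1 ^ 3 : ℕ) : ℤ) := by push_cast; ring
    have h9 : (q0.2 : ℤ) ^ 3 = ((q0.2 ^ 3 : ℕ) : ℤ) := by push_cast; ring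
    rw [h8, h9] at h5
    omega
  have hD1 : 1 ≤ D.natAbs := by omega
  have hcard : ((Icc 1 M ×ˢ Icc 1 M).filter
      (fun q : ℕ × ℕ => (q.1 : ℤ) ^ 3 - (q.2 : ℤ) ^ 3 = D)).card ≤ D.natAbs.divisors.card := by
    apply Finset.card_le_card_of_injOn (fun q : ℕ × ℕ => ((q.1 : ℤ) - (q.2 : ℤ)).natAbs)
    · intro q hq
      rw [Finset.mem_coe, Finset.mem_filter] at hq
      rw [Finset.mem_coe, Nat.mem_divisors]
      refine ⟨?_, by omega⟩
      apply Int.natAbs_dvd_natAbs.2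
      refine ⟨(q.1 : ℤ) ^ 2 + q.1 * q.2 + (q.2 : ℤ) ^ 2, ?_⟩
      rw [← hq.2]; ring
    · intro q hq r hr hqr
      rw [Finset.mem_coe, Finset.mem_filter, Finset.mem_product, Finset.mem_Icc, Finset.mem_Icc] at hq hr
      obtain ⟨⟨⟨a1, _⟩, a2, _⟩, a3⟩ := hq
      obtain ⟨⟨⟨b1, _⟩, b2, _⟩, b3⟩ := hr
      have := reps_inj (a := (q.1 : ℤ)) (b := (q.2 : ℤ)) (c := (r.1 : ℤ)) (e := (r.2 : ℤ))
        (by omega) (by omega) (by omega) (by omega) a3 b3 hD hqr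
      apply Prod.ext
      · exact_mod_cast this.1
      · exact_mod_cast this.2
  calc (((Icc 1 M ×ˢ Icc 1 M).filter
      (fun q : ℕ × ℕ => (q.1 : ℤ) ^ 3 - (q.2 : ℤ) ^ 3 = D)).card : ℝ) ≤ (D.natAbs.divisors.card : ℝ) := by
        exact_mod_cast hcard
    _ ≤ C * (D.natAbs : ℝ) ^ (ε / 3) := hC _ hD1
    _ ≤ C * ((M : ℝ) ^ 3) ^ (ε / 3) := by
        apply mul_le_mul_of_nonneg_left _ hC0
        apply Real.rpow_le_rpow (by positivity) _ (by positivity)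
        exact_mod_cast hDM
    _ = C * (M : ℝ) ^ ε := by
        rw [← Real.rpow_natCast, ← Real.rpow_mul (by positivity)]
        congr 2
        push_cast
        ring

end EMu
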