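import Pool.Agent.EMu.Pairs
import Pool.Agent.EMu.Macro
import Pool.Agent.EMu.Reps
import Pool.Agent.Lib.PNT

/-!
# EMu.Asym: the number of close pairs for large `W`

`π = #prm Z` satisfies `Z / (4 log Z) ≤ π ≤ Z` for large `Z` (`Pool/Agent/Lib/PNT.lean`, `pi_real`; compare
`Pool/Agent/MCC/Single.lean`, `primes_dyadic`), `c1 W^(2p) ≤ Y ≤ c2 W^(2p)` (from `Par`), `Z = W^(3p)`. By `macro_lower` with
`u = 1, v = 2`: `n = #Om ≥ Y π W^6 / (200 p)` for large `W`, so `n ≥ W^(5p + 6 - ε/4)`. Take `R = K (2 Y)^ε'` from `cube_reps`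
with `ε' = 1/(4p)`, so `R ≤ C W`. Let `m = n^2 t^s W^ε ≥ c W^(10p + 12 + ε/2) t^s`. Two lower bounds: (A) `t^s ≥ c Z^((2h-2)s) =
c W^(-6p(1-h)s) ≥ c W^(-(5p+6))`, so `m ≥ c W^(5p+6+ε/2)`; (B) `t^s ≥ t` (`t ≤ 1`, `s ≤ 1`), so `m ≥ c W^(10p+12+ε/2) t`.
The terms of `pairs_le` are bounded by constants times
`W^(5p+6)` (A); `W^(7p+6) t` (B), `W^(p+6)` (A); `W^(9p+13) t` (B), `W^(3p+13)` (A, `p ≥ 4`); `W^(4p+12)` (A, `p ≥ 6`),
`W^(10p+12) t` (B).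
-/

set_option autoImplicit false

namespace EMu

open Finset Filter Topology

private theorem Asym_card (x y : ℕ) (h : x ≤ y) :
    (((Finset.Ioc x y).filter Nat.Prime).card : ℝ) =
      (Nat.primeCounting y : ℝ) - (Nat.primeCounting x : ℝ) := by
  have h1 : ∀ n, Nat.primeCounting n = ((Finset.range (n + 1)).filter Nat.Prime).card := by
    intro n
    rw [Nat.primeCounting, Nat.primeCounting', Nat.count_eq_card_filter_range]
  have h2 : (Finset.range (y + 1)).filter Nat.Prime =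
      (Finset.range (x + 1)).filter Nat.Prime ∪ (Finset.Ioc x y).filter Nat.Prime := by
    ext q
    simp only [Finset.mem_union, Finset.mem_filter, Finset.mem_range, Finset.mem_Ioc]
    constructor
    · rintro ⟨h3, h4⟩
      by_cases h5 : q < x + 1
      · exact Or.inl ⟨h5, h4⟩
      · exact Or.inr ⟨⟨by omega, by omega⟩, h4⟩
    · rintro (⟨h3, h4⟩ | ⟨⟨h3, h5⟩, h4⟩)
      · exact ⟨by omega, h4⟩
      · exact ⟨by omega, h4⟩
  have h3 : Disjoint ((Finset.range (x + 1)).filter Nat.Prime) ((Finset.Ioc x y).filter Nat.Prime) := by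
    rw [Finset.disjoint_left]
    intro q hq hq'
    simp only [Finset.mem_filter, Finset.mem_range, Finset.mem_Ioc] at hq hq'
    omega
  rw [h1, h1, h2, Finset.card_union_of_disjoint h3]
  push_cast
  ring

private theorem Asym_pi : ∀ᶠ n : ℕ in atTop, (n : ℝ) ≤ ((prm n).card : ℝ) * (2 * Real.log n) := by
  have h1 := Pool.Agent.Lib.PNT.pi_nat
  have hm : Tendsto (fun n : ℕ => 2 * n) atTop atTop :=
    tendsto_id.const_mul_atTop' (by norm_num)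
  have h2 := h1.comp hm
  have h3 : Tendsto (fun x : ℝ => 1 - Real.log 2 / (Real.log 2 + x)) atTop (𝓝 (1 - 0)) :=
    tendsto_const_nhds.sub (tendsto_const_nhds.div_atTop (tendsto_atTop_add_const_left _ _ tendsto_id))
  have h4 := h3.comp (Real.tendsto_log_atTop.comp (tendsto_natCast_atTop_atTop (R := ℝ)))
  have h5 := ((h2.mul h4).const_mul 2).sub h1
  have h6 := h5.eventually (lt_mem_nhds (show (1 / 2 : ℝ) < 2 * (1 * (1 - 0)) - 1 by norm_num))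
  filter_upwards [h6, eventually_ge_atTop 2] with n hn hn2
  have hn0 : (0 : ℝ) < n := by
    have : (2 : ℝ) ≤ n := by exact_mod_cast hn2
    linarith
  have hl : 0 < Real.log n := Real.log_pos (by exact_mod_cast hn2)
  have hl2 : 0 < Real.log 2 := Real.log_pos (by norm_num)
  have hc : ((prm n).card : ℝ) = (Nat.primeCounting (2 * n) : ℝ) - (Nat.primeCounting n : ℝ) :=
    Asym_card n (2 * n) (by omega)
  rw [hc]
  simp only [Function.comp_apply] at hn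
  have e1 : Real.log ((2 * n : ℕ) : ℝ) = Real.log 2 + Real.log n := by
    push_cast
    rw [Real.log_mul (by norm_num) hn0.ne']
  rw [e1] at hn
  have hs : 0 < Real.log 2 + Real.log n := by positivity
  have e2 : 2 * ((Nat.primeCounting (2 * n) : ℝ) * (Real.log 2 + Real.log n) / ((2 * n : ℕ) : ℝ) *
      (1 - Real.log 2 / (Real.log 2 + Real.log n))) - (Nat.primeCounting n : ℝ) * Real.log n / n =
      ((Nat.primeCounting (2 * n) : ℝ) - (Nat.primeCounting n : ℝ)) * Real.log n / n := by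
    push_cast
    field_simp
    ring
  rw [e2, lt_div_iff₀ hn0] at hn
  linarith

private theorem Asym_const (C : ℝ) {δ : ℝ} (hδ : 0 < δ) : ∀ᶠ W : ℕ in atTop, C ≤ (W : ℝ) ^ δ :=
  ((tendsto_rpow_atTop hδ).comp tendsto_natCast_atTop_atTop).eventually_ge_atTop C

private theorem Asym_pi' {p : ℕ} (hp : 7 ≤ p) {δ : ℝ} (hδ : 0 < δ) :
    ∀ᶠ W : ℕ in atTop, ((W : ℝ) ^ p) ^ 3 ≤ ((prm (W ^ (3 * p))).card : ℝ) * (W : ℝ) ^ δ := by
  have h1 : ∀ᶠ W : ℕ in atTop, (((W ^ (3 * p) : ℕ) : ℝ)) ≤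
      ((prm (W ^ (3 * p))).card : ℝ) * (2 * Real.log ((W ^ (3 * p) : ℕ) : ℝ)) :=
    (tendsto_pow_atTop (α := ℕ) (show 3 * p ≠ 0 by omega)).eventually Asym_pi
  have hp0 : (0 : ℝ) < p := by
    have : (7 : ℝ) ≤ p := by exact_mod_cast hp
    linarith
  have h2 := (isLittleO_log_rpow_atTop hδ).bound (show (0 : ℝ) < 1 / (6 * p) by positivity)
  have h3 : ∀ᶠ W : ℕ in atTop, ‖Real.log (W : ℝ)‖ ≤ 1 / (6 * p) * ‖(W : ℝ) ^ δ‖ :=
    (tendsto_natCast_atTop_atTop (R := ℝ)).eventually h2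
  filter_upwards [h1, h3, eventually_ge_atTop 2] with W g1 g3 g2
  have e1 : ((W ^ (3 * p) : ℕ) : ℝ) = ((W : ℝ) ^ p) ^ 3 := by
    push_cast
    rw [← pow_mul, mul_comm]
  rw [← e1]
  refine g1.trans ?_
  refine mul_le_mul_of_nonneg_left ?_ (Nat.cast_nonneg _)
  have e2 : Real.log ((W ^ (3 * p) : ℕ) : ℝ) = 3 * p * Real.log W := by
    push_cast
    rw [Real.log_pow]
    push_cast
    ring
  rw [e2]
  have g4 : Real.log (W : ℝ) ≤ 1 / (6 * p) * (W : ℝ) ^ δ := by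
    refine (le_abs_self _).trans ?_
    rw [Real.norm_eq_abs, Real.norm_eq_abs, abs_of_nonneg (Real.rpow_nonneg (Nat.cast_nonneg _) _)] at g3
    exact g3
  calc 2 * (3 * p * Real.log W) ≤ 2 * (3 * p * (1 / (6 * p) * (W : ℝ) ^ δ)) := by gcongr
    _ = (W : ℝ) ^ δ := by field_simp; ring

/-- the size of `Y` -/
private theorem Asym_Y {p : ℕ} {α : ℝ} {θ : ℕ → ℝ} {W Y Z : ℕ} (P : Par p α θ W Y Z) :
    min 1 (1 / (512 * α)) * ((W : ℝ) ^ p) ^ 2 ≤ Y ∧ (Y : ℝ) ≤ max 1 (1 / (32 * α)) * ((W : ℝ) ^ p) ^ 2 := by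
  have hα := P.hα
  set x : ℝ := (W : ℝ) ^ p with hx
  have hw : (2 : ℝ) ≤ W := by exact_mod_cast P.hW
  have hx0 : 0 < x := by positivity
  have hY0 : (0 : ℝ) < Y := by exact_mod_cast P.hY
  have hZ : (Z : ℝ) ^ 2 = x ^ 6 := by
    rw [P.hZ, hx]
    push_cast
    rw [← pow_mul, ← pow_mul]
    congr 1
    ring
  have h1 := P.hY1
  have h2 := P.hY2
  rw [hZ] at h1 h2
  constructor
  · set c : ℝ := min 1 (1 / (512 * α)) with hc
    have hc0 : 0 < c := lt_min one_pos (by positivity)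
    have hc1 : c ≤ 1 := min_le_left _ _
    have hc2 : c * (512 * α) ≤ 1 := by
      have : c ≤ 1 / (512 * α) := min_le_right _ _
      rwa [le_div_iff₀ (by positivity)] at this
    have h3 : (c * x ^ 2) ^ 3 ≤ (Y : ℝ) ^ 3 := by
      have h4 : c ^ 3 ≤ c := by nlinarith [mul_nonneg hc0.le (mul_nonneg hc0.le (sub_nonneg.2 hc1)), mul_nonneg hc0.le (sub_nonneg.2 hc1)]
      calc (c * x ^ 2) ^ 3 = c ^ 3 * x ^ 6 := by ring
        _ ≤ c * x ^ 6 := by gcongr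
        _ ≤ c * (512 * α * (Y : ℝ) ^ 3) := by gcongr
        _ = c * (512 * α) * (Y : ℝ) ^ 3 := by ring
        _ ≤ 1 * (Y : ℝ) ^ 3 := by gcongr
        _ = (Y : ℝ) ^ 3 := one_mul _
    exact le_of_pow_le_pow_left₀ (by norm_num) hY0.le h3
  · set c : ℝ := max 1 (1 / (32 * α)) with hc
    have hc1 : 1 ≤ c := le_max_left _ _
    have hc2 : 1 ≤ c * (32 * α) := by
      have : 1 / (32 * α) ≤ c := le_max_right _ _
      rwa [div_le_iff₀ (by positivity)] at this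
    have h3 : (Y : ℝ) ^ 3 ≤ (c * x ^ 2) ^ 3 := by
      have h4 : c ≤ c ^ 3 := by nlinarith [mul_nonneg (by linarith : (0:ℝ) ≤ c) (mul_nonneg (by linarith : (0:ℝ) ≤ c) (sub_nonneg.2 hc1)), mul_nonneg (by linarith : (0:ℝ) ≤ c) (sub_nonneg.2 hc1)]
      calc (Y : ℝ) ^ 3 = 1 * (Y : ℝ) ^ 3 := (one_mul _).symm
        _ ≤ c * (32 * α) * (Y : ℝ) ^ 3 := by gcongr
        _ = c * (32 * α * (Y : ℝ) ^ 3) := by ring
        _ ≤ c * x ^ 6 := by gcongr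
        _ ≤ c ^ 3 * x ^ 6 := by gcongr
        _ = (c * x ^ 2) ^ 3 := by ring
    exact le_of_pow_le_pow_left₀ (by norm_num) (by positivity) h3

/-- the number of centres is large -/
private theorem Asym_n {p : ℕ} (hp : 7 ≤ p) {α : ℝ} (hα : 0 < α) {δ : ℝ} (hδ : 0 < δ) :
    ∀ᶠ W : ℕ in atTop, ∀ (θ : ℕ → ℝ) (Y Z : ℕ), Par p α θ W Y Z →
      ((W : ℝ) ^ p) ^ 5 * (W : ℝ) ^ 6 ≤ ((Om p θ Y Z).card : ℝ) * (W : ℝ) ^ δ := by
  classical
  set c : ℝ := min 1 (1 / (512 * α)) with hc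
  have hc0 : 0 < c := lt_min one_pos (by positivity)
  have hp0 : (0 : ℝ) < p := by
    have : (7 : ℝ) ≤ p := by exact_mod_cast hp
    linarith
  filter_upwards [Asym_pi' hp (half_pos hδ), Asym_const (200 * p / c) (half_pos hδ),
    eventually_ge_atTop (200 * p)] with W g1 g2 g3 θ Y Z P
  set w : ℝ := (W : ℝ) with hw
  have hw1 : (1 : ℝ) ≤ w := by
    have : (2 : ℝ) ≤ w := by rw [hw]; exact_mod_cast P.hW
    linarith
  have hw0 : 0 < w := by linarith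
  have hWp : (200 : ℝ) * p ≤ w := by rw [hw]; exact_mod_cast g3
  have hw6 : w ≤ w ^ 6 := le_self_pow₀ hw1 (by norm_num)
  have hpW : p ≤ W ^ 6 := by
    have h1 : p ≤ W := by omega
    exact h1.trans (Nat.le_self_pow (by norm_num) W)
  have h1 := macro_lower P hpW (u := 1) (v := 2) le_rfl (by norm_num) le_rfl
  have h2 : ((((Om p θ Y Z).filter (fun t => 1 ≤ cen p θ t ∧ cen p θ t ≤ 2)).card : ℕ) : ℝ) ≤
      ((Om p θ Y Z).card : ℝ) := by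
    exact_mod_cast Finset.card_le_card (Finset.filter_subset _ _)
  have h3 : ((yz Y Z).card : ℝ) = (Y : ℝ) * ((prm Z).card : ℝ) := by
    rw [yz, Finset.card_product, Nat.card_Ioc]
    push_cast
    congr 2
    have : 2 * Y - Y = Y := by omega
    rw [this]
  obtain ⟨hY1, -⟩ := Asym_Y P
  have hπ : ((w ^ p) ^ 3) ≤ ((prm Z).card : ℝ) * w ^ (δ / 2) := by rw [P.hZ]; exact g1
  have h4 : w ^ 6 / (200 * p) ≤ (2 - 1) * w ^ 6 / (100 * p) - 1 := by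
    have h5 : 1 ≤ w ^ 6 / (200 * p) := by
      rw [le_div_iff₀ (by positivity)]
      linarith
    have h6 : (2 - 1) * w ^ 6 / (100 * p) = 2 * (w ^ 6 / (200 * p)) := by
      field_simp
      ring
    rw [h6]
    linarith
  have h7 : (Y : ℝ) * ((prm Z).card : ℝ) * (w ^ 6 / (200 * p)) ≤ ((Om p θ Y Z).card : ℝ) := by
    refine le_trans ?_ (h1.trans h2)
    rw [h3]
    exact mul_le_mul_of_nonneg_left h4 (by positivity)
  have hr0 : 0 < w ^ (δ / 2) := Real.rpow_pos_of_pos hw0 _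
  have e1 : w ^ δ = w ^ (δ / 2) * w ^ (δ / 2) := by
    rw [← Real.rpow_add hw0]
    congr 1
    ring
  have h8 : 1 ≤ w ^ (δ / 2) * c / (200 * p) := by
    rw [le_div_iff₀ (by positivity)]
    rw [div_le_iff₀ hc0] at g2
    linarith
  calc (w ^ p) ^ 5 * w ^ 6 = 1 * ((w ^ p) ^ 5 * w ^ 6) := (one_mul _).symm
    _ ≤ (w ^ (δ / 2) * c / (200 * p)) * ((w ^ p) ^ 5 * w ^ 6) := by gcongr
    _ = (c * (w ^ p) ^ 2) * ((w ^ p) ^ 3) * (w ^ 6 / (200 * p)) * w ^ (δ / 2) := by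
        field_simp
    _ ≤ (Y : ℝ) * (((prm Z).card : ℝ) * w ^ (δ / 2)) * (w ^ 6 / (200 * p)) * w ^ (δ / 2) := by gcongr
    _ = ((Y : ℝ) * ((prm Z).card : ℝ) * (w ^ 6 / (200 * p))) * (w ^ (δ / 2) * w ^ (δ / 2)) := by ring
    _ ≤ ((Om p θ Y Z).card : ℝ) * (w ^ (δ / 2) * w ^ (δ / 2)) := by gcongr
    _ = ((Om p θ Y Z).card : ℝ) * w ^ δ := by rw [e1]

/-- the upper bound -/
private theorem Asym_upper {p : ℕ} (hp : 7 ≤ p) {α : ℝ} (hα : 0 < α) :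
    ∃ CA CB : ℝ, 0 ≤ CA ∧ 0 ≤ CB ∧ ∀ (θ : ℕ → ℝ) (W Y Z : ℕ), Par p α θ W Y Z → ∀ t : ℝ, 0 ≤ t →
      t * (W : ℝ) ^ 6 ≤ 1 / 2 →
      (pairs (Om p θ Y Z) (cen p θ) t : ℝ) ≤
        CA * (((W : ℝ) ^ p) ^ 5 * (W : ℝ) ^ 6) + CB * (((W : ℝ) ^ p) ^ 10 * (W : ℝ) ^ 12 * t) := by
  have hp0 : (0 : ℝ) < p := by
    have : (7 : ℝ) ≤ p := by exact_mod_cast hp
    linarith
  obtain ⟨K, hK1, hK⟩ := cube_reps (1 / (4 * p)) (by positivity)
  set c : ℝ := min 1 (1 / (512 * α)) with hc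
  have hc0 : 0 < c := lt_min one_pos (by positivity)
  set c2 : ℝ := max 1 (1 / (32 * α)) with hc2
  have hc21 : 1 ≤ c2 := le_max_left _ _
  set C : ℝ := K * (2 * c2) ^ (1 / (4 * p) : ℝ) with hC
  have hC0 : 0 ≤ C := by positivity
  refine ⟨4 * c2 + 8 / (α * c) + 16 * C * (4 / α + 1) + 16 * c2 ^ 2, 16 / (α * c) + 128 * C / α + 1024 * c2 ^ 2,
    by positivity, by positivity, ?_⟩
  intro θ W Y Z P t ht0 ht
  set w : ℝ := (W : ℝ) with hw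
  have hw1 : (1 : ℝ) ≤ w := by
    have : (2 : ℝ) ≤ w := by rw [hw]; exact_mod_cast P.hW
    linarith
  have hw0 : 0 < w := by linarith
  set x : ℝ := w ^ p with hx
  have hx7 : w ^ 7 ≤ x := pow_le_pow_right₀ hw1 hp
  have hx6 : w ^ 6 ≤ x := pow_le_pow_right₀ hw1 (by omega)
  have hxw : w ≤ x := le_self_pow₀ hw1 (by omega)
  have hx1 : 1 ≤ x := hw1.trans hxw
  have hx0 : 0 < x := by linarith
  have hY0 : (0 : ℝ) < Y := by exact_mod_cast P.hY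
  obtain ⟨hY1, hY2⟩ := Asym_Y P
  have hZ1 : (Z : ℝ) = x ^ 3 := by
    rw [P.hZ, hx]
    push_cast
    rw [← pow_mul]
    congr 1
    ring
  have hZ : (Z : ℝ) ^ 2 = x ^ 6 := by
    rw [hZ1]
    ring
  -- the choice of R
  set R : ℝ := K * ((2 * Y : ℕ) : ℝ) ^ (1 / (4 * p) : ℝ) with hR
  have hR0 : 0 ≤ R := by positivity
  have hRC : R ≤ C * w := by
    have h1 : ((2 * Y : ℕ) : ℝ) ≤ 2 * c2 * w ^ (2 * p) := by
      push_cast
      have : x ^ 2 = w ^ (2 * p) := by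
        rw [hx, ← pow_mul, mul_comm]
      rw [← this]
      linarith
    have h2 : ((2 * Y : ℕ) : ℝ) ^ (1 / (4 * p) : ℝ) ≤ (2 * c2 * w ^ (2 * p)) ^ (1 / (4 * p) : ℝ) :=
      Real.rpow_le_rpow (Nat.cast_nonneg _) h1 (by positivity)
    have h3 : (2 * c2 * w ^ (2 * p)) ^ (1 / (4 * p) : ℝ) =
        (2 * c2) ^ (1 / (4 * p) : ℝ) * w ^ (1 / 2 : ℝ) := by
      rw [Real.mul_rpow (by positivity) (by positivity), ← Real.rpow_natCast w (2 * p), ← Real.rpow_mul hw0.le]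
      congr 2
      push_cast
      field_simp
      ring
    have h4 : w ^ (1 / 2 : ℝ) ≤ w := by
      calc w ^ (1 / 2 : ℝ) ≤ w ^ (1 : ℝ) := Real.rpow_le_rpow_of_exponent_le hw1 (by norm_num)
        _ = w := Real.rpow_one w
    calc R ≤ K * ((2 * c2) ^ (1 / (4 * p) : ℝ) * w ^ (1 / 2 : ℝ)) := by
          rw [hR, ← h3]
          gcongr
      _ ≤ K * ((2 * c2) ^ (1 / (4 * p) : ℝ) * w) := by gcongr
      _ = C * w := by rw [hC]; ring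
  have hRD : ∀ D : ℤ, D ≠ 0 → (((Icc 1 (2 * Y) ×ˢ Icc 1 (2 * Y)).filter
      (fun q : ℕ × ℕ => (q.1 : ℤ) ^ 3 - (q.2 : ℤ) ^ 3 = D)).card : ℝ) ≤ R := fun D hD =>
    hK (2 * Y) (by have := P.hY; omega) D hD
  have hmain := pairs_le P hR0 hRD ht0 ht
  refine hmain.trans ?_
  have hπ : ((prm Z).card : ℝ) ≤ x ^ 3 := by
    rw [← hZ1]
    have h1 : (prm Z).card ≤ Z := by
      refine (Finset.card_filter_le _ _).trans ?_
      rw [Nat.card_Ioc]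
      omega
    exact_mod_cast h1
  rw [hZ]
  have hY3 : (Y : ℝ) * (1 + (4 * t * x ^ 6 + 2) / (α * (Y : ℝ) ^ 2)) ≤
      c2 * x ^ 2 + (4 * t * x ^ 4 + 2) / (α * c) := by
    have h1 : (Y : ℝ) * (1 + (4 * t * x ^ 6 + 2) / (α * (Y : ℝ) ^ 2)) =
        Y + (4 * t * x ^ 6 + 2) / (α * Y) := by
      field_simp
    rw [h1]
    have h2 : (4 * t * x ^ 6 + 2) / (α * Y) ≤ (4 * t * x ^ 6 + 2) / (α * (c * x ^ 2)) := by
      gcongr
    have h3 : (4 * t * x ^ 6 + 2) / (α * (c * x ^ 2)) ≤ (4 * t * x ^ 4 + 2) / (α * c) := by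
      rw [div_le_div_iff₀ (by positivity) (by positivity)]
      have h4 : 1 ≤ x ^ 2 := one_le_pow₀ hx1
      have h5 : 2 * (α * c) ≤ 2 * (α * (c * x ^ 2)) := by
        have : c ≤ c * x ^ 2 := le_mul_of_one_le_right hc0.le h4
        gcongr
      calc (4 * t * x ^ 6 + 2) * (α * c) = 4 * t * x ^ 4 * (α * (c * x ^ 2)) + 2 * (α * c) := by ring
        _ ≤ 4 * t * x ^ 4 * (α * (c * x ^ 2)) + 2 * (α * (c * x ^ 2)) := by gcongr
        _ = (4 * t * x ^ 4 + 2) * (α * (c * x ^ 2)) := by ring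
    exact add_le_add hY2 (h2.trans h3)
  have m1 : x ^ 7 * w ^ 6 * t ≤ x ^ 10 * w ^ 12 * t := by
    have h1 : x ^ 7 ≤ x ^ 10 := pow_le_pow_right₀ hx1 (by norm_num)
    have h2 : w ^ 6 ≤ w ^ 12 := pow_le_pow_right₀ hw1 (by norm_num)
    gcongr
  have m2 : x ^ 3 * w ^ 6 ≤ x ^ 5 * w ^ 6 := by
    have h1 : x ^ 3 ≤ x ^ 5 := pow_le_pow_right₀ hx1 (by norm_num)
    gcongr
  have m3 : x ^ 9 * w ^ 13 * t ≤ x ^ 10 * w ^ 12 * t := by
    have h1 : x ^ 9 * w ^ 13 = x ^ 9 * w ^ 12 * w := by ring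
    have h2 : x ^ 10 * w ^ 12 = x ^ 9 * w ^ 12 * x := by ring
    rw [h1, h2]
    gcongr
  have m4 : x ^ 3 * w ^ 13 ≤ x ^ 5 * w ^ 6 := by
    have h1 : x ^ 3 * w ^ 13 = x ^ 3 * w ^ 6 * w ^ 7 := by ring
    have h2 : x ^ 5 * w ^ 6 = x ^ 3 * w ^ 6 * (x * x) := by ring
    rw [h1, h2]
    have h3 : w ^ 7 ≤ x * x := hx7.trans (le_mul_of_one_le_right hx0.le hx1)
    gcongr
  have m5 : w ^ 12 * x ^ 4 ≤ x ^ 5 * w ^ 6 := by
    have h1 : w ^ 12 * x ^ 4 = x ^ 4 * w ^ 6 * w ^ 6 := by ring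
    have h2 : x ^ 5 * w ^ 6 = x ^ 4 * w ^ 6 * x := by ring
    rw [h1, h2]
    gcongr
  calc ((prm Z).card : ℝ) * (4 * w ^ 6 * (Y * (1 + (4 * t * x ^ 6 + 2) / (α * (Y : ℝ) ^ 2))) +
      16 * w ^ 12 * ((2 * (4 * t * x ^ 6 + 2) / α + 1) * R)) +
      16 * w ^ 12 * (Y : ℝ) ^ 2 * (1 + 64 * t * x ^ 6)
      ≤ x ^ 3 * (4 * w ^ 6 * (c2 * x ^ 2 + (4 * t * x ^ 4 + 2) / (α * c)) +
      16 * w ^ 12 * ((2 * (4 * t * x ^ 6 + 2) / α + 1) * (C * w))) +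
      16 * w ^ 12 * (c2 * x ^ 2) ^ 2 * (1 + 64 * t * x ^ 6) := by gcongr
    _ = (4 * c2) * (x ^ 5 * w ^ 6) + (16 / (α * c)) * (x ^ 7 * w ^ 6 * t) + (8 / (α * c)) * (x ^ 3 * w ^ 6) +
        (128 * C / α) * (x ^ 9 * w ^ 13 * t) + (16 * C * (4 / α + 1)) * (x ^ 3 * w ^ 13) +
        (16 * c2 ^ 2) * (w ^ 12 * x ^ 4) + (1024 * c2 ^ 2) * (x ^ 10 * w ^ 12 * t) := by
        field_simp
        ring
    _ ≤ (4 * c2) * (x ^ 5 * w ^ 6) + (16 / (α * c)) * (x ^ 10 * w ^ 12 * t) + (8 / (α * c)) * (x ^ 5 * w ^ 6) +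
        (128 * C / α) * (x ^ 10 * w ^ 12 * t) + (16 * C * (4 / α + 1)) * (x ^ 5 * w ^ 6) +
        (16 * c2 ^ 2) * (x ^ 5 * w ^ 6) + (1024 * c2 ^ 2) * (x ^ 10 * w ^ 12 * t) := by gcongr
    _ = (4 * c2 + 8 / (α * c) + 16 * C * (4 / α + 1) + 16 * c2 ^ 2) * (x ^ 5 * w ^ 6) +
        (16 / (α * c) + 128 * C / α + 1024 * c2 ^ 2) * (x ^ 10 * w ^ 12 * t) := by ring

theorem pairs_asym {p : ℕ} (hp : 7 ≤ p) {α : ℝ} (hα : 0 < α) {h κ0 s : ℝ} (hκ0 : 0 < κ0) (hh : h < 1)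
    (hs0 : 0 < s) (hs1 : s ≤ 1) (hs : s * (1 - h) ≤ 5 / 6 + 1 / (p : ℝ)) {ε : ℝ} (hε : 0 < ε) :
    ∀ᶠ W : ℕ in atTop, ∀ (θ : ℕ → ℝ) (Y Z : ℕ), Par p α θ W Y Z → ∀ t : ℝ, κ0 * (Z : ℝ) ^ (2 * h - 2) ≤ t →
      t * (W : ℝ) ^ 6 ≤ 1 / 2 →
      (pairs (Om p θ Y Z) (cen p θ) t : ℝ) ≤ ((Om p θ Y Z).card : ℝ) ^ 2 * t ^ s * (W : ℝ) ^ ε := by
  obtain ⟨CA, CB, hCA, hCB, hup⟩ := Asym_upper hp hα
  have hk : 0 < κ0 ^ s := Real.rpow_pos_of_pos hκ0 _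
  have hp0 : (0 : ℝ) < p := by
    have : (7 : ℝ) ≤ p := by exact_mod_cast hp
    linarith
  filter_upwards [Asym_n hp hα (show 0 < ε / 4 by positivity),
    Asym_const (2 * CA / κ0 ^ s) (half_pos hε), Asym_const (2 * CB) (half_pos hε)] with W g1 g2 g3 θ Y Z P t ht1 ht2
  set w : ℝ := (W : ℝ) with hw
  have hw1 : (1 : ℝ) ≤ w := by
    have : (2 : ℝ) ≤ w := by rw [hw]; exact_mod_cast P.hW
    linarith
  have hw0 : 0 < w := by linarith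
  set x : ℝ := w ^ p with hx
  have hx0 : 0 < x := by positivity
  have hZ1 : (Z : ℝ) = w ^ (3 * p) := by
    rw [P.hZ]
    push_cast
    rfl
  have hZ0 : 0 < (Z : ℝ) := by rw [hZ1]; positivity
  have htpos : 0 < t := lt_of_lt_of_le (mul_pos hκ0 (Real.rpow_pos_of_pos hZ0 _)) ht1
  have hw6 : 1 ≤ w ^ 6 := one_le_pow₀ hw1
  have ht3 : t ≤ 1 := by nlinarith
  refine (hup θ W Y Z P t htpos.le ht2).trans ?_
  have h1 := g1 θ Y Z P
  set n : ℝ := ((Om p θ Y Z).card : ℝ) with hn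
  have hn0 : 0 ≤ n := Nat.cast_nonneg _
  -- n^2 w^ε
  have hq0 : 0 < w ^ (ε / 2) := Real.rpow_pos_of_pos hw0 _
  have h2 : x ^ 10 * w ^ 12 ≤ n ^ 2 * w ^ (ε / 2) := by
    have e1 : w ^ (ε / 2) = w ^ (ε / 4) * w ^ (ε / 4) := by
      rw [← Real.rpow_add hw0]
      congr 1
      ring
    calc x ^ 10 * w ^ 12 = (x ^ 5 * w ^ 6) ^ 2 := by ring
      _ ≤ (n * w ^ (ε / 4)) ^ 2 := by gcongr
      _ = n ^ 2 * w ^ (ε / 2) := by rw [e1]; ring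
  have h3 : x ^ 10 * w ^ 12 * w ^ (ε / 2) ≤ n ^ 2 * w ^ ε := by
    have e1 : w ^ ε = w ^ (ε / 2) * w ^ (ε / 2) := by
      rw [← Real.rpow_add hw0]
      congr 1
      ring
    calc x ^ 10 * w ^ 12 * w ^ (ε / 2) ≤ n ^ 2 * w ^ (ε / 2) * w ^ (ε / 2) := by gcongr
      _ = n ^ 2 * w ^ ε := by rw [e1]; ring
  -- t^s
  have hts : 0 < t ^ s := Real.rpow_pos_of_pos htpos _
  have h4 : t ≤ t ^ s := by
    calc t = t ^ (1 : ℝ) := (Real.rpow_one t).symm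
      _ ≤ t ^ s := Real.rpow_le_rpow_of_exponent_ge htpos ht3 hs1
  have h5 : κ0 ^ s ≤ t ^ s * (x ^ 5 * w ^ 6) := by
    have h6 : (κ0 * (Z : ℝ) ^ (2 * h - 2)) ^ s ≤ t ^ s :=
      Real.rpow_le_rpow (mul_nonneg hκ0.le (Real.rpow_nonneg hZ0.le _)) ht1 hs0.le
    have h7 : (κ0 * (Z : ℝ) ^ (2 * h - 2)) ^ s = κ0 ^ s * w ^ (3 * p * (2 * h - 2) * s : ℝ) := by
      rw [Real.mul_rpow hκ0.le (Real.rpow_nonneg hZ0.le _), hZ1, ← Real.rpow_natCast w (3 * p),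
        ← Real.rpow_mul hw0.le, ← Real.rpow_mul hw0.le]
      congr 2
      push_cast
      ring
    have h8 : x ^ 5 * w ^ 6 = w ^ ((5 * p + 6 : ℕ) : ℝ) := by
      rw [Real.rpow_natCast, hx, ← pow_mul, ← pow_add]
      congr 1
      ring
    have h9 : 1 ≤ w ^ (3 * p * (2 * h - 2) * s : ℝ) * w ^ ((5 * p + 6 : ℕ) : ℝ) := by
      rw [← Real.rpow_add hw0]
      refine Real.one_le_rpow hw1 ?_
      push_cast
      have h10 : 6 * p * (s * (1 - h)) ≤ 6 * p * (5 / 6 + 1 / (p : ℝ)) := by gcongr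
      have h11 : 6 * p * (5 / 6 + 1 / (p : ℝ)) = 5 * p + 6 := by
        field_simp
      linarith
    calc κ0 ^ s = κ0 ^ s * 1 := (mul_one _).symm
      _ ≤ κ0 ^ s * (w ^ (3 * p * (2 * h - 2) * s : ℝ) * w ^ ((5 * p + 6 : ℕ) : ℝ)) := by gcongr
      _ = (κ0 ^ s * w ^ (3 * p * (2 * h - 2) * s : ℝ)) * w ^ ((5 * p + 6 : ℕ) : ℝ) := by ring
      _ ≤ t ^ s * w ^ ((5 * p + 6 : ℕ) : ℝ) := by
          rw [← h7]
          gcongr
      _ = t ^ s * (x ^ 5 * w ^ 6) := by rw [h8]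
  have hA : CA * (x ^ 5 * w ^ 6) ≤ (n ^ 2 * t ^ s * w ^ ε) / 2 := by
    rw [div_le_iff₀ hk] at g2
    calc CA * (x ^ 5 * w ^ 6) = (2 * CA) * (x ^ 5 * w ^ 6) / 2 := by ring
      _ ≤ (w ^ (ε / 2) * κ0 ^ s) * (x ^ 5 * w ^ 6) / 2 := by gcongr
      _ ≤ (w ^ (ε / 2) * (t ^ s * (x ^ 5 * w ^ 6))) * (x ^ 5 * w ^ 6) / 2 := by gcongr
      _ = (x ^ 10 * w ^ 12 * w ^ (ε / 2)) * t ^ s / 2 := by ring
      _ ≤ (n ^ 2 * w ^ ε) * t ^ s / 2 := by gcongr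
      _ = (n ^ 2 * t ^ s * w ^ ε) / 2 := by ring
  have hB : CB * (x ^ 10 * w ^ 12 * t) ≤ (n ^ 2 * t ^ s * w ^ ε) / 2 := by
    calc CB * (x ^ 10 * w ^ 12 * t) = (2 * CB) * (x ^ 10 * w ^ 12 * t) / 2 := by ring
      _ ≤ w ^ (ε / 2) * (x ^ 10 * w ^ 12 * t ^ s) / 2 := by gcongr
      _ = (x ^ 10 * w ^ 12 * w ^ (ε / 2)) * t ^ s / 2 := by ring
      _ ≤ (n ^ 2 * w ^ ε) * t ^ s / 2 := by gcongr
      _ = (n ^ 2 * t ^ s * w ^ ε) / 2 := by ring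
  linarith

end EMu
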