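import Mathlib

/-!
# EMu.Basic: definitions for the exceptional multipliers

`cen p θ (x, y, z) = (x^p + θ y) / z^2`, `prm Z` the primes in `(Z, 2Z]`, `yz Y Z` the pairs `(y, z)` with
`Y < y ≤ 2Y`, `z ∈ prm Z`, and `Om p θ Y Z` the triples `(x, y, z)` with `(y, z) ∈ yz Y Z`, `1 ≤ x`,
`1 ≤ cen ≤ 2`.
-/

set_option autoImplicit false

namespace EMu

open Finset

/-- the centre `(x^p + θ y) / z^2` -/
noncomputable def cen (p : ℕ) (θ : ℕ → ℝ) (t : ℕ × ℕ × ℕ) : ℝ := ((t.1 : ℝ) ^ p + θ t.2.1) / (t.2.2 : ℝ) ^ 2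

/-- the primes in `(Z, 2Z]` -/
def prm (Z : ℕ) : Finset ℕ := (Ioc Z (2 * Z)).filter Nat.Prime

/-- the pairs `(y, z)` -/
def yz (Y Z : ℕ) : Finset (ℕ × ℕ) := Ioc Y (2 * Y) ×ˢ prm Z

open Classical in
/-- the triples `(x, y, z)` -/
noncomputable def Om (p : ℕ) (θ : ℕ → ℝ) (Y Z : ℕ) : Finset (ℕ × ℕ × ℕ) :=
  (Icc 1 (9 * Z ^ 2) ×ˢ yz Y Z).filter (fun t => 1 ≤ cen p θ t ∧ cen p θ t ≤ 2)

/-- the hypotheses on the parameters at the scale `W`: `Z = W^(3p)`, `Y` of order `W^(2p)` -/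
structure Par (p : ℕ) (α : ℝ) (θ : ℕ → ℝ) (W Y Z : ℕ) : Prop where
  hp : 7 ≤ p
  hα : 0 < α
  hθ : ∀ y, |θ y - α * (y : ℝ) ^ 3| ≤ 1
  hW : 2 ≤ W
  hY : 1 ≤ Y
  hZ : Z = W ^ (3 * p)
  hY1 : 32 * α * (Y : ℝ) ^ 3 ≤ (Z : ℝ) ^ 2
  hY2 : (Z : ℝ) ^ 2 ≤ 512 * α * (Y : ℝ) ^ 3

open Classical in
/-- the number of pairs of elements of `A` whose centres are at distance at most `ρ` -/
noncomputable def pairs {ι : Type*} (A : Finset ι) (c : ι → ℝ) (ρ : ℝ) : ℕ :=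
  ((A ×ˢ A).filter (fun s => |c s.1 - c s.2| ≤ ρ)).card

end EMu
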