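import Pool.Agent.EMu.Basic

/-!
# EMu.Mass: the mass distribution principle for nested finite families of intervals

`A j` is a finite set of left endpoints of intervals of length `r j`, `w j` are weights with sum `1`, every interval of
the family `j + 1` is contained in one of the family `j`. If for all `u, v` with `r j ≤ v - u` the total weight of the
intervals which meet `[u, v]` is at most `C0 (v - u)^s`, then the intersection has Hausdorff dimension at least `s`.

Proof. Let `K` be the intersection. It is enough that `μH[s] K ≠ 0`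
(`le_dimH_of_hausdorffMeasure_ne_zero`, with `s` as an `NNReal`). The sets `K j = ⋃ a ∈ A j, [a, a + r j]` are compact and
decreasing. Suppose `μH[s] K = 0`. Then there is a countable cover of `K` by sets `t n` with
`∑ (diam (t n))^s < 1 / (2^s * 4 * C0)` or so (unfold `hausdorffMeasure_apply`/`mkMetric`); replace `t n` by an open interval
`(x n - d n, x n + d n)`, `x n ∈ t n`, `d n = diam (t n) + e n` with `e n > 0` tiny, so that
`∑ C0 (2 d n)^s < 1`. By compactness finitely many of the open intervals cover `K j` for some large `j` (a decreasing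
sequence of compact sets with intersection in an open set is eventually in the open set), and we may take `j` so large
that `r j ≤ 2 d n` for the finitely many `n`. Every interval `[a, a + r j]`, `a ∈ A j`, meets one of them, so
`1 = ∑ w j a ≤ ∑ n C0 (2 d n)^s < 1`.
-/

set_option autoImplicit false

namespace EMu

open Finset Filter Topology MeasureTheory

private theorem Mass_rpow {s D e : ℝ} (hs : 0 < s) (hD : 0 ≤ D) (he : 0 ≤ e) :
    (2 * (D + e)) ^ s ≤ 4 ^ s * (D ^ s + e ^ s) := by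
  have hm : 2 * (D + e) ≤ 4 * max D e := by
    have h1 := le_max_left D e
    have h2 := le_max_right D e
    linarith
  have hm0 : 0 ≤ max D e := hD.trans (le_max_left _ _)
  calc (2 * (D + e)) ^ s ≤ (4 * max D e) ^ s :=
        Real.rpow_le_rpow (by positivity) hm hs.le
    _ = 4 ^ s * (max D e) ^ s := Real.mul_rpow (by norm_num) hm0
    _ ≤ 4 ^ s * (D ^ s + e ^ s) := by
        refine mul_le_mul_of_nonneg_left ?_ (by positivity)
        have h1 : 0 ≤ D ^ s := Real.rpow_nonneg hD _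
        have h2 : 0 ≤ e ^ s := Real.rpow_nonneg he _
        rcases max_choice D e with h | h
        · rw [h]; linarith
        · rw [h]; linarith

private theorem Mass_biUnion (F : Finset ℕ) (g : ℕ → Finset ℝ) (f : ℝ → ℝ)
    (hf : ∀ n ∈ F, ∀ a ∈ g n, 0 ≤ f a) :
    ∑ a ∈ F.biUnion g, f a ≤ ∑ n ∈ F, ∑ a ∈ g n, f a := by
  classical
  induction F using Finset.induction_on with
  | empty => simp
  | insert n F hn ih =>
    rw [Finset.biUnion_insert, Finset.sum_insert hn]
    have h1 := Finset.sum_union_inter (s₁ := g n) (s₂ := F.biUnion g) (f := f)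
    have h2 : 0 ≤ ∑ a ∈ g n ∩ F.biUnion g, f a :=
      Finset.sum_nonneg fun a ha => hf n (Finset.mem_insert_self _ _) a (Finset.mem_inter.1 ha).1
    have h3 := ih fun m hm a ha => hf m (Finset.mem_insert_of_mem hm) a ha
    linarith

private theorem Mass_cover {s C0 : ℝ} (hs : 0 < s) (hC : 0 < C0) {t : ℕ → Set ℝ}
    (hd : ∀ n, Metric.ediam (t n) ≤ 1)
    (hsum : ∑' n, ⨆ _ : (t n).Nonempty, Metric.ediam (t n) ^ s <
      ENNReal.ofReal (1 / (4 * C0 * 4 ^ s))) :
    ∃ x d : ℕ → ℝ, (∀ n, t n ⊆ Set.Ioo (x n - d n) (x n + d n)) ∧ (∀ n, 0 < d n) ∧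
      ∀ F : Finset ℕ, (∀ n ∈ F, (t n).Nonempty) → ∑ n ∈ F, C0 * (2 * d n) ^ s < 1 := by
  classical
  have h4 : (0 : ℝ) < 4 ^ s := Real.rpow_pos_of_pos (by norm_num) _
  obtain ⟨x, hx⟩ : ∃ x : ℕ → ℝ, ∀ n, (t n).Nonempty → x n ∈ t n := by
    refine ⟨fun n => if h : (t n).Nonempty then h.some else 0, fun n h => ?_⟩
    simp only [dif_pos h]
    exact h.some_mem
  obtain ⟨η, hη⟩ : ∃ η : ℕ → ℝ, ∀ n, η n = 1 / (4 * C0 * 4 ^ s) * (1 / 2) ^ (n + 1) :=
    ⟨_, fun _ => rfl⟩
  have hη0 : ∀ n, 0 < η n := fun n => by rw [hη]; positivity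
  obtain ⟨e, he⟩ : ∃ e : ℕ → ℝ, ∀ n, e n = (η n) ^ (1 / s) := ⟨_, fun _ => rfl⟩
  have he0 : ∀ n, 0 < e n := fun n => by rw [he]; exact Real.rpow_pos_of_pos (hη0 n) _
  have hes : ∀ n, (e n) ^ s = η n := fun n => by
    rw [he, ← Real.rpow_mul (hη0 n).le, one_div, inv_mul_cancel₀ hs.ne', Real.rpow_one]
  obtain ⟨D, hD⟩ : ∃ D : ℕ → ℝ, ∀ n, D n = (Metric.ediam (t n)).toReal := ⟨_, fun _ => rfl⟩
  have hD0 : ∀ n, 0 ≤ D n := fun n => by rw [hD]; exact ENNReal.toReal_nonneg
  have hfin : ∀ n, Metric.ediam (t n) ≠ ⊤ := fun n =>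
    ne_top_of_le_ne_top ENNReal.one_ne_top (hd n)
  have hDe : ∀ n, Metric.ediam (t n) = ENNReal.ofReal (D n) := fun n => by
    rw [hD, ENNReal.ofReal_toReal (hfin n)]
  refine ⟨x, fun n => D n + e n, ?_, fun n => add_pos_of_nonneg_of_pos (hD0 n) (he0 n), ?_⟩
  · intro n y hy
    have h1 := hx n ⟨y, hy⟩
    have h2 : dist y (x n) ≤ D n := by
      have h3 := Metric.edist_le_ediam_of_mem hy h1
      rw [hDe, edist_dist] at h3
      exact (ENNReal.ofReal_le_ofReal_iff (hD0 n)).1 h3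
    rw [Real.dist_eq, abs_le] at h2
    have h3 := he0 n
    constructor
    · simp only
      linarith [h2.1]
    · simp only
      linarith [h2.2]
  · intro F hF
    have h1 : ∑ n ∈ F, D n ^ s < 1 / (4 * C0 * 4 ^ s) := by
      have h2 : ENNReal.ofReal (∑ n ∈ F, D n ^ s) < ENNReal.ofReal (1 / (4 * C0 * 4 ^ s)) := by
        refine lt_of_le_of_lt ?_ hsum
        rw [ENNReal.ofReal_sum_of_nonneg fun n _ => Real.rpow_nonneg (hD0 n) _]
        refine le_trans (le_of_eq ?_) (ENNReal.sum_le_tsum F)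
        refine Finset.sum_congr rfl fun n hn => ?_
        rw [iSup_pos (hF n hn), hDe, ENNReal.ofReal_rpow_of_nonneg (hD0 n) hs.le]
      exact (ENNReal.ofReal_lt_ofReal_iff (by positivity)).1 h2
    have h5 : ∑ n ∈ F, η n ≤ 1 / (4 * C0 * 4 ^ s) := by
      have h6 : ∑ n ∈ F, (1 / 2 : ℝ) ^ (n + 1) ≤ 1 := by
        have h7 : HasSum (fun n : ℕ => (1 / 2 : ℝ) ^ (n + 1)) 1 := by
          have h8 := (hasSum_geometric_two).mul_left (1 / 2 : ℝ)
          have h9 : (1 / 2 : ℝ) * 2 = 1 := by norm_num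
          rw [h9] at h8
          have h10 : (fun n : ℕ => (1 / 2 : ℝ) ^ (n + 1)) = fun n => 1 / 2 * (1 / 2) ^ n := by
            funext n
            rw [pow_succ]
            ring
          rw [h10]
          exact h8
        exact sum_le_hasSum F (fun n _ => by positivity) h7
      calc ∑ n ∈ F, η n = 1 / (4 * C0 * 4 ^ s) * ∑ n ∈ F, (1 / 2 : ℝ) ^ (n + 1) := by
            rw [Finset.mul_sum]
            exact Finset.sum_congr rfl fun n _ => hη n
        _ ≤ 1 / (4 * C0 * 4 ^ s) * 1 := mul_le_mul_of_nonneg_left h6 (by positivity)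
        _ = _ := mul_one _
    calc ∑ n ∈ F, C0 * (2 * (D n + e n)) ^ s
        ≤ ∑ n ∈ F, C0 * (4 ^ s * (D n ^ s + η n)) := by
          refine Finset.sum_le_sum fun n _ => mul_le_mul_of_nonneg_left ?_ hC.le
          rw [← hes n]
          exact Mass_rpow hs (hD0 n) (he0 n).le
      _ = C0 * 4 ^ s * (∑ n ∈ F, D n ^ s + ∑ n ∈ F, η n) := by
          rw [← Finset.sum_add_distrib, Finset.mul_sum]
          exact Finset.sum_congr rfl fun n _ => by ring
      _ ≤ C0 * 4 ^ s * (1 / (4 * C0 * 4 ^ s) + 1 / (4 * C0 * 4 ^ s)) :=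
          mul_le_mul_of_nonneg_left (by linarith) (by positivity)
      _ = 1 / 2 := by field_simp; norm_num
      _ < 1 := by norm_num

theorem mass_lower {s C0 : ℝ} (hs : 0 < s) (hC : 0 < C0) (A : ℕ → Finset ℝ) (w : ℕ → ℝ → ℝ) (r : ℕ → ℝ)
    (hr : ∀ j, 0 < r j) (hr0 : Tendsto r atTop (𝓝 0)) (hw : ∀ j, ∀ a ∈ A j, 0 ≤ w j a)
    (hsum : ∀ j, ∑ a ∈ A j, w j a = 1)
    (hnest : ∀ j, ∀ a ∈ A (j + 1), ∃ b ∈ A j, b ≤ a ∧ a + r (j + 1) ≤ b + r j)
    (hmass : ∀ j, ∀ u v : ℝ, r j ≤ v - u →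
      ∑ a ∈ (A j).filter (fun a => u - r j ≤ a ∧ a ≤ v), w j a ≤ C0 * (v - u) ^ s) :
    ENNReal.ofReal s ≤ dimH (⋂ j, ⋃ a ∈ A j, Set.Icc a (a + r j)) := by
  classical
  obtain ⟨Kj, hKj⟩ : ∃ Kj : ℕ → Set ℝ, ∀ j, Kj j = ⋃ a ∈ A j, Set.Icc a (a + r j) := ⟨_, fun _ => rfl⟩
  have hK : (⋂ j, ⋃ a ∈ A j, Set.Icc a (a + r j)) = ⋂ j, Kj j := by
    simp only [hKj]
  rw [hK]
  have hcomp : ∀ j, IsCompact (Kj j) := by
    intro j
    rw [hKj]
    exact (A j).finite_toSet.isCompact_biUnion fun a _ => isCompact_Icc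
  have hanti : ∀ j, Kj (j + 1) ⊆ Kj j := by
    intro j y hy
    rw [hKj, Set.mem_iUnion₂] at hy ⊢
    obtain ⟨a, ha, hy1, hy2⟩ := hy
    obtain ⟨b, hb, hba, hab⟩ := hnest j a ha
    exact ⟨b, hb, hba.trans hy1, hy2.trans hab⟩
  have hanti' : Antitone Kj := antitone_nat_of_succ_le hanti
  have hne : MeasureTheory.Measure.hausdorffMeasure s (⋂ j, Kj j) ≠ 0 := by
    intro h0
    rw [MeasureTheory.Measure.hausdorffMeasure_apply] at h0
    have h1 : (⨅ (t : ℕ → Set ℝ) (_ : (⋂ j, Kj j) ⊆ ⋃ n, t n)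
        (_ : ∀ n, Metric.ediam (t n) ≤ (1 : ENNReal)),
          ∑' n, ⨆ _ : (t n).Nonempty, Metric.ediam (t n) ^ s) ≤ 0 := by
      rw [← h0]
      exact le_iSup₂_of_le (1 : ENNReal) one_pos le_rfl
    have h4 : (0 : ℝ) < 4 ^ s := Real.rpow_pos_of_pos (by norm_num) _
    have h2 := lt_of_le_of_lt h1
      (ENNReal.ofReal_pos.2 (show (0 : ℝ) < 1 / (4 * C0 * 4 ^ s) by positivity))
    simp only [iInf_lt_iff] at h2
    obtain ⟨t, hcov, hd, hlt⟩ := h2
    obtain ⟨x, d, hxd, hd0, hF⟩ := Mass_cover hs hC hd hlt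
    -- finite subcover
    obtain ⟨I, hI⟩ : ∃ I : ℕ → Set ℝ, ∀ n, I n = if (t n).Nonempty then
      Set.Ioo (x n - d n) (x n + d n) else ∅ := ⟨_, fun _ => rfl⟩
    have hIo : ∀ n, IsOpen (I n) := by
      intro n
      rw [hI]
      split_ifs
      · exact isOpen_Ioo
      · exact isOpen_empty
    have hcovI : (⋂ j, Kj j) ⊆ ⋃ n, I n := by
      intro y hy
      obtain ⟨n, hn⟩ := Set.mem_iUnion.1 (hcov hy)
      refine Set.mem_iUnion.2 ⟨n, ?_⟩
      rw [hI, if_pos ⟨y, hn⟩]
      exact hxd n hn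
    have hcK : IsCompact (⋂ j, Kj j) :=
      (hcomp 0).of_isClosed_subset (isClosed_iInter fun j => (hcomp j).isClosed)
        (Set.iInter_subset _ 0)
    obtain ⟨F, hFc⟩ := hcK.elim_finite_subcover I hIo hcovI
    -- eventually the sets are inside
    have hUo : IsOpen (⋃ n ∈ F, I n) := isOpen_biUnion fun n _ => hIo n
    obtain ⟨J, hJ⟩ : ∃ J, Kj J ⊆ ⋃ n ∈ F, I n := by
      by_contra hno
      push Not at hno
      have h5 := IsCompact.nonempty_iInter_of_sequence_nonempty_isCompact_isClosed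
        (fun j => Kj j \ ⋃ n ∈ F, I n) (fun j => Set.sdiff_subset_sdiff_left (hanti j))
        (fun j => Set.sdiff_nonempty.2 (hno j)) ((hcomp 0).diff hUo)
        (fun j => ((hcomp j).diff hUo).isClosed)
      obtain ⟨y, hy⟩ := h5
      rw [Set.mem_iInter] at hy
      have h6 : y ∈ ⋂ j, Kj j := Set.mem_iInter.2 fun j => (hy j).1
      exact (hy 0).2 (hFc h6)
    -- large index
    have hsmall : ∀ᶠ j in atTop, ∀ n ∈ F, r j ≤ 2 * d n := by
      rw [Filter.eventually_all_finset]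
      intro n _
      exact (hr0.eventually_le_const (show (0 : ℝ) < 2 * d n by linarith [hd0 n]))
    obtain ⟨j, hj1, hj2⟩ := (hsmall.and (eventually_ge_atTop J)).exists
    have hcovj : Kj j ⊆ ⋃ n ∈ F, I n := (hanti' hj2).trans hJ
    -- the count
    obtain ⟨F', hF'⟩ : ∃ F' : Finset ℕ, F' = F.filter fun n => (t n).Nonempty := ⟨_, rfl⟩
    have hsub : A j ⊆ F'.biUnion fun n =>
        (A j).filter (fun a => x n - d n - r j ≤ a ∧ a ≤ x n + d n) := by
      intro a ha
      have h7 : a ∈ Kj j := by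
        rw [hKj, Set.mem_iUnion₂]
        exact ⟨a, ha, le_rfl, by linarith [hr j]⟩
      obtain ⟨n, hn, hy⟩ := Set.mem_iUnion₂.1 (hcovj h7)
      rw [hI] at hy
      split_ifs at hy with hne
      · refine Finset.mem_biUnion.2 ⟨n, ?_, Finset.mem_filter.2 ⟨ha, ?_, hy.2.le⟩⟩
        · rw [hF']
          exact Finset.mem_filter.2 ⟨hn, hne⟩
        · linarith [hy.1, hr j]
      · exact absurd hy (Set.notMem_empty _)
    have h8 : (1 : ℝ) ≤ ∑ n ∈ F', C0 * (2 * d n) ^ s := by
      calc (1 : ℝ) = ∑ a ∈ A j, w j a := (hsum j).symm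
        _ ≤ ∑ a ∈ F'.biUnion (fun n =>
            (A j).filter (fun a => x n - d n - r j ≤ a ∧ a ≤ x n + d n)), w j a := by
            refine Finset.sum_le_sum_of_subset_of_nonneg hsub fun a ha _ => ?_
            obtain ⟨n, _, hn⟩ := Finset.mem_biUnion.1 ha
            exact hw j a (Finset.mem_filter.1 hn).1
        _ ≤ ∑ n ∈ F', ∑ a ∈ (A j).filter (fun a => x n - d n - r j ≤ a ∧ a ≤ x n + d n),
              w j a := by
            exact Mass_biUnion F' _ _ fun n _ a ha => hw j a (Finset.mem_filter.1 ha).1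
        _ ≤ ∑ n ∈ F', C0 * (2 * d n) ^ s := by
            refine Finset.sum_le_sum fun n hn => ?_
            have hnF : n ∈ F := by
              rw [hF'] at hn
              exact (Finset.mem_filter.1 hn).1
            have h9 := hmass j (x n - d n) (x n + d n) (by linarith [hj1 n hnF])
            have e1 : x n + d n - (x n - d n) = 2 * d n := by ring
            rw [e1] at h9
            exact h9
    have h9 := hF F' (fun n hn => by
      rw [hF'] at hn
      exact (Finset.mem_filter.1 hn).2)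
    linarith
  have h1 : ENNReal.ofReal s = ((Real.toNNReal s : NNReal) : ENNReal) := rfl
  rw [h1]
  apply le_dimH_of_hausdorffMeasure_ne_zero
  rw [Real.coe_toNNReal s hs.le]
  exact hne

end EMu
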