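import Pool.Agent.EMu.Step
import Pool.Agent.EMu.Mass

/-!
# EMu.Cantor: the dimension of the limsup set of a family

Fix `0 < s2 < s1 < s`, `K = 4 C / κ`, `C0 = K`. The initial stage is `A = {1}`, `w = 1`, `r = 1`, `B = 1`: indeed
`wsum ≤ 1 ≤ (v - u)^s1` for `v - u ≥ 1` and `K * 1 * 1 ≤ C0`. Iterate `step` (with `N` = previous `k` + 1, dependent choice):
stages `(A j, w j, r j)`, `r (j+1) ≤ r j / 2`, `r j = r (k j)` for `j ≥ 1` with `k` strictly increasing. For all `j` and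
`r j ≤ v - u`: `wsum (A j) (w j) (r j) u v ≤ C0 (v - u)^s2` (induction: for `v - u ≥ r (j-1)` from `W' ≤ W`, else from the last
item of `step`; for `j = 0`: `wsum ≤ 1 ≤ C0 (v-u)^s2`). By `mass_lower` the intersection `E` has dimension at least `s2`.
A point `β` of `E` lies in some `[c i, c i + r k]`, `i ∈ Γ k`, for infinitely many `k` and in `[1, 2]`. Let `s2 → s`.
-/

set_option autoImplicit false

namespace EMu

open Finset Filter Topology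

variable {ι : Type} {Γ : ℕ → Finset ι} {c : ι → ℝ} {r ρ : ℕ → ℝ} {C κ s : ℝ}

/-- a stage together with its bound for the mass and the last scale -/
private structure Cantor_St (K s1 s2 : ℝ) where
  A : Finset ℝ
  w : ℝ → ℝ
  R : ℝ
  B : ℝ
  k : ℕ
  stg : Stg A w R B K K s1 s2
  mass : ∀ u v : ℝ, R ≤ v - u → wsum A w R u v ≤ K * (v - u) ^ s2

private theorem Cantor_wsum_le {A : Finset ℝ} {w : ℝ → ℝ} {R : ℝ} (hw : ∀ a ∈ A, 0 ≤ w a)
    (hsum : ∑ a ∈ A, w a = 1) (u v : ℝ) : wsum A w R u v ≤ 1 := by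
  rw [← hsum]
  exact Finset.sum_le_sum_of_subset_of_nonneg (Finset.filter_subset _ _) fun a ha _ => hw a ha

private theorem Cantor_init {K s1 s2 : ℝ} (hK : 1 ≤ K) (h2 : 0 < s2) (h21 : s2 < s1) :
    Stg {1} (fun _ => 1) 1 1 K K s1 s2 ∧
      ∀ u v : ℝ, 1 ≤ v - u → wsum {1} (fun _ => 1) 1 u v ≤ K * (v - u) ^ s2 := by
  have hw : ∀ u v : ℝ, wsum {1} (fun _ => 1) 1 u v ≤ 1 := fun u v =>
    Cantor_wsum_le (fun _ _ => zero_le_one) (by simp) u v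
  refine ⟨⟨one_pos, le_refl _, ?_, fun _ _ => zero_le_one, by simp, ?_, le_refl _, ?_⟩, ?_⟩
  · intro a ha
    rw [Finset.mem_singleton] at ha
    subst ha
    norm_num
  · intro u v huv
    rw [one_mul]
    exact (hw u v).trans (Real.one_le_rpow huv (by linarith))
  · rw [Real.one_rpow]; linarith
  · intro u v huv
    have h1 : 1 ≤ (v - u) ^ s2 := Real.one_le_rpow huv h2.le
    nlinarith [hw u v]

private theorem Cantor_aux (F : Fam Γ c r ρ C κ s) (hC : 1 ≤ C) (hκ : 0 < κ) (hκ1 : κ ≤ 1) {s1 s2 : ℝ}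
    (h2 : 0 < s2) (h21 : s2 < s1) (h1s : s1 < s) (hs : s ≤ 1) :
    ENNReal.ofReal s2 ≤ dimH {β : ℝ | 1 ≤ β ∧ β ≤ 2 ∧ ∃ᶠ k in atTop, ∃ i ∈ Γ k, c i ≤ β ∧ β ≤ c i + r k} := by
  have hK1 : 1 ≤ 4 * C / κ := by
    rw [le_div_iff₀ hκ]
    linarith
  have hK0 : 0 < 4 * C / κ := by linarith
  have key : ∀ t : Cantor_St (4 * C / κ) s1 s2, ∃ t' : Cantor_St (4 * C / κ) s1 s2,
      t.k + 1 ≤ t'.k ∧ t'.R = r t'.k ∧ t'.R ≤ t.R / 2 ∧
      (∀ a ∈ t'.A, ∃ b ∈ t.A, b ≤ a ∧ a + t'.R ≤ b + t.R) ∧ (∀ a ∈ t'.A, ∃ i ∈ Γ t'.k, c i = a) := by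
    intro t
    obtain ⟨k, hk, A', w', S', hr2, hnest, hcen, hle, hmass⟩ :=
      step F hC hκ hκ1 h2 h21 h1s hs hK0 t.stg (t.k + 1)
    refine ⟨⟨A', w', r k, _, k, S', ?_⟩, hk, rfl, hr2, hnest, hcen⟩
    intro u v huv
    rcases le_total (v - u) t.R with h | h
    · exact hmass u v huv h
    · exact (hle u v).trans (t.mass u v h)
  choose f hf1 hf2 hf3 hf4 hf5 using key
  obtain ⟨S0, M0⟩ := Cantor_init (K := 4 * C / κ) (s1 := s1) hK1 h2 h21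
  obtain ⟨T, hT0, hT⟩ : ∃ T : ℕ → Cantor_St (4 * C / κ) s1 s2,
      T 0 = ⟨{1}, fun _ => 1, 1, 1, 0, S0, M0⟩ ∧ ∀ j, T (j + 1) = f (T j) :=
    ⟨fun j => Nat.rec ⟨{1}, fun _ => 1, 1, 1, 0, S0, M0⟩ (fun _ t => f t) j, rfl, fun _ => rfl⟩
  have hk : ∀ j, j ≤ (T j).k := by
    intro j
    induction j with
    | zero => exact Nat.zero_le _
    | succ j ih =>
      rw [hT]
      exact (Nat.succ_le_succ ih).trans (hf1 (T j))
  have hR : ∀ j, (T j).R ≤ (1 / 2) ^ j := by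
    intro j
    induction j with
    | zero => simpa using (T 0).stg.hr1
    | succ j ih =>
      rw [hT, pow_succ]
      have := hf3 (T j)
      linarith
  have hR0 : Tendsto (fun j => (T j).R) atTop (𝓝 0) :=
    squeeze_zero (fun j => (T j).stg.hr.le) hR
      (tendsto_pow_atTop_nhds_zero_of_lt_one (by norm_num) (by norm_num))
  have hml := mass_lower h2 hK0 (fun j => (T j).A) (fun j => (T j).w) (fun j => (T j).R)
    (fun j => (T j).stg.hr) hR0 (fun j => (T j).stg.hw) (fun j => (T j).stg.hsum)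
    (fun j => by
      rw [hT]
      exact hf4 (T j))
    (fun j u v huv => (T j).mass u v huv)
  refine hml.trans (dimH_mono ?_)
  intro β hβ
  rw [Set.mem_iInter] at hβ
  have hβ' : ∀ j, ∃ a ∈ (T j).A, a ≤ β ∧ β ≤ a + (T j).R := by
    intro j
    have h := hβ j
    rw [Set.mem_iUnion₂] at h
    obtain ⟨a, ha, h1, h3⟩ := h
    exact ⟨a, ha, h1, h3⟩
  obtain ⟨a, ha, h1, h3⟩ := hβ' 0
  have hA := (T 0).stg.hA a ha
  refine ⟨hA.1.trans h1, h3.trans hA.2, Filter.frequently_atTop.2 fun N => ?_⟩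
  obtain ⟨b, hb, h4, h5⟩ := hβ' (N + 1)
  have hkN := hk (N + 1)
  rw [hT] at hb h5 hkN
  obtain ⟨i, hi, hib⟩ := hf5 (T N) b hb
  rw [hf2] at h5
  refine ⟨(f (T N)).k, by omega, i, hi, ?_, ?_⟩
  · rw [hib]; exact h4
  · rw [hib]; exact h5

theorem cantor (F : Fam Γ c r ρ C κ s) (hC : 1 ≤ C) (hκ : 0 < κ) (hκ1 : κ ≤ 1) (hs0 : 0 < s) (hs : s ≤ 1) :
    ENNReal.ofReal s ≤ dimH {β : ℝ | 1 ≤ β ∧ β ≤ 2 ∧ ∃ᶠ k in atTop, ∃ i ∈ Γ k, c i ≤ β ∧ β ≤ c i + r k} := by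
  by_contra hlt
  rw [not_le] at hlt
  obtain ⟨d, hd⟩ : ∃ d, d = dimH {β : ℝ | 1 ≤ β ∧ β ≤ 2 ∧ ∃ᶠ k in atTop, ∃ i ∈ Γ k, c i ≤ β ∧ β ≤ c i + r k} :=
    ⟨_, rfl⟩
  rw [← hd] at hlt
  have hdt : d ≠ ⊤ := ne_top_of_lt hlt
  have hds : d.toReal < s := by
    rw [← ENNReal.ofReal_toReal hdt] at hlt
    exact (ENNReal.ofReal_lt_ofReal_iff hs0).1 hlt
  have hd0 : 0 ≤ d.toReal := ENNReal.toReal_nonneg
  have h := Cantor_aux F hC hκ hκ1 (s1 := (d.toReal + 2 * s) / 3) (s2 := (2 * d.toReal + s) / 3)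
    (by linarith) (by linarith) (by linarith) hs
  rw [← hd, ← ENNReal.ofReal_toReal hdt, ENNReal.ofReal_le_ofReal_iff hd0] at h
  rw [ENNReal.toReal_ofReal hd0] at h
  linarith

end EMu
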