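import Mathlib

/-!
# EMu.Slice: slices of a set in the plane

If every vertical slice `{y | (x, y) ∈ E}`, `1 < x < 2`, has dimension at least `s > 0` then `E` has dimension at least
`1 + s`. Proof. Let `0 < s' < s`; by `s' < dimH` every slice has `μH[s'] ≠ 0` (indeed `= ⊤`). Suppose `μH[1 + s'] E = 0`.
Then for every `n` there is a countable cover `t n i`, `i ∈ ℕ`, of `E` with `diam (t n i) ≤ 1/(n+1)` and
`∑ i, diam (t n i)^(1+s') ≤ 2^(-n)` (`hausdorffMeasure_apply`; nonempty sets of the cover). The metric of `ℝ × ℝ` is the maximum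
metric. Let `I n i` be a closed interval of length `diam (t n i)` containing the projection of `t n i` to the first
coordinate (for instance the closed convex hull of the projection; if the diameter is `0` it is a point, of measure `0`, and
`diam^s' = 0`). The measurable function `g n x = ∑ i, diam (t n i)^s' 1_{I n i}(x)` has `∫ g n ≤ ∑ i, diam^(1+s') ≤ 2^(-n)`, so
`∑ n, g n x < ∞` for almost all `x`, `g n x → 0`. The sets `{y | (x,y) ∈ t n i}` cover the slice at `x`, so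
`μH[s']`(slice at `x`) `≤ liminf g n x = 0` for almost all `x` (for the `i` with `x ∉ I n i` the slice of `t n i` is empty).
Contradiction, because `(1, 2)` has positive measure.
-/

set_option autoImplicit false

namespace EMu

open MeasureTheory

open Measure Filter Topology ENNReal NNReal Metric

private lemma exists_cover {d : ℝ} (hd : 0 < d) {E : Set (ℝ × ℝ)} (h0 : μH[d] E = 0) {r ε : ℝ≥0∞} (hr : 0 < r)
    (hε : 0 < ε) : ∃ t : ℕ → Set (ℝ × ℝ), E ⊆ ⋃ i, t i ∧ (∀ i, ediam (t i) ≤ r) ∧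
      ∑' i, ediam (t i) ^ d ≤ ε := by
  rw [hausdorffMeasure_apply] at h0
  have h1 := (iSup₂_le_iff.1 h0.le) r hr
  have h2 : (⨅ (t : ℕ → Set (ℝ × ℝ)) (_ : E ⊆ ⋃ n, t n) (_ : ∀ n, ediam (t n) ≤ r),
      ∑' n, ⨆ _ : (t n).Nonempty, ediam (t n) ^ d) < ε := lt_of_le_of_lt h1 hε
  simp only [iInf_lt_iff] at h2
  obtain ⟨t, hE, hd', hs⟩ := h2
  refine ⟨t, hE, hd', le_trans (ENNReal.tsum_le_tsum fun i => ?_) hs.le⟩
  rcases (t i).eq_empty_or_nonempty with he | hne
  · rw [he, ediam_empty, ENNReal.zero_rpow_of_pos hd]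
    exact zero_le
  · exact le_iSup (fun _ : (t i).Nonempty => ediam (t i) ^ d) hne

private lemma lint_bound {s' : ℝ} (hs' : 0 < s') (t : ℕ → Set (ℝ × ℝ)) :
    ∫⁻ x, (∑' i, ediam (t i) ^ s' * (toMeasurable volume (Prod.fst '' t i)).indicator (fun _ => 1) x) ≤
      ∑' i, ediam (t i) ^ (1 + s') := by
  rw [lintegral_tsum]
  · refine ENNReal.tsum_le_tsum fun i => ?_
    rw [lintegral_const_mul _ (measurable_const.indicator (measurableSet_toMeasurable _ _)),
      lintegral_indicator (measurableSet_toMeasurable _ _), lintegral_const, one_mul,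
      Measure.restrict_apply MeasurableSet.univ, Set.univ_inter, measure_toMeasurable]
    have h1 : volume (Prod.fst '' t i) ≤ ediam (t i) := by
      refine (Real.volume_le_diam _).trans (ediam_le ?_)
      rintro _ ⟨p, hp, rfl⟩ _ ⟨q, hq, rfl⟩
      exact le_trans (by rw [Prod.edist_eq]; exact le_max_left _ _) (edist_le_ediam_of_mem hp hq)
    calc ediam (t i) ^ s' * volume (Prod.fst '' t i) ≤ ediam (t i) ^ s' * ediam (t i) := by gcongr
      _ = ediam (t i) ^ (1 + s') := by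
          rw [add_comm, ENNReal.rpow_add_of_nonneg _ _ hs'.le zero_le_one, ENNReal.rpow_one]
  · intro i
    exact (measurable_const.mul (measurable_const.indicator (measurableSet_toMeasurable _ _))).aemeasurable

private lemma slice_null {s' : ℝ} (hs' : 0 < s') {E : Set (ℝ × ℝ)} (h0 : μH[1 + s'] E = 0) :
    ∀ᵐ x : ℝ, μH[s'] {y : ℝ | (x, y) ∈ E} = 0 := by
  have hd : 0 < 1 + s' := by linarith
  have hcov : ∀ n : ℕ, ∃ t : ℕ → Set (ℝ × ℝ), E ⊆ ⋃ i, t i ∧
      (∀ i, ediam (t i) ≤ (2 : ℝ≥0∞)⁻¹ ^ n) ∧ ∑' i, ediam (t i) ^ (1 + s') ≤ (2 : ℝ≥0∞)⁻¹ ^ n := by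
    intro n
    have hp : (0 : ℝ≥0∞) < (2 : ℝ≥0∞)⁻¹ ^ n := ENNReal.pow_pos (by simp) n
    exact exists_cover hd h0 hp hp
  choose t hE hdi hsum using hcov
  set g : ℕ → ℝ → ℝ≥0∞ := fun n x =>
    ∑' i, ediam (t n i) ^ s' * (toMeasurable volume (Prod.fst '' t n i)).indicator (fun _ => 1) x with hg
  have hgm : ∀ n, Measurable (g n) := fun n => Measurable.tsum fun i =>
    measurable_const.mul (measurable_const.indicator (measurableSet_toMeasurable _ _))
  have hint : ∫⁻ x, ∑' n, g n x ≠ ∞ := by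
    rw [lintegral_tsum fun n => (hgm n).aemeasurable]
    have h1 : ∑' n, ∫⁻ x, g n x ≤ ∑' n, (2 : ℝ≥0∞)⁻¹ ^ n :=
      ENNReal.tsum_le_tsum fun n => (lint_bound hs' (t n)).trans (hsum n)
    refine ne_top_of_le_ne_top ?_ h1
    rw [ENNReal.tsum_geometric]
    norm_num
  have hae := ae_lt_top (Measurable.tsum hgm) hint
  filter_upwards [hae] with x hx
  have hlim : Tendsto (fun n => g n x) atTop (𝓝 0) :=
    ENNReal.tendsto_atTop_zero_of_tsum_ne_top hx.ne
  have hpow : Tendsto (fun n : ℕ => (2 : ℝ≥0∞)⁻¹ ^ n) atTop (𝓝 0) :=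
    ENNReal.tendsto_pow_atTop_nhds_zero_of_lt_one (by norm_num)
  have hdT : ∀ n i, ediam {y : ℝ | (x, y) ∈ t n i} ≤ ediam (t n i) := by
    intro n i
    refine ediam_le ?_
    intro y hy z hz
    refine le_trans ?_ (edist_le_ediam_of_mem hy hz)
    rw [Prod.edist_eq]
    exact le_max_right _ _
  have hle := hausdorffMeasure_le_liminf_tsum (X := ℝ) s' {y : ℝ | (x, y) ∈ E} (l := atTop)
    (fun n : ℕ => (2 : ℝ≥0∞)⁻¹ ^ n) hpow (fun n (i : ℕ) => {y : ℝ | (x, y) ∈ t n i})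
    (Eventually.of_forall fun n i => (hdT n i).trans (hdi n i))
    (Eventually.of_forall fun n y hy => by
      have h1 : (x, y) ∈ ⋃ i, t n i := hE n hy
      rw [Set.mem_iUnion] at h1 ⊢
      exact h1)
  refine le_antisymm (hle.trans ?_) zero_le
  have hle2 : liminf (fun n => ∑' i, ediam {y : ℝ | (x, y) ∈ t n i} ^ s') atTop ≤
      liminf (fun n => g n x) atTop := by
    refine liminf_le_liminf (Eventually.of_forall fun n => ?_)
    refine ENNReal.tsum_le_tsum fun i => ?_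
    by_cases hxi : x ∈ toMeasurable volume (Prod.fst '' t n i)
    · rw [Set.indicator_of_mem hxi, mul_one]
      exact ENNReal.rpow_le_rpow (hdT n i) hs'.le
    · have hemp : {y : ℝ | (x, y) ∈ t n i} = ∅ := by
        rw [Set.eq_empty_iff_forall_notMem]
        intro y hy
        exact hxi (subset_toMeasurable _ _ ⟨(x, y), hy, rfl⟩)
      rw [hemp, ediam_empty, ENNReal.zero_rpow_of_pos hs']
      exact zero_le
  rw [hlim.liminf_eq] at hle2
  exact hle2

theorem dim_slice {s : ℝ} (hs : 0 < s) (E : Set (ℝ × ℝ))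
    (h : ∀ x : ℝ, 1 < x → x < 2 → ENNReal.ofReal s ≤ dimH {y : ℝ | (x, y) ∈ E}) :
    ENNReal.ofReal (1 + s) ≤ dimH E := by
  by_contra hcon
  rw [not_le] at hcon
  obtain ⟨r, hr1, hr2⟩ := ENNReal.lt_iff_exists_nnreal_btwn.1 hcon
  obtain ⟨s', hs'⟩ : ∃ s' : ℝ, s' = max ((r : ℝ) - 1) (s / 2) := ⟨_, rfl⟩
  have hs'0 : 0 < s' := by rw [hs']; exact lt_of_lt_of_le (by linarith) (le_max_right _ _)
  have hr3 : (r : ℝ) < 1 + s := by
    rw [← ENNReal.ofReal_coe_nnreal, ENNReal.ofReal_lt_ofReal_iff (by linarith)] at hr2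
    exact hr2
  have hs's : s' < s := by rw [hs']; exact max_lt (by linarith) (by linarith)
  have hrs : (r : ℝ) ≤ 1 + s' := by
    have := le_max_left ((r : ℝ) - 1) (s / 2)
    rw [← hs'] at this
    linarith
  obtain ⟨d1, hd1⟩ : ∃ d1 : NNReal, (d1 : ℝ) = 1 + s' := ⟨⟨1 + s', by linarith⟩, rfl⟩
  obtain ⟨d2, hd2⟩ : ∃ d2 : NNReal, (d2 : ℝ) = s' := ⟨⟨s', hs'0.le⟩, rfl⟩
  have hd : dimH E < (d1 : ENNReal) := by
    refine lt_of_lt_of_le hr1 ?_
    rw [ENNReal.coe_le_coe, ← NNReal.coe_le_coe, hd1]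
    exact hrs
  have h0 : μH[1 + s'] E = 0 := by
    rw [← hd1]
    exact hausdorffMeasure_of_dimH_lt hd
  have hae := slice_null hs'0 h0
  have hsub : Set.Ioo (1 : ℝ) 2 ⊆ {x : ℝ | ¬ μH[s'] {y : ℝ | (x, y) ∈ E} = 0} := by
    intro x hx
    have h1 := h x hx.1 hx.2
    have h2 : (d2 : ENNReal) < dimH {y : ℝ | (x, y) ∈ E} := by
      refine lt_of_lt_of_le ?_ h1
      rw [← ENNReal.ofReal_coe_nnreal, ENNReal.ofReal_lt_ofReal_iff hs, hd2]
      exact hs's
    have h3 : μH[s'] {y : ℝ | (x, y) ∈ E} = ∞ := by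
      rw [← hd2]
      exact hausdorffMeasure_of_lt_dimH h2
    show ¬ _ = _
    rw [h3]
    exact ENNReal.top_ne_zero
  have h1 : volume (Set.Ioo (1 : ℝ) 2) ≤ 0 := (measure_mono hsub).trans (ae_iff.1 hae).le
  rw [Real.volume_Ioo] at h1
  norm_num at h1

end EMu
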