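import Pool.Agent.MAbc.Cor

/-!
# EMu.Ubd: the upper bound for the dimension, and the abc inequality for almost every `β`

`MAbc.mx A B C = max (|A|, |B|, |C|)`, `MAbc.rad` the radical of an integer, `MAbc.gs`, `MAbc.summable_rad` from
`Pool/Agent/MAbc/RadSum.lean`, `Metric.lean`. For positive `A, B, C`, `0 < β ≤ R` and `|A + α B - β C| ≤ δ` with `δ ≤ mx / (4 (1 + 1/α))`
or so one has `C ≥ c mx` with `c = c(α, R) > 0`. Hence the set of such `β` is contained in an interval of length `≤ 2 δ / (c mx)`.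

(a) `dim_upper`: `δ = mx^h`; for `d > σ / (1 - h)` the sum of the `d`-th powers of the lengths over `T ∈ 𝒯` is at most
`C ∑ mx^(-(1-h)d) ≤ C P ∑ mx^(σ - (1-h) d) / (rad rad rad) < ∞` (`mx^(-τ) ≤ |A|^(-τ/3) |B|^(-τ/3) |C|^(-τ/3)`, product of three
convergent sums `gs (τ/3)`); so the limsup set has `μH[d] = 0` (cover by the tail, the diameters tend to `0`; only finitely
many `T` have bounded `mx`). Union over `R ∈ ℕ` (`dimH_iUnion`). See `Pool/Agent/MAbc/Dim.lean`, `DimCover.lean` for the same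
argument in two dimensions.

(b) `ae_abc`: Borel-Cantelli as in `MAbc.metric_abc` (`Pool/Agent/MAbc/Metric.lean`), with `δ = mx^(1-ε) / (rad rad rad)`,
`R ∈ ℕ`, `ε = 1/(m+1)`.
-/

set_option autoImplicit false

namespace EMu

open MeasureTheory

private theorem Ubd_gs {A B C : ℤ} (hA : A ≠ 0) (hB : B ≠ 0) (hC : C ≠ 0) {σ : ℝ} (hσ : 0 < σ) :
    MAbc.mx A B C ^ (-σ) / (MAbc.rad A * MAbc.rad B * MAbc.rad C) ≤
      MAbc.gs (σ / 3) A * (MAbc.gs (σ / 3) B * MAbc.gs (σ / 3) C) := by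
  have hH : 1 ≤ MAbc.mx A B C := MAbc.one_le_mx hA B C
  have hH0 : 0 < MAbc.mx A B C := by linarith
  have hrA : (0 : ℝ) < MAbc.rad A := by exact_mod_cast MAbc.rad_pos A
  have hrB : (0 : ℝ) < MAbc.rad B := by exact_mod_cast MAbc.rad_pos B
  have hrC : (0 : ℝ) < MAbc.rad C := by exact_mod_cast MAbc.rad_pos C
  simp only [MAbc.gs, hA, hB, hC, if_false]
  have hA1 := MAbc.one_le_abs hA
  have hB1 := MAbc.one_le_abs hB
  have hC1 := MAbc.one_le_abs hC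
  have k1 : (MAbc.mx A B C) ^ (-σ) ≤
      |(A : ℝ)| ^ (-(σ / 3)) * (|(B : ℝ)| ^ (-(σ / 3)) * |(C : ℝ)| ^ (-(σ / 3))) := by
    have e2 : (MAbc.mx A B C) ^ (-σ) =
        (MAbc.mx A B C) ^ (-(σ / 3)) * ((MAbc.mx A B C) ^ (-(σ / 3)) * (MAbc.mx A B C) ^ (-(σ / 3))) := by
      rw [← Real.rpow_add hH0, ← Real.rpow_add hH0]
      congr 1
      ring
    rw [e2]
    have f : ∀ x : ℝ, 1 ≤ x → x ≤ MAbc.mx A B C → (MAbc.mx A B C) ^ (-(σ / 3)) ≤ x ^ (-(σ / 3)) := by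
      intro x hx hx'
      exact Real.rpow_le_rpow_of_nonpos (by linarith) hx' (by linarith)
    have fA := f _ hA1 (le_max_left _ _)
    have fB := f _ hB1 ((le_max_left _ _).trans (le_max_right _ _))
    have fC := f _ hC1 ((le_max_right _ _).trans (le_max_right _ _))
    have p0 : 0 ≤ (MAbc.mx A B C) ^ (-(σ / 3)) := by positivity
    exact mul_le_mul fA (mul_le_mul fB fC p0 (by positivity)) (by positivity) (by positivity)
  have e4 : |(A : ℝ)| ^ (-(σ / 3)) / MAbc.rad A *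
      (|(B : ℝ)| ^ (-(σ / 3)) / MAbc.rad B * (|(C : ℝ)| ^ (-(σ / 3)) / MAbc.rad C)) =
      (|(A : ℝ)| ^ (-(σ / 3)) * (|(B : ℝ)| ^ (-(σ / 3)) * |(C : ℝ)| ^ (-(σ / 3)))) /
        (MAbc.rad A * MAbc.rad B * MAbc.rad C) := by
    field_simp
  rw [e4]
  gcongr

private theorem Ubd_sum {σ K : ℝ} (hσ : 0 < σ) (hK : 0 ≤ K) :
    (∑' T : ℤ × ℤ × ℤ, ENNReal.ofReal (K * (MAbc.gs (σ / 3) T.1 *
      (MAbc.gs (σ / 3) T.2.1 * MAbc.gs (σ / 3) T.2.2)))) ≠ ⊤ := by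
  have hs : Summable (MAbc.gs (σ / 3)) := MAbc.summable_rad (s := σ / 3) (by positivity)
  have h2 : Summable (fun T : ℤ × ℤ => MAbc.gs (σ / 3) T.1 * MAbc.gs (σ / 3) T.2) :=
    hs.mul_of_nonneg hs (MAbc.gs_nonneg _) (MAbc.gs_nonneg _)
  have h3 : Summable (fun T : ℤ × ℤ × ℤ => MAbc.gs (σ / 3) T.1 *
      (MAbc.gs (σ / 3) T.2.1 * MAbc.gs (σ / 3) T.2.2)) :=
    hs.mul_of_nonneg h2 (MAbc.gs_nonneg _)
      (fun T => mul_nonneg (MAbc.gs_nonneg _ _) (MAbc.gs_nonneg _ _))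
  have h4 := h3.mul_left K
  rw [← ENNReal.ofReal_tsum_of_nonneg (fun T => ?_) h4]
  · exact ENNReal.ofReal_ne_top
  · have := MAbc.gs_nonneg (σ / 3) T.1
    have := MAbc.gs_nonneg (σ / 3) T.2.1
    have := MAbc.gs_nonneg (σ / 3) T.2.2
    positivity

/-- the lower bound for the third term -/
private theorem Ubd_C {α R h : ℝ} (hα : 0 < α) (hR : 1 ≤ R) {T : ℤ × ℤ × ℤ} (hT1 : 0 < T.1) (hT2 : 0 < T.2.1)
    (hT3 : 0 < T.2.2) (hbig : MAbc.mx T.1 T.2.1 T.2.2 ^ h ≤ min 1 α / 2 * MAbc.mx T.1 T.2.1 T.2.2) {β : ℝ}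
    (hβR : β ≤ R)
    (hβ : |T.1 + α * T.2.1 - β * T.2.2| ≤ MAbc.mx T.1 T.2.1 T.2.2 ^ h) :
    min 1 α / (2 * R) * MAbc.mx T.1 T.2.1 T.2.2 ≤ T.2.2 := by
  obtain ⟨A, B, C⟩ := T
  simp only at *
  set H := MAbc.mx A B C with hH
  have hA : (0 : ℝ) < A := by exact_mod_cast hT1
  have hB : (0 : ℝ) < B := by exact_mod_cast hT2
  have hC : (0 : ℝ) < C := by exact_mod_cast hT3
  have hR0 : 0 < R := by linarith
  have hm1 : min 1 α ≤ 1 := min_le_left _ _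
  have hm2 : min 1 α ≤ α := min_le_right _ _
  have hm0 : 0 < min 1 α := lt_min one_pos hα
  have hH' : H = max (A : ℝ) (max (B : ℝ) (C : ℝ)) := by
    rw [hH]
    unfold MAbc.mx
    rw [abs_of_pos hA, abs_of_pos hB, abs_of_pos hC]
  have hH0 : 0 < H := by rw [hH']; exact lt_max_of_lt_left hA
  obtain ⟨h1, h2⟩ := abs_le.1 hβ
  have h3 : β * C ≤ R * C := mul_le_mul_of_nonneg_right hβR hC.le
  have hαB : 0 < α * B := mul_pos hα hB
  have key : min 1 α * H / 2 ≤ R * C := by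
    rcases max_choice (A : ℝ) (max (B : ℝ) (C : ℝ)) with h5 | h5
    · rw [h5] at hH'
      nlinarith
    · rcases max_choice (B : ℝ) (C : ℝ) with h6 | h6
      · rw [h5, h6] at hH'
        have : min 1 α * H ≤ α * B := by
          rw [hH']
          exact mul_le_mul_of_nonneg_right hm2 hB.le
        nlinarith
      · rw [h5, h6] at hH'
        rw [← hH']
        nlinarith
  have e : min 1 α / (2 * R) * H = (min 1 α * H / 2) / R := by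
    field_simp
  rw [e, div_le_iff₀ hR0]
  linarith

private theorem Ubd_one {α : ℝ} (hα : 0 < α) {h σ : ℝ} (hσ : 0 ≤ σ) (hh : h < 1) (T0 : Set (ℤ × ℤ × ℤ)) (P : ℝ)
    (hT : ∀ T ∈ T0, 0 < T.1 ∧ 0 < T.2.1 ∧ 0 < T.2.2 ∧
      (MAbc.rad T.1 : ℝ) * MAbc.rad T.2.1 * MAbc.rad T.2.2 ≤ P * MAbc.mx T.1 T.2.1 T.2.2 ^ σ) {R : ℝ} (hR : 1 ≤ R) :
    dimH {β : ℝ | 0 < β ∧ β ≤ R ∧ {T : ℤ × ℤ × ℤ | T ∈ T0 ∧
      |T.1 + α * T.2.1 - β * T.2.2| ≤ MAbc.mx T.1 T.2.1 T.2.2 ^ h}.Infinite} ≤ ENNReal.ofReal (σ / (1 - h)) := by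
  have hh1 : 0 < 1 - h := by linarith
  have hP0 : 0 ≤ |P| := abs_nonneg P
  apply le_of_forall_gt_imp_ge_of_dense
  intro a ha
  obtain ⟨d, hd1, hd2⟩ := ENNReal.lt_iff_exists_nnreal_btwn.1 ha
  refine le_trans ?_ hd2.le
  have hd3 : σ / (1 - h) < (d : ℝ) := by
    have h0 : (0 : ℝ) ≤ σ / (1 - h) := by positivity
    rw [← ENNReal.ofReal_coe_nnreal] at hd1
    exact (ENNReal.ofReal_lt_ofReal_iff_of_nonneg h0).1 hd1
  have hd0 : (0 : ℝ) < d := by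
    have h0 : (0 : ℝ) ≤ σ / (1 - h) := by positivity
    linarith
  obtain ⟨τ, hτ⟩ : ∃ τ, τ = (1 - h) * (d : ℝ) - σ := ⟨_, rfl⟩
  have hτ0 : 0 < τ := by
    rw [div_lt_iff₀ hh1] at hd3
    rw [hτ]
    nlinarith
  have hm0 : 0 < min 1 α := lt_min one_pos hα
  obtain ⟨c, hc⟩ : ∃ c, c = min 1 α / (2 * R) := ⟨_, rfl⟩
  have hc0 : 0 < c := by rw [hc]; positivity
  apply dimH_le_of_hausdorffMeasure_ne_top
  have hbig : ∃ n₀ : ℕ, 1 ≤ n₀ ∧ ∀ H : ℝ, (n₀ : ℝ) ≤ H → H ^ h ≤ min 1 α / 2 * H := by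
    have h1 : Filter.Tendsto (fun x : ℝ => x ^ (-(1 - h))) Filter.atTop (nhds 0) := tendsto_rpow_neg_atTop hh1
    have h2 : ∀ᶠ x : ℝ in Filter.atTop, x ^ (-(1 - h)) < min 1 α / 2 :=
      (tendsto_order.1 h1).2 _ (by positivity)
    obtain ⟨x₀, hx₀⟩ := Filter.eventually_atTop.1 h2
    obtain ⟨n₀, hn₀⟩ := exists_nat_ge x₀
    refine ⟨max n₀ 1, le_max_right _ _, fun H hH => ?_⟩
    have hH1 : (1 : ℝ) ≤ H := by
      refine le_trans ?_ hH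
      exact_mod_cast le_max_right n₀ 1
    have hH0 : 0 < H := by linarith
    have hH2 : x₀ ≤ H := by
      refine hn₀.trans (le_trans ?_ hH)
      exact_mod_cast le_max_left n₀ 1
    have h3 := (hx₀ H hH2).le
    have e : H ^ h = H ^ (-(1 - h)) * H := by
      have e1 := Real.rpow_add hH0 (-(1 - h)) 1
      rw [Real.rpow_one] at e1
      rw [← e1]
      congr 1
      ring
    rw [e]
    exact mul_le_mul_of_nonneg_right h3 hH0.le
  obtain ⟨n₀, hn₀1, hn₀⟩ := hbig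
  classical
  set u : ℕ → (ℤ × ℤ × ℤ) → Set ℝ := fun n T =>
    if T ∈ T0 ∧ (n₀ : ℝ) ≤ MAbc.mx T.1 T.2.1 T.2.2 ∧ (n : ℝ) ≤ MAbc.mx T.1 T.2.1 T.2.2 ∧
        c * MAbc.mx T.1 T.2.1 T.2.2 ≤ T.2.2
      then Set.Icc ((T.1 + α * T.2.1 - MAbc.mx T.1 T.2.1 T.2.2 ^ h) / T.2.2)
        ((T.1 + α * T.2.1 + MAbc.mx T.1 T.2.1 T.2.2 ^ h) / T.2.2) else ∅ with hu
  have hn₀r : (1 : ℝ) ≤ n₀ := by exact_mod_cast hn₀1
  have hdm : ∀ n T, Metric.ediam (u n T) ≤ ENNReal.ofReal (2 / c * MAbc.mx T.1 T.2.1 T.2.2 ^ (-(1 - h))) := by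
    intro n T
    simp only [hu]
    split_ifs with hc1
    · rw [Real.ediam_Icc]
      apply ENNReal.ofReal_le_ofReal
      obtain ⟨k1, k2, k3, k4⟩ := hc1
      set H := MAbc.mx T.1 T.2.1 T.2.2 with hH
      have hH0 : 0 < H := by linarith
      have hC0 : (0 : ℝ) < T.2.2 := lt_of_lt_of_le (by positivity) k4
      have e : ((T.1 : ℝ) + α * T.2.1 + H ^ h) / T.2.2 - (T.1 + α * T.2.1 - H ^ h) / T.2.2 =
          2 * H ^ h / T.2.2 := by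
        field_simp
        ring
      rw [e]
      have e2 : 2 / c * H ^ (-(1 - h)) = 2 * H ^ h / (c * H) := by
        have e1 : H ^ (-(1 - h)) = H ^ h / H := by
          rw [neg_sub, Real.rpow_sub hH0, Real.rpow_one]
        rw [e1]
        field_simp
      rw [e2]
      apply div_le_div_of_nonneg_left _ (by positivity) k4
      positivity
    · rw [Metric.ediam_empty]
      exact zero_le
  have hr : Filter.Tendsto (fun n : ℕ => ENNReal.ofReal (2 / c * (n : ℝ) ^ (-(1 - h)))) Filter.atTop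
      (nhds 0) := by
    have h1 : Filter.Tendsto (fun n : ℕ => 2 / c * (n : ℝ) ^ (-(1 - h))) Filter.atTop (nhds 0) := by
      have h2 := (tendsto_rpow_neg_atTop hh1).comp tendsto_natCast_atTop_atTop
      have h3 := h2.const_mul (2 / c)
      rw [mul_zero] at h3
      exact h3
    have h4 := ENNReal.tendsto_ofReal h1
    rw [ENNReal.ofReal_zero] at h4
    exact h4
  have hdiam : ∀ᶠ n : ℕ in Filter.atTop, ∀ i, Metric.ediam (u n i) ≤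
      ENNReal.ofReal (2 / c * (n : ℝ) ^ (-(1 - h))) := by
    filter_upwards [Filter.eventually_ge_atTop 1] with n hn i
    by_cases h1 : i ∈ T0 ∧ (n₀ : ℝ) ≤ MAbc.mx i.1 i.2.1 i.2.2 ∧ (n : ℝ) ≤ MAbc.mx i.1 i.2.1 i.2.2 ∧
        c * MAbc.mx i.1 i.2.1 i.2.2 ≤ i.2.2
    · refine (hdm n i).trans ?_
      apply ENNReal.ofReal_le_ofReal
      have hn0 : (0 : ℝ) < n := by exact_mod_cast hn
      have h5 : MAbc.mx i.1 i.2.1 i.2.2 ^ (-(1 - h)) ≤ (n : ℝ) ^ (-(1 - h)) :=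
        Real.rpow_le_rpow_of_nonpos hn0 h1.2.2.1 (by linarith)
      have h6 : 0 ≤ 2 / c := by positivity
      exact mul_le_mul_of_nonneg_left h5 h6
    · have e6 : u n i = ∅ := if_neg h1
      rw [e6, Metric.ediam_empty]
      exact zero_le
  have hcov : ∀ᶠ n : ℕ in Filter.atTop, {β : ℝ | 0 < β ∧ β ≤ R ∧ {T : ℤ × ℤ × ℤ | T ∈ T0 ∧
      |T.1 + α * T.2.1 - β * T.2.2| ≤ MAbc.mx T.1 T.2.1 T.2.2 ^ h}.Infinite} ⊆ ⋃ i, u n i := by
    filter_upwards with n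
    rintro β ⟨hv1, hv2, hv3⟩
    obtain ⟨T, hT1, hT2⟩ := hv3.exists_notMem_finite (MAbc.finite_mx_le (max n₀ n))
    have hT3 : max (n₀ : ℝ) n < MAbc.mx T.1 T.2.1 T.2.2 := by
      by_contra hc
      exact hT2 (not_lt.1 hc)
    have h7 : (n₀ : ℝ) ≤ MAbc.mx T.1 T.2.1 T.2.2 := (le_max_left _ _).trans hT3.le
    have h8 : (n : ℝ) ≤ MAbc.mx T.1 T.2.1 T.2.2 := (le_max_right _ _).trans hT3.le
    obtain ⟨p1, p2, p3, -⟩ := hT T hT1.1
    have h9 := Ubd_C hα hR p1 p2 p3 (hn₀ _ h7) hv2 hT1.2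
    rw [← hc] at h9
    have hC0 : (0 : ℝ) < T.2.2 := by exact_mod_cast p3
    refine Set.mem_iUnion.2 ⟨T, ?_⟩
    simp only [hu]
    rw [if_pos ⟨hT1.1, h7, h8, h9⟩]
    obtain ⟨q1, q2⟩ := abs_le.1 hT1.2
    constructor
    · rw [div_le_iff₀ hC0]
      linarith
    · rw [le_div_iff₀ hC0]
      linarith
  refine ne_top_of_le_ne_top (Ubd_sum hτ0 (K := (2 / c) ^ (d : ℝ) * |P|) (by positivity)) ?_
  refine (MeasureTheory.Measure.hausdorffMeasure_le_liminf_tsum (d : ℝ) _ _ hr u hdiam hcov).trans ?_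
  apply Filter.liminf_le_of_frequently_le'
  apply Filter.Eventually.frequently
  filter_upwards with n
  apply ENNReal.tsum_le_tsum
  intro T
  by_cases h1 : T ∈ T0 ∧ (n₀ : ℝ) ≤ MAbc.mx T.1 T.2.1 T.2.2 ∧ (n : ℝ) ≤ MAbc.mx T.1 T.2.1 T.2.2 ∧
      c * MAbc.mx T.1 T.2.1 T.2.2 ≤ T.2.2
  · obtain ⟨p1, p2, p3, p4⟩ := hT T h1.1
    have g1 := Ubd_gs (A := T.1) (B := T.2.1) (C := T.2.2) p1.ne' p2.ne' p3.ne' hτ0
    set H := MAbc.mx T.1 T.2.1 T.2.2 with hH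
    have hH0 : 0 < H := by linarith [h1.2.1]
    have hrA : (0 : ℝ) < MAbc.rad T.1 := by exact_mod_cast MAbc.rad_pos _
    have hrB : (0 : ℝ) < MAbc.rad T.2.1 := by exact_mod_cast MAbc.rad_pos _
    have hrC : (0 : ℝ) < MAbc.rad T.2.2 := by exact_mod_cast MAbc.rad_pos _
    have g2 : H ^ (-((1 - h) * (d : ℝ))) ≤
        |P| * (H ^ (-τ) / (MAbc.rad T.1 * MAbc.rad T.2.1 * MAbc.rad T.2.2)) := by
      have e1 : H ^ (-τ) = H ^ (-((1 - h) * (d : ℝ))) * H ^ σ := by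
        rw [← Real.rpow_add hH0]
        congr 1
        rw [hτ]
        ring
      rw [e1, ← mul_div_assoc, le_div_iff₀ (by positivity)]
      have h0 : 0 ≤ H ^ (-((1 - h) * (d : ℝ))) := by positivity
      have hPs : P * H ^ σ ≤ |P| * H ^ σ := mul_le_mul_of_nonneg_right (le_abs_self P) (by positivity)
      calc H ^ (-((1 - h) * (d : ℝ))) * (MAbc.rad T.1 * MAbc.rad T.2.1 * MAbc.rad T.2.2)
          ≤ H ^ (-((1 - h) * (d : ℝ))) * (|P| * H ^ σ) := mul_le_mul_of_nonneg_left (p4.trans hPs) h0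
        _ = |P| * (H ^ (-((1 - h) * (d : ℝ))) * H ^ σ) := by ring
    calc Metric.ediam (u n T) ^ (d : ℝ)
        ≤ ENNReal.ofReal (2 / c * H ^ (-(1 - h))) ^ (d : ℝ) := ENNReal.rpow_le_rpow (hdm n T) hd0.le
      _ = ENNReal.ofReal ((2 / c * H ^ (-(1 - h))) ^ (d : ℝ)) :=
          ENNReal.ofReal_rpow_of_nonneg (by positivity) hd0.le
      _ ≤ _ := by
          apply ENNReal.ofReal_le_ofReal
          have e2 : (2 / c * H ^ (-(1 - h))) ^ (d : ℝ) = (2 / c) ^ (d : ℝ) * H ^ (-((1 - h) * (d : ℝ))) := by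
            rw [Real.mul_rpow (by positivity) (by positivity), ← Real.rpow_mul hH0.le]
            congr 2
            ring
          rw [e2, mul_assoc]
          apply mul_le_mul_of_nonneg_left _ (by positivity)
          exact g2.trans (mul_le_mul_of_nonneg_left g1 hP0)
  · have e6 : u n T = ∅ := if_neg h1
    rw [e6, Metric.ediam_empty, ENNReal.zero_rpow_of_pos hd0]
    exact zero_le

theorem dim_upper {α : ℝ} (hα : 0 < α) {h σ : ℝ} (hσ : 0 ≤ σ) (hh : h < 1) (T0 : Set (ℤ × ℤ × ℤ)) (P : ℝ)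
    (hT : ∀ T ∈ T0, 0 < T.1 ∧ 0 < T.2.1 ∧ 0 < T.2.2 ∧
      (MAbc.rad T.1 : ℝ) * MAbc.rad T.2.1 * MAbc.rad T.2.2 ≤ P * MAbc.mx T.1 T.2.1 T.2.2 ^ σ) :
    dimH {β : ℝ | 0 < β ∧ {T : ℤ × ℤ × ℤ | T ∈ T0 ∧
      |T.1 + α * T.2.1 - β * T.2.2| ≤ MAbc.mx T.1 T.2.1 T.2.2 ^ h}.Infinite} ≤ ENNReal.ofReal (σ / (1 - h)) := by
  have hsub : {β : ℝ | 0 < β ∧ {T : ℤ × ℤ × ℤ | T ∈ T0 ∧
      |T.1 + α * T.2.1 - β * T.2.2| ≤ MAbc.mx T.1 T.2.1 T.2.2 ^ h}.Infinite} ⊆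
      ⋃ (R : ℕ), {β : ℝ | 0 < β ∧ β ≤ (R : ℝ) + 1 ∧ {T : ℤ × ℤ × ℤ | T ∈ T0 ∧
        |T.1 + α * T.2.1 - β * T.2.2| ≤ MAbc.mx T.1 T.2.1 T.2.2 ^ h}.Infinite} := by
    rintro β ⟨h1, h2⟩
    obtain ⟨R, hR⟩ := exists_nat_ge β
    exact Set.mem_iUnion.2 ⟨R, h1, by linarith, h2⟩
  refine (dimH_mono hsub).trans ?_
  rw [dimH_iUnion]
  apply iSup_le
  intro R
  exact Ubd_one hα hσ hh T0 P hT (by
    have : (0 : ℝ) ≤ R := Nat.cast_nonneg R
    linarith)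

end EMu
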