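import Pool.Agent.EMu.Lower
import Pool.Agent.EMu.Ubd
import Pool.Agent.EMu.AeAbc
import Pool.Agent.EMu.Slice
import Pool.Agent.MAbc.Dim
import Pool.Agent.MAbc.Sig

/-!
# EMu.Final: from the lower bound to the sets of the theorem
-/

set_option autoImplicit false

namespace EMu

open MeasureTheory

/-- the triples of pure powers `(x^p, y^3, z^2)`, coprime, with positive bases -/
def Pure (p : ℕ) : Set (ℤ × ℤ × ℤ) :=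
  {T | ∃ x y z : ℤ, 0 < x ∧ 0 < y ∧ 0 < z ∧ Int.gcd x z = 1 ∧ T = (x ^ p, y ^ 3, z ^ 2)}

/-- positive terms -/
def Pos (T : ℤ × ℤ × ℤ) : Prop := 0 < T.1 ∧ 0 < T.2.1 ∧ 0 < T.2.2

theorem pure_gcd {p : ℕ} {T : ℤ × ℤ × ℤ} (hT : T ∈ Pure p) : Int.gcd (Int.gcd T.1 T.2.1) T.2.2 = 1 := by
  obtain ⟨x, y, z, hx, hy, hz, hg, rfl⟩ := hT
  simp only
  have h1 : Int.gcd (x ^ p) (z ^ 2) = 1 := by
    rw [← Int.isCoprime_iff_gcd_eq_one] at hg ⊢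
    exact hg.pow
  have h2 : (Int.gcd (Int.gcd (x ^ p) (y ^ 3)) (z ^ 2) : ℤ) ∣ Int.gcd (x ^ p) (z ^ 2) := by
    apply Int.dvd_coe_gcd
    · exact (Int.gcd_dvd_left _ _).trans (Int.gcd_dvd_left _ _)
    · exact Int.gcd_dvd_right _ _
  rw [h1] at h2
  have h3 : Int.gcd (Int.gcd (x ^ p) (y ^ 3)) (z ^ 2) ∣ 1 := by exact_mod_cast h2
  exact Nat.dvd_one.mp h3

/-- the set of `lower` -/
def LowSet (p : ℕ) (α : ℝ) (θ : ℕ → ℝ) (h κ0 : ℝ) : Set ℝ :=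
  {β : ℝ | 1 ≤ β ∧ β ≤ 2 ∧ ∀ N : ℕ, ∃ Z x y z : ℕ, N ≤ Z ∧ 1 ≤ x ∧ 1 ≤ y ∧ z.Prime ∧ Z < z ∧ z ≤ 2 * Z ∧
        (x : ℝ) ^ p ≤ 9 * (Z : ℝ) ^ 2 ∧ 4 * α * (y : ℝ) ^ 3 ≤ (Z : ℝ) ^ 2 ∧
        0 ≤ β * (z : ℝ) ^ 2 - ((x : ℝ) ^ p + θ y) ∧
        β * (z : ℝ) ^ 2 - ((x : ℝ) ^ p + θ y) ≤ 4 * κ0 * (Z : ℝ) ^ (2 * h)}

/-- infinitely many triples from solutions with arbitrarily large `Z` -/
theorem infinite_of_low {p : ℕ} (hp : 7 ≤ p) {α : ℝ} {θ : ℕ → ℝ} {h κ0 β : ℝ} (hβ : β ∈ LowSet p α θ h κ0)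
    (P : ℤ × ℤ × ℤ → Prop)
    (hP : ∀ Z x y z : ℕ, 1 ≤ x → 1 ≤ y → z.Prime → Z < z → z ≤ 2 * Z → (x : ℝ) ^ p ≤ 9 * (Z : ℝ) ^ 2 →
      4 * α * (y : ℝ) ^ 3 ≤ (Z : ℝ) ^ 2 → 0 ≤ β * (z : ℝ) ^ 2 - ((x : ℝ) ^ p + θ y) →
      β * (z : ℝ) ^ 2 - ((x : ℝ) ^ p + θ y) ≤ 4 * κ0 * (Z : ℝ) ^ (2 * h) →
      P ((x : ℤ) ^ p, (y : ℤ) ^ 3, (z : ℤ) ^ 2)) :
    {T : ℤ × ℤ × ℤ | T ∈ Pure p ∧ P T}.Infinite := by
  intro hfin
  -- the third coordinates are bounded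
  obtain ⟨M, hM⟩ := (hfin.image (fun T : ℤ × ℤ × ℤ => T.2.2)).bddAbove
  obtain ⟨Z, x, y, z, hZN, hx, hy, hz, hZz, hz2, hxp, hy3, h0, h1⟩ := hβ.2.2 (M.natAbs + 3)
  have hZ3 : 3 ≤ Z := by omega
  have hxz : x < z := by
    by_contra hcon
    push Not at hcon
    have h2 : (Z : ℝ) < x := by exact_mod_cast hZz.trans_le hcon
    have hZr : (3 : ℝ) ≤ Z := by exact_mod_cast hZ3
    have h3 : (Z : ℝ) ^ p ≤ (x : ℝ) ^ p := pow_le_pow_left₀ (by linarith) h2.le p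
    have h4 : (Z : ℝ) ^ 7 ≤ (Z : ℝ) ^ p := pow_le_pow_right₀ (by linarith) hp
    have h5 : (9 : ℝ) * (Z : ℝ) ^ 2 < (Z : ℝ) ^ 7 := by
      have : (3 : ℝ) ^ 5 ≤ (Z : ℝ) ^ 5 := pow_le_pow_left₀ (by norm_num) hZr 5
      have h6 : (0 : ℝ) < (Z : ℝ) ^ 2 := by positivity
      calc (9 : ℝ) * (Z : ℝ) ^ 2 < 3 ^ 5 * (Z : ℝ) ^ 2 := by
            apply mul_lt_mul_of_pos_right _ h6
            norm_num
        _ ≤ (Z : ℝ) ^ 5 * (Z : ℝ) ^ 2 := mul_le_mul_of_nonneg_right this h6.le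
        _ = (Z : ℝ) ^ 7 := by ring
    linarith
  have hcop : Nat.gcd x z = 1 := by
    have : Nat.Coprime z x := (Nat.Prime.coprime_iff_not_dvd hz).mpr (fun hd => by
      have := Nat.le_of_dvd (by omega) hd
      omega)
    exact this.symm
  have hmem : ((x : ℤ) ^ p, (y : ℤ) ^ 3, (z : ℤ) ^ 2) ∈ {T : ℤ × ℤ × ℤ | T ∈ Pure p ∧ P T} := by
    refine ⟨⟨x, y, z, by exact_mod_cast hx, by exact_mod_cast hy, by exact_mod_cast hz.pos, ?_, rfl⟩, ?_⟩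
    · rw [Int.gcd_natCast_natCast]
      exact hcop
    · exact hP Z x y z hx hy hz hZz hz2 hxp hy3 h0 h1
  have h6 : ((z : ℤ) ^ 2) ≤ M := hM ⟨_, hmem, rfl⟩
  have h7 : (M.natAbs : ℤ) + 3 < z := by
    have : M.natAbs + 3 < z := lt_of_le_of_lt hZN hZz
    exact_mod_cast this
  have h8 : M ≤ M.natAbs := Int.le_natAbs
  have h9 : (z : ℤ) ≤ (z : ℤ) ^ 2 := by nlinarith
  linarith

theorem dim_pure_near {p : ℕ} (hp : 7 ≤ p) {α : ℝ} (hα : 0 < α) {h : ℝ} (hh : h < 1 / 6 - 1 / (p : ℝ)) :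
    ENNReal.ofReal ((5 / 6 + 1 / (p : ℝ)) / (1 - h)) ≤
      dimH {β : ℝ | 0 < β ∧ {T : ℤ × ℤ × ℤ | T ∈ Pure p ∧
        |T.1 + α * T.2.1 - β * T.2.2| ≤ MAbc.mx T.1 T.2.1 T.2.2 ^ h}.Infinite} := by
  set K : ℝ := 9 + 1 / (4 * α) with hK
  have hK9 : 9 ≤ K := by
    have : 0 < 1 / (4 * α) := by positivity
    linarith
  have hK0 : 0 < K := by linarith
  set κ0 : ℝ := K ^ (-|h|) / 4 with hκ
  have hκ0 : 0 < κ0 := by positivity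
  have hlow := lower (θ := fun y => α * (y : ℝ) ^ 3) hp hα (by intro y; simp) (h := h) hκ0 hh
  refine hlow.trans (dimH_mono ?_)
  intro β hβ
  have hβ' : β ∈ LowSet p α (fun y => α * (y : ℝ) ^ 3) h κ0 := hβ
  refine ⟨by linarith [hβ.1], ?_⟩
  apply infinite_of_low hp hβ'
  intro Z x y z hx hy hz hZz hz2 hxp hy3 h0 h1
  have hx' : (1 : ℝ) ≤ x := by exact_mod_cast hx
  have hy' : (1 : ℝ) ≤ y := by exact_mod_cast hy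
  have hZ1 : (1 : ℝ) ≤ Z := by
    have : 1 ≤ Z := by
      rcases Nat.eq_zero_or_pos Z with h | h
      · omega
      · exact h
    exact_mod_cast this
  have hz' : (Z : ℝ) < z := by exact_mod_cast hZz
  have hz2' : (z : ℝ) ≤ 2 * Z := by exact_mod_cast hz2
  have hmx : MAbc.mx ((x : ℤ) ^ p) ((y : ℤ) ^ 3) ((z : ℤ) ^ 2) =
      max ((x : ℝ) ^ p) (max ((y : ℝ) ^ 3) ((z : ℝ) ^ 2)) := by
    unfold MAbc.mx
    push_cast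
    rw [abs_of_nonneg (by positivity), abs_of_nonneg (by positivity), abs_of_nonneg (by positivity)]
  have hlo : (Z : ℝ) ^ 2 ≤ MAbc.mx ((x : ℤ) ^ p) ((y : ℤ) ^ 3) ((z : ℤ) ^ 2) := by
    rw [hmx]
    refine le_trans ?_ (le_max_of_le_right (le_max_right _ _))
    exact pow_le_pow_left₀ (by linarith) hz'.le 2
  have hhi : MAbc.mx ((x : ℤ) ^ p) ((y : ℤ) ^ 3) ((z : ℤ) ^ 2) ≤ K * (Z : ℝ) ^ 2 := by
    rw [hmx]
    have hZ2 : (0 : ℝ) < (Z : ℝ) ^ 2 := by positivity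
    refine max_le ?_ (max_le ?_ ?_)
    · refine hxp.trans ?_
      exact mul_le_mul_of_nonneg_right hK9 hZ2.le
    · have : (y : ℝ) ^ 3 ≤ 1 / (4 * α) * (Z : ℝ) ^ 2 := by
        rw [div_mul_eq_mul_div, one_mul, le_div_iff₀ (by positivity)]
        linarith
      refine this.trans ?_
      apply mul_le_mul_of_nonneg_right _ hZ2.le
      linarith
    · have : (z : ℝ) ^ 2 ≤ (2 * Z) ^ 2 := pow_le_pow_left₀ (by positivity) hz2' 2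
      have h4 : (2 * (Z : ℝ)) ^ 2 = 4 * (Z : ℝ) ^ 2 := by ring
      rw [h4] at this
      refine this.trans ?_
      apply mul_le_mul_of_nonneg_right _ hZ2.le
      linarith
  have hbd : 4 * κ0 * (Z : ℝ) ^ (2 * h) ≤ MAbc.mx ((x : ℤ) ^ p) ((y : ℤ) ^ 3) ((z : ℤ) ^ 2) ^ h := by
    have hZr : (Z : ℝ) ^ (2 * h) = ((Z : ℝ) ^ 2) ^ h := by
      rw [Real.rpow_mul (by linarith)]
      norm_num
    have h4κ : 4 * κ0 = K ^ (-|h|) := by rw [hκ]; ring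
    rw [h4κ, hZr]
    rcases le_or_gt 0 h with hh0 | hh0
    · rw [abs_of_nonneg hh0]
      have h5 : ((Z : ℝ) ^ 2) ^ h ≤ MAbc.mx ((x : ℤ) ^ p) ((y : ℤ) ^ 3) ((z : ℤ) ^ 2) ^ h :=
        Real.rpow_le_rpow (by positivity) hlo hh0
      refine le_trans ?_ h5
      have h6 : K ^ (-h) ≤ 1 := Real.rpow_le_one_of_one_le_of_nonpos (by linarith) (by linarith)
      have h7 : (0 : ℝ) ≤ ((Z : ℝ) ^ 2) ^ h := by positivity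
      nlinarith
    · rw [abs_of_neg hh0, neg_neg, ← Real.mul_rpow hK0.le (by positivity)]
      have hpos : 0 < MAbc.mx ((x : ℤ) ^ p) ((y : ℤ) ^ 3) ((z : ℤ) ^ 2) := lt_of_lt_of_le (by positivity) hlo
      exact Real.rpow_le_rpow_of_nonpos hpos hhi hh0.le
  have e : (((x : ℤ) ^ p : ℤ) : ℝ) + α * (((y : ℤ) ^ 3 : ℤ) : ℝ) - β * (((z : ℤ) ^ 2 : ℤ) : ℝ) =
      -(β * (z : ℝ) ^ 2 - ((x : ℝ) ^ p + α * (y : ℝ) ^ 3)) := by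
    push_cast
    ring
  simp only
  rw [e, abs_neg, abs_of_nonneg h0]
  exact h1.trans hbd

theorem dim_pure_floor {p : ℕ} (hp : 7 ≤ p) {α : ℝ} (hα : 0 < α) :
    ENNReal.ofReal (5 / 6 + 1 / (p : ℝ)) ≤
      dimH {β : ℝ | 0 < β ∧ {T : ℤ × ℤ × ℤ | T ∈ Pure p ∧ T.1 + ⌊α * T.2.1⌋ = ⌊β * T.2.2⌋}.Infinite} := by
  have hp0 : (0 : ℝ) < p := by
    have : 0 < p := by omega
    exact_mod_cast this
  have hh : (0 : ℝ) < 1 / 6 - 1 / (p : ℝ) := by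
    have h7 : (7 : ℝ) ≤ p := by exact_mod_cast hp
    have : 1 / (p : ℝ) ≤ 1 / 7 := one_div_le_one_div_of_le (by norm_num) h7
    linarith
  have hlow := lower (θ := fun y => ((⌊α * ((y : ℝ) ^ 3)⌋ : ℤ) : ℝ)) hp hα (by
    intro y
    have h1 := Int.floor_le (α * (y : ℝ) ^ 3)
    have h2 := Int.lt_floor_add_one (α * (y : ℝ) ^ 3)
    rw [abs_le]
    constructor <;> linarith) (h := 0) (κ0 := 1 / 5) (by norm_num) hh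
  have e0 : (5 / 6 + 1 / (p : ℝ)) / (1 - 0) = 5 / 6 + 1 / (p : ℝ) := by simp
  rw [e0] at hlow
  refine hlow.trans (dimH_mono ?_)
  intro β hβ
  have hβ' : β ∈ LowSet p α (fun y => ((⌊α * ((y : ℝ) ^ 3)⌋ : ℤ) : ℝ)) 0 (1 / 5) := hβ
  refine ⟨by linarith [hβ.1], ?_⟩
  apply infinite_of_low hp hβ'
  intro Z x y z hx hy hz hZz hz2 hxp hy3 h0 h1
  simp only
  rw [mul_zero, Real.rpow_zero] at h1
  symm
  rw [Int.floor_eq_iff]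
  push_cast
  constructor
  · linarith
  · linarith

/-- the radical bound for one signature -/
theorem rad_sig {S : Finset ℕ} {p q r : ℕ} (hp : 0 < p) (hq : 0 < q) (hr : 0 < r) {T : ℤ × ℤ × ℤ}
    (hT : T ∈ MAbc.TermsSig S p q r) :
    (MAbc.rad T.1 : ℝ) * MAbc.rad T.2.1 * MAbc.rad T.2.2 ≤
      (∏ l ∈ S, ((l : ℝ) + 1)) ^ 3 * MAbc.mx T.1 T.2.1 T.2.2 ^ (1 / (p : ℝ) + 1 / (q : ℝ) + 1 / (r : ℝ)) := by
  obtain ⟨a, b, c, x, y, z, ha, hb, hc, hx, hy, hz, hT⟩ := hT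
  have hA : a * x ^ p ≠ 0 := mul_ne_zero ha.1 (pow_ne_zero _ hx)
  have hB : b * y ^ q ≠ 0 := mul_ne_zero hb.1 (pow_ne_zero _ hy)
  have hC : c * z ^ r ≠ 0 := mul_ne_zero hc.1 (pow_ne_zero _ hz)
  subst hT
  simp only
  set H := MAbc.mx (a * x ^ p) (b * y ^ q) (c * z ^ r) with hHdef
  have hH1 : 1 ≤ H := MAbc.one_le_mx hA _ _
  have hH0 : 0 < H := by linarith
  set P : ℝ := ∏ l ∈ S, ((l : ℝ) + 1) with hP
  have hP0 : 0 ≤ P := by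
    rw [hP]
    exact Finset.prod_nonneg (fun l _ => by positivity)
  have hx' : |(x : ℝ)| ≤ H ^ (1 / (p : ℝ)) := MAbc.abs_le_rpow ha.1 hp (le_max_left _ _)
  have hy' : |(y : ℝ)| ≤ H ^ (1 / (q : ℝ)) :=
    MAbc.abs_le_rpow hb.1 hq ((le_max_left _ _).trans (le_max_right _ _))
  have hz' : |(z : ℝ)| ≤ H ^ (1 / (r : ℝ)) :=
    MAbc.abs_le_rpow hc.1 hr ((le_max_right _ _).trans (le_max_right _ _))
  have r1 := MAbc.rad_mul_pow_le ha.1 hx p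
  have r2 := MAbc.rad_mul_pow_le hb.1 hy q
  have r3 := MAbc.rad_mul_pow_le hc.1 hz r
  have ra := MAbc.rad_le_of_unit ha
  have rb := MAbc.rad_le_of_unit hb
  have rc := MAbc.rad_le_of_unit hc
  have n1 : (0 : ℝ) ≤ MAbc.rad a := Nat.cast_nonneg _
  have n2 : (0 : ℝ) ≤ MAbc.rad b := Nat.cast_nonneg _
  have n3 : (0 : ℝ) ≤ MAbc.rad c := Nat.cast_nonneg _
  have m1 : (MAbc.rad (a * x ^ p) : ℝ) ≤ P * H ^ (1 / (p : ℝ)) :=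
    r1.trans (mul_le_mul ra hx' (abs_nonneg _) hP0)
  have m2 : (MAbc.rad (b * y ^ q) : ℝ) ≤ P * H ^ (1 / (q : ℝ)) :=
    r2.trans (mul_le_mul rb hy' (abs_nonneg _) hP0)
  have m3 : (MAbc.rad (c * z ^ r) : ℝ) ≤ P * H ^ (1 / (r : ℝ)) :=
    r3.trans (mul_le_mul rc hz' (abs_nonneg _) hP0)
  calc (MAbc.rad (a * x ^ p) : ℝ) * MAbc.rad (b * y ^ q) * MAbc.rad (c * z ^ r)
      ≤ (P * H ^ (1 / (p : ℝ))) * (P * H ^ (1 / (q : ℝ))) * (P * H ^ (1 / (r : ℝ))) := by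
        gcongr
    _ = P ^ 3 * (H ^ (1 / (p : ℝ)) * H ^ (1 / (q : ℝ)) * H ^ (1 / (r : ℝ))) := by ring
    _ = P ^ 3 * H ^ (1 / (p : ℝ) + 1 / (q : ℝ) + 1 / (r : ℝ)) := by
        rw [← Real.rpow_add hH0, ← Real.rpow_add hH0]

/-- the radical bound for all signatures -/
theorem rad_terms {S : Finset ℕ} {T : ℤ × ℤ × ℤ} (hT : T ∈ MAbc.Terms S) :
    (MAbc.rad T.1 : ℝ) * MAbc.rad T.2.1 * MAbc.rad T.2.2 ≤
      (∏ l ∈ S, ((l : ℝ) + 1)) ^ 3 * MAbc.mx T.1 T.2.1 T.2.2 ^ ((41 : ℝ) / 42) := by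
  obtain ⟨a, b, c, x, y, z, p, q, r, ha, hb, hc, hx, hy, hz, hp, hq, hr, hyp, hT⟩ := hT
  have h := rad_sig hp hq hr (S := S) (T := T) ⟨a, b, c, x, y, z, ha, hb, hc, hx, hy, hz, hT⟩
  refine h.trans ?_
  have hA : T.1 ≠ 0 := by
    rw [hT]
    exact mul_ne_zero ha.1 (pow_ne_zero _ hx)
  have hH1 : 1 ≤ MAbc.mx T.1 T.2.1 T.2.2 := MAbc.one_le_mx hA _ _
  apply mul_le_mul_of_nonneg_left
  · exact Real.rpow_le_rpow_of_exponent_le hH1 (MAbc.hyp_real hp hq hr hyp)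
  · exact pow_nonneg (Finset.prod_nonneg (fun l _ => by positivity)) 3

/-- pure powers are terms -/
theorem pure_sig {p : ℕ} {T : ℤ × ℤ × ℤ} (hT : T ∈ Pure p) : T ∈ MAbc.TermsSig ∅ p 3 2 := by
  obtain ⟨x, y, z, hx, hy, hz, -, rfl⟩ := hT
  have h1 : MAbc.IsSUnit ∅ 1 := by
    refine ⟨one_ne_zero, fun l hl hd => ?_⟩
    exfalso
    have h2 : l ∣ 1 := by exact_mod_cast hd
    exact hl.one_lt.ne' (Nat.dvd_one.mp h2)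
  exact ⟨1, 1, 1, x, y, z, h1, h1, h1, hx.ne', hy.ne', hz.ne', by simp⟩

theorem pure_pos {p : ℕ} {T : ℤ × ℤ × ℤ} (hT : T ∈ Pure p) : Pos T := by
  obtain ⟨x, y, z, hx, hy, hz, -, rfl⟩ := hT
  exact ⟨by positivity, by positivity, by positivity⟩

theorem pure_terms {p : ℕ} (hp : 7 ≤ p) {T : ℤ × ℤ × ℤ} (hT : T ∈ Pure p) : T ∈ MAbc.Terms ∅ := by
  obtain ⟨a, b, c, x, y, z, ha, hb, hc, hx, hy, hz, hT⟩ := pure_sig hT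
  refine ⟨a, b, c, x, y, z, p, 3, 2, ha, hb, hc, hx, hy, hz, by omega, by norm_num, by norm_num, ?_, hT⟩
  have h7 : (7 : ℝ) ≤ p := by exact_mod_cast hp
  have : 1 / (p : ℝ) ≤ 1 / 7 := one_div_le_one_div_of_le (by norm_num) h7
  norm_num
  norm_num at this
  linarith

/-- the upper bound for the union over `S` -/
theorem upper_union {α : ℝ} (hα : 0 < α) {h σ : ℝ} (hσ : 0 ≤ σ) (hh : h < 1) (F : Finset ℕ → Set (ℤ × ℤ × ℤ))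
    (hF : ∀ S, ∀ T ∈ F S, (MAbc.rad T.1 : ℝ) * MAbc.rad T.2.1 * MAbc.rad T.2.2 ≤
      (∏ l ∈ S, ((l : ℝ) + 1)) ^ 3 * MAbc.mx T.1 T.2.1 T.2.2 ^ σ) :
    dimH {β : ℝ | 0 < β ∧ ∃ S : Finset ℕ, {T : ℤ × ℤ × ℤ | T ∈ F S ∧ Pos T ∧
      |T.1 + α * T.2.1 - β * T.2.2| ≤ MAbc.mx T.1 T.2.1 T.2.2 ^ h}.Infinite} ≤ ENNReal.ofReal (σ / (1 - h)) := by
  have hsub : {β : ℝ | 0 < β ∧ ∃ S : Finset ℕ, {T : ℤ × ℤ × ℤ | T ∈ F S ∧ Pos T ∧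
      |T.1 + α * T.2.1 - β * T.2.2| ≤ MAbc.mx T.1 T.2.1 T.2.2 ^ h}.Infinite} ⊆
      ⋃ S : Finset ℕ, {β : ℝ | 0 < β ∧ {T : ℤ × ℤ × ℤ | T ∈ {T | T ∈ F S ∧ Pos T} ∧
        |T.1 + α * T.2.1 - β * T.2.2| ≤ MAbc.mx T.1 T.2.1 T.2.2 ^ h}.Infinite} := by
    rintro β ⟨hβ, S, hS⟩
    refine Set.mem_iUnion.2 ⟨S, hβ, ?_⟩
    refine hS.mono ?_
    rintro T ⟨h1, h2, h3⟩
    exact ⟨⟨h1, h2⟩, h3⟩
  refine (dimH_mono hsub).trans ?_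
  rw [dimH_iUnion]
  apply iSup_le
  intro S
  apply dim_upper hα hσ hh _ ((∏ l ∈ S, ((l : ℝ) + 1)) ^ 3)
  rintro T ⟨h1, h2⟩
  exact ⟨h2.1, h2.2.1, h2.2.2, hF S T h1⟩

/-- one signature, upper bound -/
theorem dim_sig_upper {α : ℝ} (hα : 0 < α) {h : ℝ} (hh : h < 1) {p q r : ℕ} (hp : 0 < p) (hq : 0 < q) (hr : 0 < r) :
    dimH {β : ℝ | 0 < β ∧ ∃ S : Finset ℕ, {T : ℤ × ℤ × ℤ | T ∈ MAbc.TermsSig S p q r ∧ Pos T ∧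
      |T.1 + α * T.2.1 - β * T.2.2| ≤ MAbc.mx T.1 T.2.1 T.2.2 ^ h}.Infinite} ≤
      ENNReal.ofReal ((1 / (p : ℝ) + 1 / (q : ℝ) + 1 / (r : ℝ)) / (1 - h)) :=
  upper_union hα (by positivity) hh _ (fun _ _ hT => rad_sig hp hq hr hT)

/-- all signatures, upper bound -/
theorem dim_terms_upper {α : ℝ} (hα : 0 < α) {h : ℝ} (hh : h < 1) :
    dimH {β : ℝ | 0 < β ∧ ∃ S : Finset ℕ, {T : ℤ × ℤ × ℤ | T ∈ MAbc.Terms S ∧ Pos T ∧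
      |T.1 + α * T.2.1 - β * T.2.2| ≤ MAbc.mx T.1 T.2.1 T.2.2 ^ h}.Infinite} ≤
      ENNReal.ofReal (41 / (42 * (1 - h))) := by
  have e : (41 : ℝ) / (42 * (1 - h)) = (41 / 42) / (1 - h) := by
    rw [div_div]
  rw [e]
  exact upper_union hα (by norm_num) hh _ (fun _ _ hT => rad_terms hT)

theorem le_union_sig {α h : ℝ} {p : ℕ} :
    dimH {β : ℝ | 0 < β ∧ {T : ℤ × ℤ × ℤ | T ∈ Pure p ∧
        |T.1 + α * T.2.1 - β * T.2.2| ≤ MAbc.mx T.1 T.2.1 T.2.2 ^ h}.Infinite} ≤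
      dimH {β : ℝ | 0 < β ∧ ∃ S : Finset ℕ, {T : ℤ × ℤ × ℤ | T ∈ MAbc.TermsSig S p 3 2 ∧ Pos T ∧
      |T.1 + α * T.2.1 - β * T.2.2| ≤ MAbc.mx T.1 T.2.1 T.2.2 ^ h}.Infinite} := by
  apply dimH_mono
  rintro β ⟨hβ, hI⟩
  refine ⟨hβ, ∅, hI.mono ?_⟩
  rintro T ⟨h1, h2⟩
  exact ⟨pure_sig h1, pure_pos h1, h2⟩

theorem le_union_terms {α h : ℝ} {p : ℕ} (hp : 7 ≤ p) :
    dimH {β : ℝ | 0 < β ∧ {T : ℤ × ℤ × ℤ | T ∈ Pure p ∧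
        |T.1 + α * T.2.1 - β * T.2.2| ≤ MAbc.mx T.1 T.2.1 T.2.2 ^ h}.Infinite} ≤
      dimH {β : ℝ | 0 < β ∧ ∃ S : Finset ℕ, {T : ℤ × ℤ × ℤ | T ∈ MAbc.Terms S ∧ Pos T ∧
      |T.1 + α * T.2.1 - β * T.2.2| ≤ MAbc.mx T.1 T.2.1 T.2.2 ^ h}.Infinite} := by
  apply dimH_mono
  rintro β ⟨hβ, hI⟩
  refine ⟨hβ, ∅, hI.mono ?_⟩
  rintro T ⟨h1, h2⟩
  exact ⟨pure_terms hp h1, pure_pos h1, h2⟩

theorem dim_near_terms {α : ℝ} (hα : 0 < α) {h : ℝ} (hh : h < 1 / 42) :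
    dimH {β : ℝ | 0 < β ∧ ∃ S : Finset ℕ, {T : ℤ × ℤ × ℤ | T ∈ MAbc.Terms S ∧ Pos T ∧
      |T.1 + α * T.2.1 - β * T.2.2| ≤ MAbc.mx T.1 T.2.1 T.2.2 ^ h}.Infinite} =
      ENNReal.ofReal (41 / (42 * (1 - h))) ∧
    dimH {β : ℝ | 0 < β ∧ {T : ℤ × ℤ × ℤ | T ∈ Pure 7 ∧
        |T.1 + α * T.2.1 - β * T.2.2| ≤ MAbc.mx T.1 T.2.1 T.2.2 ^ h}.Infinite} =
      ENNReal.ofReal (41 / (42 * (1 - h))) := by
  have h1 := dim_pure_near (p := 7) (by norm_num) hα (h := h) (by norm_num; linarith)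
  have e : (5 / 6 + 1 / ((7 : ℕ) : ℝ)) / (1 - h) = 41 / (42 * (1 - h)) := by
    rw [← div_div]
    norm_num
  rw [e] at h1
  have h2 := le_union_terms (α := α) (h := h) (p := 7) (by norm_num)
  have h3 := dim_terms_upper hα (h := h) (by linarith)
  exact ⟨le_antisymm h3 (h1.trans h2), le_antisymm (h2.trans h3) h1⟩

theorem dim_near_sig {α : ℝ} (hα : 0 < α) {p : ℕ} (hp : 7 ≤ p) {h : ℝ} (hh : h < 1 / 6 - 1 / (p : ℝ)) :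
    dimH {β : ℝ | 0 < β ∧ ∃ S : Finset ℕ, {T : ℤ × ℤ × ℤ | T ∈ MAbc.TermsSig S p 3 2 ∧ Pos T ∧
      |T.1 + α * T.2.1 - β * T.2.2| ≤ MAbc.mx T.1 T.2.1 T.2.2 ^ h}.Infinite} =
      ENNReal.ofReal ((5 / 6 + 1 / (p : ℝ)) / (1 - h)) ∧
    dimH {β : ℝ | 0 < β ∧ {T : ℤ × ℤ × ℤ | T ∈ Pure p ∧
        |T.1 + α * T.2.1 - β * T.2.2| ≤ MAbc.mx T.1 T.2.1 T.2.2 ^ h}.Infinite} =
      ENNReal.ofReal ((5 / 6 + 1 / (p : ℝ)) / (1 - h)) := by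
  have hp0 : (0 : ℝ) < 1 / (p : ℝ) := by
    have : (0 : ℝ) < p := by
      have : 0 < p := by omega
      exact_mod_cast this
    positivity
  have h1 := dim_pure_near hp hα hh
  have h2 := le_union_sig (α := α) (h := h) (p := p)
  have h3 := dim_sig_upper hα (h := h) (by linarith) (p := p) (q := 3) (r := 2) (by omega) (by norm_num) (by norm_num)
  have e : (1 / (p : ℝ) + 1 / ((3 : ℕ) : ℝ) + 1 / ((2 : ℕ) : ℝ)) / (1 - h) = (5 / 6 + 1 / (p : ℝ)) / (1 - h) := by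
    congr 1
    push_cast
    ring
  rw [e] at h3
  exact ⟨le_antisymm h3 (h1.trans h2), le_antisymm (h2.trans h3) h1⟩

/-- a solution of the equation with floors is a near solution with `h = 0` -/
theorem floor_near {α β : ℝ} {T : ℤ × ℤ × ℤ} (hT : T.1 + ⌊α * T.2.1⌋ = ⌊β * T.2.2⌋) :
    |T.1 + α * T.2.1 - β * T.2.2| ≤ MAbc.mx T.1 T.2.1 T.2.2 ^ (0 : ℝ) := by
  rw [Real.rpow_zero]
  have h1 := Int.floor_le (α * T.2.1)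
  have h2 := Int.lt_floor_add_one (α * T.2.1)
  have h3 := Int.floor_le (β * T.2.2)
  have h4 := Int.lt_floor_add_one (β * T.2.2)
  have h5 : (T.1 : ℝ) + (⌊α * T.2.1⌋ : ℤ) = (⌊β * T.2.2⌋ : ℤ) := by exact_mod_cast hT
  rw [abs_le]
  constructor <;> linarith

theorem dim_floor_terms {α : ℝ} (hα : 0 < α) :
    dimH {β : ℝ | 0 < β ∧ ∃ S : Finset ℕ, {T : ℤ × ℤ × ℤ | T ∈ MAbc.Terms S ∧ Pos T ∧
      T.1 + ⌊α * T.2.1⌋ = ⌊β * T.2.2⌋}.Infinite} = ENNReal.ofReal (41 / 42) ∧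
    dimH {β : ℝ | 0 < β ∧ {T : ℤ × ℤ × ℤ | T ∈ Pure 7 ∧
      T.1 + ⌊α * T.2.1⌋ = ⌊β * T.2.2⌋}.Infinite} = ENNReal.ofReal (41 / 42) := by
  have h1 := dim_pure_floor (p := 7) (by norm_num) hα
  have e : (5 / 6 + 1 / ((7 : ℕ) : ℝ)) = 41 / 42 := by norm_num
  rw [e] at h1
  have h2 : dimH {β : ℝ | 0 < β ∧ {T : ℤ × ℤ × ℤ | T ∈ Pure 7 ∧
      T.1 + ⌊α * T.2.1⌋ = ⌊β * T.2.2⌋}.Infinite} ≤
      dimH {β : ℝ | 0 < β ∧ ∃ S : Finset ℕ, {T : ℤ × ℤ × ℤ | T ∈ MAbc.Terms S ∧ Pos T ∧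
      T.1 + ⌊α * T.2.1⌋ = ⌊β * T.2.2⌋}.Infinite} := by
    apply dimH_mono
    rintro β ⟨hβ, hI⟩
    refine ⟨hβ, ∅, hI.mono ?_⟩
    rintro T ⟨h1, h2⟩
    exact ⟨pure_terms le_rfl h1, pure_pos h1, h2⟩
  have h3 : dimH {β : ℝ | 0 < β ∧ ∃ S : Finset ℕ, {T : ℤ × ℤ × ℤ | T ∈ MAbc.Terms S ∧ Pos T ∧
      T.1 + ⌊α * T.2.1⌋ = ⌊β * T.2.2⌋}.Infinite} ≤ ENNReal.ofReal (41 / 42) := by
    have h4 := dim_terms_upper hα (h := 0) (by norm_num)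
    have e2 : (41 : ℝ) / (42 * (1 - 0)) = 41 / 42 := by norm_num
    rw [e2] at h4
    refine (dimH_mono ?_).trans h4
    rintro β ⟨hβ, S, hI⟩
    refine ⟨hβ, S, hI.mono ?_⟩
    rintro T ⟨h1, h2, h3⟩
    exact ⟨h1, h2, floor_near h3⟩
  exact ⟨le_antisymm h3 (h1.trans h2), le_antisymm (h2.trans h3) h1⟩

/-- the two-dimensional exceptional set of `MAbc.dim_terms` -/
theorem dim_plane {η : ℝ} (hη0 : 0 ≤ η) (hη : η < 1 / 42) :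
    dimH {v : ℝ × ℝ | ∃ S : Finset ℕ, {T : ℤ × ℤ × ℤ | T ∈ MAbc.Terms S ∧
      |T.1 + v.1 * T.2.1 - v.2 * T.2.2| ≤ MAbc.mx T.1 T.2.1 T.2.2 ^ η}.Infinite} =
    ENNReal.ofReal (1 + 41 / (42 * (1 - η))) := by
  apply le_antisymm (MAbc.dim_terms hη0 hη)
  apply dim_slice
  · have : 0 < 1 - η := by linarith
    positivity
  · intro x hx1 hx2
    rw [← (dim_near_terms (α := x) (by linarith) hη).1]
    apply dimH_mono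
    rintro β ⟨hβ, S, hI⟩
    refine ⟨S, hI.mono ?_⟩
    rintro T ⟨h1, h2, h3⟩
    exact ⟨h1, h3⟩

end EMu
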