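import Pool.Agent.EMu.StepDefs

/-!
# EMu.Good: removing the crowded centres

`Ω k` are finite families with centres `c`, equidistributed (`g1`, `g2`) and with few close pairs (`g3`). Let `s' < s` and let
`Γ k` be the set of the `i ∈ Ω k` such that for all natural numbers `m` with `r k ≤ 2^(-m) ≤ ρ k`
`#{j ∈ Ω k | |c i - c j| ≤ 2^(-m)} ≤ (2^(-m))^s' #Ω k`. By Markov and `g3` with `ε = δ (s - s') / 2` the number of the
`i ∈ Ω k` outside `Γ k` is at most
`∑ m, pairs (2^(-m)) / ((2^(-m))^s' #Ω) ≤ #Ω k^ε ∑ (2^(-m))^(s - s')` over `m` with `2^(-m) ≤ ρ k ≤ k^(-δ)`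
`≤ C' #Ω k^(ε - δ (s - s')) = o(#Ω)` (geometric series; the `m` with `r k ≤ 2^(-m)` are finitely many).
So `#Γ ≥ #Ω / 2` for large `k`, and `g2` stays true with `κ / 2`. With the new threshold `ρ k / 2`:
* `h1`: enlarge `[u, v]` to `[u, u + 2 (v - u)]`: at most `C 2 (v - u) #Ω ≤ 4 C (v - u) #Γ`;
* `h3`: for `r k ≤ v - u ≤ ρ k / 2` choose `m` with `v - u ≤ 2^(-m) ≤ 2 (v - u)`; if some `i ∈ Γ k` has `u ≤ c i ≤ v` then
  all the others are within `2^(-m)`, so their number is at most `(2 (v - u))^s' #Ω ≤ 4 (v - u)^s' #Γ`.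
-/

set_option autoImplicit false

namespace EMu

open Finset Filter Topology

open Classical in
private theorem good_pairs {ι : Type} (A : Finset ι) (c : ι → ℝ) (t : ℝ) :
    pairs A c t = ∑ i ∈ A, (A.filter (fun j => |c i - c j| ≤ t)).card := by
  unfold pairs
  rw [card_filter, sum_product]
  apply sum_congr rfl
  intro i _
  rw [card_filter]

open Classical in
private theorem good_markov {ι : Type} (A : Finset ι) (hA : A.Nonempty) (c : ι → ℝ) {t s s' K : ℝ} (ht : 0 < t)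
    (h : (pairs A c t : ℝ) ≤ (A.card : ℝ) ^ 2 * t ^ s * K) :
    ((A.filter (fun i => t ^ s' * (A.card : ℝ) < ((A.filter (fun j => |c i - c j| ≤ t)).card : ℝ))).card : ℝ) ≤
      (A.card : ℝ) * (t ^ (s - s') * K) := by
  have hc : (0 : ℝ) < (A.card : ℝ) := by
    exact_mod_cast hA.card_pos
  have hts : (0 : ℝ) < t ^ s' := Real.rpow_pos_of_pos ht _
  obtain ⟨B, hB⟩ : ∃ B, B = A.filter (fun i => t ^ s' * (A.card : ℝ) <
    ((A.filter (fun j => |c i - c j| ≤ t)).card : ℝ)) := ⟨_, rfl⟩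
  rw [← hB]
  have h1 : (B.card : ℝ) * (t ^ s' * A.card) ≤ (pairs A c t : ℝ) := by
    rw [good_pairs]
    push_cast
    calc (B.card : ℝ) * (t ^ s' * A.card) = ∑ i ∈ B, (t ^ s' * (A.card : ℝ)) := by
          rw [sum_const, nsmul_eq_mul]
      _ ≤ ∑ i ∈ B, ((A.filter (fun j => |c i - c j| ≤ t)).card : ℝ) := by
          apply sum_le_sum
          intro i hi
          rw [hB, mem_filter] at hi
          exact hi.2.le
      _ ≤ _ := by
          apply sum_le_sum_of_subset_of_nonneg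
          · rw [hB]
            exact filter_subset _ _
          · intro i _ _
            positivity
  have h2 : t ^ s = t ^ (s - s') * t ^ s' := by
    rw [← Real.rpow_add ht]
    congr 1
    ring
  rw [h2] at h
  have h3 : (B.card : ℝ) * (t ^ s' * A.card) ≤ ((A.card : ℝ) * (t ^ (s - s') * K)) * (t ^ s' * A.card) := by
    calc _ ≤ _ := h1
      _ ≤ _ := h
      _ = _ := by ring
  exact le_of_mul_le_mul_right h3 (mul_pos hts hc)

private theorem good_pow (m : ℕ) (a : ℝ) : ((1 / 2 : ℝ) ^ m) ^ a = ((1 / 2 : ℝ) ^ a) ^ m := by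
  rw [← Real.rpow_natCast, ← Real.rpow_natCast, ← Real.rpow_mul (by norm_num), ← Real.rpow_mul (by norm_num),
    mul_comm]

private theorem good_geom {a ρ : ℝ} (ha : 0 < a) (hρ : 0 < ρ) (N : ℕ) (F : Finset ℕ)
    (hF : ∀ m ∈ F, m < N ∧ (1 / 2 : ℝ) ^ m ≤ ρ) :
    ∑ m ∈ F, ((1 / 2 : ℝ) ^ m) ^ a ≤ ρ ^ a / (1 - (1 / 2 : ℝ) ^ a) := by
  have hx0 : (0 : ℝ) < (1 / 2 : ℝ) ^ a := Real.rpow_pos_of_pos (by norm_num) _
  have hx1 : (1 / 2 : ℝ) ^ a < 1 := Real.rpow_lt_one (by norm_num) (by norm_num) ha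
  have hex : ∃ m : ℕ, (1 / 2 : ℝ) ^ m ≤ ρ := by
    obtain ⟨n, hn⟩ := exists_pow_lt_of_lt_one hρ (by norm_num : (1 / 2 : ℝ) < 1)
    exact ⟨n, hn.le⟩
  classical
  have hm0 := Nat.find_spec hex
  have hsub : F ⊆ Ico (Nat.find hex) N := by
    intro m hm
    rw [mem_Ico]
    exact ⟨Nat.find_min' hex (hF m hm).2, (hF m hm).1⟩
  calc ∑ m ∈ F, ((1 / 2 : ℝ) ^ m) ^ a = ∑ m ∈ F, ((1 / 2 : ℝ) ^ a) ^ m := by
        apply sum_congr rfl
        intro m _
        exact good_pow m a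
    _ ≤ ∑ m ∈ Ico (Nat.find hex) N, ((1 / 2 : ℝ) ^ a) ^ m :=
        sum_le_sum_of_subset_of_nonneg hsub (fun m _ _ => (pow_pos hx0 m).le)
    _ ≤ ((1 / 2 : ℝ) ^ a) ^ (Nat.find hex) / (1 - (1 / 2 : ℝ) ^ a) := geom_sum_Ico_le_of_lt_one hx0.le hx1
    _ ≤ ρ ^ a / (1 - (1 / 2 : ℝ) ^ a) := by
        apply div_le_div_of_nonneg_right _ (by linarith)
        rw [← good_pow]
        exact Real.rpow_le_rpow (by positivity) hm0 ha.le

open Classical in
private noncomputable def goodSet {ι : Type} (A : Finset ι) (c : ι → ℝ) (r ρ s' : ℝ) : Finset ι :=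
  A.filter (fun i => ∀ m : ℕ, r ≤ (1 / 2 : ℝ) ^ m → (1 / 2 : ℝ) ^ m ≤ ρ →
    ((A.filter (fun j => |c i - c j| ≤ (1 / 2 : ℝ) ^ m)).card : ℝ) ≤ ((1 / 2 : ℝ) ^ m) ^ s' * (A.card : ℝ))

open Classical in
private theorem good_bad {ι : Type} (A : Finset ι) (hA : A.Nonempty) (c : ι → ℝ) {r ρ s s' K : ℝ} (hr : 0 < r)
    (hρ : 0 < ρ) (hs : s' < s) (hK : 0 ≤ K)
    (h : ∀ t : ℝ, r ≤ t → t ≤ ρ → (pairs A c t : ℝ) ≤ (A.card : ℝ) ^ 2 * t ^ s * K) :
    ((A \ goodSet A c r ρ s').card : ℝ) ≤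
      (A.card : ℝ) * (K * (ρ ^ (s - s') / (1 - (1 / 2 : ℝ) ^ (s - s')))) := by
  obtain ⟨N, hN⟩ := exists_pow_lt_of_lt_one hr (by norm_num : (1 / 2 : ℝ) < 1)
  obtain ⟨F, hFd⟩ : ∃ F : Finset ℕ, F = (range N).filter (fun m => r ≤ (1 / 2 : ℝ) ^ m ∧ (1 / 2 : ℝ) ^ m ≤ ρ) :=
    ⟨_, rfl⟩
  have hlt : ∀ m : ℕ, r ≤ (1 / 2 : ℝ) ^ m → m < N := by
    intro m hm
    by_contra hcon
    have h1 : (1 / 2 : ℝ) ^ m ≤ (1 / 2 : ℝ) ^ N :=
      pow_le_pow_of_le_one (by norm_num) (by norm_num) (by omega)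
    linarith
  have hsub : A \ goodSet A c r ρ s' ⊆ F.biUnion (fun m => A.filter (fun i => ((1 / 2 : ℝ) ^ m) ^ s' *
      (A.card : ℝ) < ((A.filter (fun j => |c i - c j| ≤ (1 / 2 : ℝ) ^ m)).card : ℝ))) := by
    intro i hi
    rw [Finset.mem_sdiff, goodSet, mem_filter] at hi
    obtain ⟨hiA, hn⟩ := hi
    have hn' : ¬ ∀ m : ℕ, r ≤ (1 / 2 : ℝ) ^ m → (1 / 2 : ℝ) ^ m ≤ ρ →
      ((A.filter (fun j => |c i - c j| ≤ (1 / 2 : ℝ) ^ m)).card : ℝ) ≤ ((1 / 2 : ℝ) ^ m) ^ s' * (A.card : ℝ) :=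
      fun hcon => hn ⟨hiA, hcon⟩
    push Not at hn'
    obtain ⟨m, hm1, hm2, hm3⟩ := hn'
    rw [mem_biUnion]
    refine ⟨m, ?_, ?_⟩
    · rw [hFd, mem_filter, mem_range]
      exact ⟨hlt m hm1, hm1, hm2⟩
    · rw [mem_filter]
      exact ⟨hiA, hm3⟩
  calc ((A \ goodSet A c r ρ s').card : ℝ) ≤ ((F.biUnion (fun m => A.filter (fun i => ((1 / 2 : ℝ) ^ m) ^ s' *
      (A.card : ℝ) < ((A.filter (fun j => |c i - c j| ≤ (1 / 2 : ℝ) ^ m)).card : ℝ)))).card : ℝ) := by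
        exact_mod_cast card_le_card hsub
    _ ≤ ∑ m ∈ F, ((A.filter (fun i => ((1 / 2 : ℝ) ^ m) ^ s' *
      (A.card : ℝ) < ((A.filter (fun j => |c i - c j| ≤ (1 / 2 : ℝ) ^ m)).card : ℝ))).card : ℝ) := by
        exact_mod_cast card_biUnion_le
    _ ≤ ∑ m ∈ F, (A.card : ℝ) * (((1 / 2 : ℝ) ^ m) ^ (s - s') * K) := by
        apply sum_le_sum
        intro m hm
        rw [hFd, mem_filter] at hm
        exact good_markov A hA c (by positivity) (h _ hm.2.1 hm.2.2)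
    _ = (A.card : ℝ) * (K * ∑ m ∈ F, ((1 / 2 : ℝ) ^ m) ^ (s - s')) := by
        rw [← mul_sum, ← sum_mul]
        ring
    _ ≤ _ := by
        apply mul_le_mul_of_nonneg_left _ (Nat.cast_nonneg _)
        apply mul_le_mul_of_nonneg_left _ hK
        apply good_geom (by linarith) hρ N
        intro m hm
        rw [hFd, mem_filter, mem_range] at hm
        exact ⟨hm.1, hm.2.2⟩

theorem fam_of_pairs {ι : Type} (Ω : ℕ → Finset ι) (c : ι → ℝ) (r ρ : ℕ → ℝ) {C κ s δ s' : ℝ} (hC : 1 ≤ C)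
    (hκ : 0 < κ) (hδ : 0 < δ) (hs' : 0 < s') (hs's : s' < s) (hs : s ≤ 1) (hr : ∀ k, 0 < r k)
    (hr0 : Tendsto r atTop (𝓝 0)) (hρ : ∀ᶠ k in atTop, 0 < ρ k ∧ ρ k ≤ (k : ℝ) ^ (-δ))
    (hρ0 : Tendsto ρ atTop (𝓝 0)) (hne : ∀ᶠ k in atTop, (Ω k).Nonempty)
    (g1 : ∀ᶠ k in atTop, ∀ u v : ℝ, ρ k ≤ v - u →
      (((Ω k).filter (fun i => u ≤ c i ∧ c i ≤ v)).card : ℝ) ≤ C * (v - u) * (Ω k).card)
    (g2 : ∀ u v : ℝ, 1 ≤ u → u < v → v ≤ 2 → ∀ᶠ k in atTop,
      κ * (v - u) * (Ω k).card ≤ (((Ω k).filter (fun i => u ≤ c i ∧ c i ≤ v)).card : ℝ))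
    (g3 : ∀ ε : ℝ, 0 < ε → ∀ᶠ k in atTop, ∀ t : ℝ, r k ≤ t → t ≤ ρ k →
      (pairs (Ω k) c t : ℝ) ≤ ((Ω k).card : ℝ) ^ 2 * t ^ s * (k : ℝ) ^ ε) :
    ∃ Γ : ℕ → Finset ι, (∀ k, Γ k ⊆ Ω k) ∧ Fam Γ c r (fun k => ρ k / 2) (4 * C) (κ / 2) s' := by
  classical
  have ha : 0 < s - s' := by linarith
  have hx1 : (1 / 2 : ℝ) ^ (s - s') < 1 := Real.rpow_lt_one (by norm_num) (by norm_num) ha
  -- the number of bad centres
  have hbad : ∀ η : ℝ, 0 < η → ∀ᶠ k in atTop,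
      ((Ω k \ goodSet (Ω k) c (r k) (ρ k) s').card : ℝ) ≤ η * (Ω k).card := by
    intro η hη
    have hlim : Tendsto (fun k : ℕ => (k : ℝ) ^ (-(δ * (s - s') / 2))) atTop (𝓝 0) :=
      (tendsto_rpow_neg_atTop (by positivity)).comp tendsto_natCast_atTop_atTop
    have hev := hlim.eventually (gt_mem_nhds (show (0 : ℝ) < η * (1 - (1 / 2 : ℝ) ^ (s - s')) from
      mul_pos hη (by linarith)))
    filter_upwards [hev, hρ, hne, g3 (δ * (s - s') / 2) (by positivity), eventually_ge_atTop 1]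
      with k hk1 hk2 hk3 hk4 hk5
    have hk0 : (0 : ℝ) < (k : ℝ) := by exact_mod_cast hk5
    have hb := good_bad (Ω k) hk3 c (hr k) hk2.1 hs's (Real.rpow_nonneg hk0.le _) hk4
    refine hb.trans ?_
    rw [mul_comm η]
    apply mul_le_mul_of_nonneg_left _ (Nat.cast_nonneg _)
    rw [← mul_div_assoc, div_le_iff₀ (by linarith)]
    calc (k : ℝ) ^ (δ * (s - s') / 2) * ρ k ^ (s - s') ≤
        (k : ℝ) ^ (δ * (s - s') / 2) * ((k : ℝ) ^ (-δ)) ^ (s - s') := by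
          apply mul_le_mul_of_nonneg_left _ (Real.rpow_nonneg hk0.le _)
          exact Real.rpow_le_rpow hk2.1.le hk2.2 ha.le
      _ = (k : ℝ) ^ (-(δ * (s - s') / 2)) := by
          rw [← Real.rpow_mul hk0.le, ← Real.rpow_add hk0]
          congr 1
          ring
      _ ≤ _ := hk1.le
  have hsubG : ∀ k, goodSet (Ω k) c (r k) (ρ k) s' ⊆ Ω k := fun k => filter_subset _ _
  have hcard : ∀ k, ((Ω k \ goodSet (Ω k) c (r k) (ρ k) s').card : ℝ) =
      (Ω k).card - (goodSet (Ω k) c (r k) (ρ k) s').card := by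
    intro k
    rw [cast_card_sdiff (hsubG k)]
  have hhalf : ∀ᶠ k in atTop, ((Ω k).card : ℝ) ≤ 2 * (goodSet (Ω k) c (r k) (ρ k) s').card := by
    filter_upwards [hbad (1 / 2) (by norm_num)] with k hk
    rw [hcard k] at hk
    linarith
  refine ⟨fun k => goodSet (Ω k) c (r k) (ρ k) s', hsubG, ⟨hr, hr0, ?_, ?_, ?_, ?_, ?_⟩⟩
  · simpa using hρ0.div_const 2
  · filter_upwards [hhalf, hne] with k hk1 hk2
    have h1 : (0 : ℝ) < ((Ω k).card : ℝ) := by exact_mod_cast hk2.card_pos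
    have h2 : (0 : ℝ) < ((goodSet (Ω k) c (r k) (ρ k) s').card : ℝ) := by linarith
    exact card_pos.mp (by exact_mod_cast h2)
  · filter_upwards [hhalf, hρ, g1] with k hk1 hk2 hk3 u v huv
    have huv0 : 0 < v - u := by
      have := hk2.1
      linarith
    have h1 := hk3 u (u + 2 * (v - u)) (by linarith)
    have h2 : (((goodSet (Ω k) c (r k) (ρ k) s').filter (fun i => u ≤ c i ∧ c i ≤ v)).card : ℝ) ≤
        (((Ω k).filter (fun i => u ≤ c i ∧ c i ≤ u + 2 * (v - u))).card : ℝ) := by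
      have : ((goodSet (Ω k) c (r k) (ρ k) s').filter (fun i => u ≤ c i ∧ c i ≤ v)).card ≤
        ((Ω k).filter (fun i => u ≤ c i ∧ c i ≤ u + 2 * (v - u))).card := by
        apply card_le_card
        intro i hi
        rw [mem_filter] at hi ⊢
        exact ⟨hsubG k hi.1, hi.2.1, by linarith [hi.2.2]⟩
      exact_mod_cast this
    calc _ ≤ _ := h2
      _ ≤ _ := h1
      _ = (C * 2 * (v - u)) * (Ω k).card := by ring
      _ ≤ (C * 2 * (v - u)) * (2 * (goodSet (Ω k) c (r k) (ρ k) s').card) :=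
          mul_le_mul_of_nonneg_left hk1 (by positivity)
      _ = _ := by ring
  · intro u v hu huv hv
    have hκuv : 0 < κ * (v - u) / 2 := by
      have : 0 < v - u := by linarith
      positivity
    filter_upwards [hbad _ hκuv, g2 u v hu huv hv] with k hk1 hk2
    have h1 : (((Ω k).filter (fun i => u ≤ c i ∧ c i ≤ v)).card : ℝ) ≤
        (((goodSet (Ω k) c (r k) (ρ k) s').filter (fun i => u ≤ c i ∧ c i ≤ v)).card : ℝ) +
        ((Ω k \ goodSet (Ω k) c (r k) (ρ k) s').card : ℝ) := by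
      have : ((Ω k).filter (fun i => u ≤ c i ∧ c i ≤ v)).card ≤
        ((goodSet (Ω k) c (r k) (ρ k) s').filter (fun i => u ≤ c i ∧ c i ≤ v)).card +
        (Ω k \ goodSet (Ω k) c (r k) (ρ k) s').card := by
        rw [← Nat.add_zero ((Ω k).filter _).card]
        refine le_trans ?_ (card_union_le _ _)
        apply card_le_card
        intro i hi
        rw [mem_filter] at hi
        rw [mem_union, mem_filter, Finset.mem_sdiff]
        by_cases hg : i ∈ goodSet (Ω k) c (r k) (ρ k) s'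
        · exact Or.inl ⟨hg, hi.2⟩
        · exact Or.inr ⟨hi.1, hg⟩
      exact_mod_cast this
    have h2 : ((goodSet (Ω k) c (r k) (ρ k) s').card : ℝ) ≤ ((Ω k).card : ℝ) := by
      exact_mod_cast card_le_card (hsubG k)
    have h3 : κ / 2 * (v - u) * ((goodSet (Ω k) c (r k) (ρ k) s').card : ℝ) ≤
        κ / 2 * (v - u) * ((Ω k).card : ℝ) := by
      apply mul_le_mul_of_nonneg_left h2
      have : 0 < v - u := by linarith
      positivity
    have h4 : κ * (v - u) / 2 * ((Ω k).card : ℝ) = κ / 2 * (v - u) * ((Ω k).card : ℝ) := by ring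
    have h5 : κ * (v - u) * ((Ω k).card : ℝ) = 2 * (κ / 2 * (v - u) * ((Ω k).card : ℝ)) := by ring
    linarith
  · filter_upwards [hhalf, hρ, eventually_ge_atTop 1] with k hk1 hk2 hk5 u v huv1 huv2
    have hk0 : (1 : ℝ) ≤ (k : ℝ) := by exact_mod_cast hk5
    have huv0 : 0 < v - u := lt_of_lt_of_le (hr k) huv1
    have hρ1 : ρ k ≤ 1 := hk2.2.trans (Real.rpow_le_one_of_one_le_of_nonpos hk0 (by linarith))
    have hR : 0 ≤ (v - u) ^ s' := Real.rpow_nonneg huv0.le _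
    rcases ((goodSet (Ω k) c (r k) (ρ k) s').filter (fun i => u ≤ c i ∧ c i ≤ v)).eq_empty_or_nonempty
      with hem | ⟨i, hi⟩
    · rw [hem]
      simp only [card_empty, Nat.cast_zero]
      positivity
    · rw [mem_filter] at hi
      obtain ⟨m, hm1, hm2⟩ := exists_nat_pow_near_of_lt_one huv0 (by linarith)
        (by norm_num : (0 : ℝ) < 1 / 2) (by norm_num : (1 / 2 : ℝ) < 1)
      have hm3 : (1 / 2 : ℝ) ^ m ≤ 2 * (v - u) := by
        rw [pow_succ] at hm1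
        linarith
      have hgi := hi.1
      rw [goodSet, mem_filter] at hgi
      have h1 := hgi.2 m (huv1.trans hm2) (by linarith)
      have h2 : (((goodSet (Ω k) c (r k) (ρ k) s').filter (fun i => u ≤ c i ∧ c i ≤ v)).card : ℝ) ≤
          (((Ω k).filter (fun j => |c i - c j| ≤ (1 / 2 : ℝ) ^ m)).card : ℝ) := by
        have : ((goodSet (Ω k) c (r k) (ρ k) s').filter (fun i => u ≤ c i ∧ c i ≤ v)).card ≤
          ((Ω k).filter (fun j => |c i - c j| ≤ (1 / 2 : ℝ) ^ m)).card := by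
          apply card_le_card
          intro j hj
          rw [mem_filter] at hj ⊢
          refine ⟨hsubG k hj.1, le_trans ?_ hm2⟩
          rw [abs_le]
          constructor <;> linarith [hj.2.1, hj.2.2, hi.2.1, hi.2.2]
        exact_mod_cast this
      have h3 : ((1 / 2 : ℝ) ^ m) ^ s' ≤ 2 * (v - u) ^ s' := by
        calc ((1 / 2 : ℝ) ^ m) ^ s' ≤ (2 * (v - u)) ^ s' := Real.rpow_le_rpow (by positivity) hm3 hs'.le
          _ = 2 ^ s' * (v - u) ^ s' := Real.mul_rpow (by norm_num) huv0.le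
          _ ≤ 2 ^ (1 : ℝ) * (v - u) ^ s' := by
              apply mul_le_mul_of_nonneg_right _ hR
              exact Real.rpow_le_rpow_of_exponent_le (by norm_num) (by linarith)
          _ = 2 * (v - u) ^ s' := by rw [Real.rpow_one]
      have h4 : (((Ω k).filter (fun j => |c i - c j| ≤ (1 / 2 : ℝ) ^ m)).card : ℝ) ≤
          ((1 / 2 : ℝ) ^ m) ^ s' * (Ω k).card := by
        convert h1 using 3
      calc _ ≤ _ := h2
        _ ≤ ((1 / 2 : ℝ) ^ m) ^ s' * (Ω k).card := h4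
        _ ≤ (2 * (v - u) ^ s') * (Ω k).card := mul_le_mul_of_nonneg_right h3 (Nat.cast_nonneg _)
        _ ≤ (2 * (v - u) ^ s') * (2 * (goodSet (Ω k) c (r k) (ρ k) s').card) :=
            mul_le_mul_of_nonneg_left hk1 (by positivity)
        _ = 1 * (4 * (v - u) ^ s' * (goodSet (Ω k) c (r k) (ρ k) s').card) := by ring
        _ ≤ C * (4 * (v - u) ^ s' * (goodSet (Ω k) c (r k) (ρ k) s').card) :=
            mul_le_mul_of_nonneg_right hC (by positivity)
        _ = _ := by ring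

end EMu
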