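import Pool.Agent.EMu.Asym
import Pool.Agent.EMu.Good
import Pool.Agent.EMu.Cantor

/-!
# EMu.Lower: the lower bound for the dimension

For `W ≥ 2` put `Z = W^(3p)`, `Y = ⌊(Z^2/(32 α))^(1/3)⌋`; `Par p α θ W Y Z` holds for large `W` (`(2Y)^3 ≥ (Y+1)^3 > Z^2/(32 α)`).
Apply `fam_of_pairs` to `Ω W = Om p θ Y Z`, `c = cen p θ`, `r W = κ0 Z^(2h-2)` (put `r W = 1` for `W = 0`; it tends to `0`),
`ρ W = W^(-6) / 2`, `δ = 6`, `s = (5/6+1/p)/(1-h) < 1`, `κ = 1/(1000 p)`, `C` about `10^5 p`: `g1` and `g2` follow from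
`macro_upper`, `macro_lower` (`n ≥ #yz W^6/(200p)`, `n ≤ 3 #yz W^6`), `g3` is `pairs_asym`. For every `s' < s` the family `Γ`
and `cantor` give dimension `≥ s'` for the set of the `β ∈ [1,2]` with `c i ≤ β ≤ c i + r W`, `i ∈ Γ W`, for infinitely many `W`;
with `i = (x, y, z)`: `0 ≤ β z^2 - (x^p + θ y) ≤ r W z^2 ≤ 4 κ0 Z^(2h)`, `y ≤ 2 Y` gives `4 α y^3 ≤ Z^2`, and
`x^p ≤ 2 z^2 - θ y ≤ 8 Z^2 + 1`.
-/

set_option autoImplicit false

namespace EMu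

open Finset Filter Topology

/-- the scale of `z` -/
private def Lower_Z (p W : ℕ) : ℕ := W ^ (3 * p)

/-- the scale of `y` -/
private noncomputable def Lower_Y (p : ℕ) (α : ℝ) (W : ℕ) : ℕ :=
  ⌊((Lower_Z p W : ℝ) ^ 2 / (32 * α)) ^ (1 / 3 : ℝ)⌋₊

private theorem Lower_Z_tendsto {p : ℕ} (hp : 7 ≤ p) : Tendsto (fun W : ℕ => (Lower_Z p W : ℝ)) atTop atTop := by
  have h1 : Tendsto (fun W : ℕ => Lower_Z p W) atTop atTop :=
    tendsto_pow_atTop (α := ℕ) (show 3 * p ≠ 0 by omega)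
  exact tendsto_natCast_atTop_atTop.comp h1

private theorem Lower_par {p : ℕ} (hp : 7 ≤ p) {α : ℝ} (hα : 0 < α) {θ : ℕ → ℝ}
    (hθ : ∀ y, |θ y - α * (y : ℝ) ^ 3| ≤ 1) :
    ∀ᶠ W : ℕ in atTop, Par p α θ W (Lower_Y p α W) (Lower_Z p W) := by
  filter_upwards [(Lower_Z_tendsto hp).eventually_ge_atTop (max 1 (32 * α)), eventually_ge_atTop 2] with W h1 h2
  set Z : ℝ := (Lower_Z p W : ℝ) with hZ
  have hZ1 : 1 ≤ Z := (le_max_left _ _).trans h1
  have hZα : 32 * α ≤ Z := (le_max_right _ _).trans h1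
  have hZ0 : 0 < Z := by linarith
  set q : ℝ := Z ^ 2 / (32 * α) with hq
  have hq1 : 1 ≤ q := by
    rw [hq, le_div_iff₀ (by positivity), one_mul]
    nlinarith
  have hq0 : 0 < q := by linarith
  have hr1 : 1 ≤ q ^ (1 / 3 : ℝ) := Real.one_le_rpow hq1 (by norm_num)
  have hr3 : (q ^ (1 / 3 : ℝ)) ^ 3 = q := by
    rw [← Real.rpow_natCast, ← Real.rpow_mul hq0.le]
    norm_num
  have hYd : Lower_Y p α W = ⌊q ^ (1 / 3 : ℝ)⌋₊ := rfl
  have hY1 : 1 ≤ Lower_Y p α W := by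
    rw [hYd]
    exact Nat.le_floor (by exact_mod_cast hr1)
  have hYle : (Lower_Y p α W : ℝ) ≤ q ^ (1 / 3 : ℝ) := by
    rw [hYd]
    exact Nat.floor_le (by linarith)
  have hYlt : q ^ (1 / 3 : ℝ) < (Lower_Y p α W : ℝ) + 1 := by
    rw [hYd]
    exact Nat.lt_floor_add_one _
  have hYr : (1 : ℝ) ≤ (Lower_Y p α W : ℝ) := by exact_mod_cast hY1
  have hqZ : q * (32 * α) = Z ^ 2 := by
    rw [hq]
    field_simp
  refine ⟨hp, hα, hθ, h2, hY1, rfl, ?_, ?_⟩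
  · have h3 : (Lower_Y p α W : ℝ) ^ 3 ≤ q := by
      rw [← hr3]
      exact pow_le_pow_left₀ (by linarith) hYle 3
    rw [← hZ, ← hqZ]
    nlinarith
  · have h3 : q ≤ (2 * (Lower_Y p α W : ℝ)) ^ 3 := by
      rw [← hr3]
      exact pow_le_pow_left₀ (by linarith) (by linarith) 3
    rw [← hZ, ← hqZ]
    have h4 : (2 * (Lower_Y p α W : ℝ)) ^ 3 = 8 * (Lower_Y p α W : ℝ) ^ 3 := by ring
    rw [h4] at h3
    have h5 : 0 ≤ (Lower_Y p α W : ℝ) ^ 3 := by positivity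
    nlinarith

private noncomputable def Lower_r (p : ℕ) (κ0 h : ℝ) (W : ℕ) : ℝ :=
  if W = 0 then 1 else κ0 * (Lower_Z p W : ℝ) ^ (2 * h - 2)

private theorem Lower_Z_pos {p W : ℕ} (hW : W ≠ 0) : (0 : ℝ) < (Lower_Z p W : ℝ) := by
  unfold Lower_Z
  have : 0 < W := Nat.pos_of_ne_zero hW
  positivity

private theorem Lower_r_pos {p : ℕ} {κ0 h : ℝ} (hκ0 : 0 < κ0) (W : ℕ) : 0 < Lower_r p κ0 h W := by
  unfold Lower_r
  split_ifs with h0
  · exact one_pos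
  · exact mul_pos hκ0 (Real.rpow_pos_of_pos (Lower_Z_pos h0) _)

private theorem Lower_r_tendsto {p : ℕ} (hp : 7 ≤ p) {κ0 h : ℝ} (hh : h < 1) :
    Tendsto (Lower_r p κ0 h) atTop (𝓝 0) := by
  have h1 : Tendsto (fun W : ℕ => κ0 * (Lower_Z p W : ℝ) ^ (2 * h - 2)) atTop (𝓝 (κ0 * 0)) := by
    apply Tendsto.const_mul
    have h2 := (tendsto_rpow_neg_atTop (show (0 : ℝ) < 2 - 2 * h by linarith)).comp (Lower_Z_tendsto hp)
    refine h2.congr (fun W => ?_)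
    simp only [Function.comp_apply]
    congr 1
    ring
  rw [mul_zero] at h1
  refine h1.congr' ?_
  filter_upwards [eventually_ge_atTop 1] with W hW
  unfold Lower_r
  rw [if_neg (by omega)]

private noncomputable def Lower_rho (W : ℕ) : ℝ := (W : ℝ) ^ (-(6 : ℝ)) / 2

private theorem Lower_rho_eq {W : ℕ} (hW : 1 ≤ W) : 2 * Lower_rho W * (W : ℝ) ^ 6 = 1 := by
  have hW0 : (0 : ℝ) < W := by exact_mod_cast hW
  unfold Lower_rho
  rw [Real.rpow_neg hW0.le]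
  have : (W : ℝ) ^ (6 : ℝ) = (W : ℝ) ^ 6 := by
    rw [← Real.rpow_natCast]
    norm_num
  rw [this]
  field_simp

private theorem Lower_filter_eq (p : ℕ) (θ : ℕ → ℝ) (Y Z : ℕ) :
    (Om p θ Y Z).filter (fun t => 1 ≤ cen p θ t ∧ cen p θ t ≤ 2) = Om p θ Y Z := by
  classical
  apply Finset.filter_true_of_mem
  intro t ht
  unfold Om at ht
  exact (Finset.mem_filter.mp ht).2

private theorem Lower_card {p : ℕ} {α : ℝ} {θ : ℕ → ℝ} {W Y Z : ℕ} (P : Par p α θ W Y Z)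
    (hW : 200 * p ≤ W) :
    ((yz Y Z).card : ℝ) * (W : ℝ) ^ 6 ≤ 200 * p * ((Om p θ Y Z).card : ℝ) ∧
    ((Om p θ Y Z).card : ℝ) ≤ 3 * (((yz Y Z).card : ℝ) * (W : ℝ) ^ 6) := by
  have hW1 : 1 ≤ W := by have := P.hW; omega
  have hWr : (1 : ℝ) ≤ W := by exact_mod_cast hW1
  have hp0 : (0 : ℝ) < p := by
    have := P.hp
    have : 0 < p := by omega
    exact_mod_cast this
  have hWW : (W : ℝ) ≤ (W : ℝ) ^ 6 := le_self_pow₀ hWr (by norm_num)
  have hWp : 200 * (p : ℝ) ≤ (W : ℝ) ^ 6 := by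
    refine le_trans ?_ hWW
    exact_mod_cast hW
  have hpW : p ≤ W ^ 6 := by
    have : (p : ℝ) ≤ (W : ℝ) ^ 6 := by linarith
    exact_mod_cast this
  have hc : (0 : ℝ) ≤ ((yz Y Z).card : ℝ) := Nat.cast_nonneg _
  constructor
  · have h1 := macro_lower P hpW (u := 1) (v := 2) le_rfl (by norm_num) le_rfl
    rw [Lower_filter_eq] at h1
    have h2 : (W : ℝ) ^ 6 ≤ 200 * p * ((2 - 1) * (W : ℝ) ^ 6 / (100 * p) - 1) := by
      have e : 200 * (p : ℝ) * ((2 - 1) * (W : ℝ) ^ 6 / (100 * p) - 1) = 2 * (W : ℝ) ^ 6 - 200 * p := by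
        field_simp
        ring
      rw [e]
      linarith
    calc ((yz Y Z).card : ℝ) * (W : ℝ) ^ 6 ≤
        ((yz Y Z).card : ℝ) * (200 * p * ((2 - 1) * (W : ℝ) ^ 6 / (100 * p) - 1)) :=
          mul_le_mul_of_nonneg_left h2 hc
      _ = 200 * p * (((yz Y Z).card : ℝ) * ((2 - 1) * (W : ℝ) ^ 6 / (100 * p) - 1)) := by ring
      _ ≤ _ := mul_le_mul_of_nonneg_left h1 (by positivity)
  · have h1 := macro_upper P (u := 1) (v := 2) (by norm_num)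
    rw [Lower_filter_eq] at h1
    refine h1.trans ?_
    have h2 : 2 * ((2 : ℝ) - 1) * (W : ℝ) ^ 6 + 1 ≤ 3 * (W : ℝ) ^ 6 := by linarith
    calc _ ≤ ((yz Y Z).card : ℝ) * (3 * (W : ℝ) ^ 6) := mul_le_mul_of_nonneg_left h2 hc
      _ = _ := by ring

private theorem Lower_yz_pos {p : ℕ} {α : ℝ} {θ : ℕ → ℝ} {W Y Z : ℕ} (P : Par p α θ W Y Z) :
    0 < ((yz Y Z).card : ℝ) := by
  have hZ0 : Z ≠ 0 := by
    rw [P.hZ]
    have := P.hW
    have : 0 < W := by omega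
    positivity
  obtain ⟨q, hq, hq1, hq2⟩ := Nat.exists_prime_lt_and_le_two_mul Z hZ0
  have hmem : (Y + 1, q) ∈ yz Y Z := by
    have hY := P.hY
    simp only [yz, prm, Finset.mem_product, Finset.mem_Ioc, Finset.mem_filter]
    refine ⟨⟨by omega, by omega⟩, ⟨hq1, hq2⟩, hq⟩
  have : 0 < (yz Y Z).card := Finset.card_pos.mpr ⟨_, hmem⟩
  exact_mod_cast this

/-- a point of the limsup set gives solutions -/
private theorem Lower_point {p : ℕ} {α : ℝ} {θ : ℕ → ℝ} {h κ0 β : ℝ} (hκ0 : 0 < κ0) {W : ℕ}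
    (P : Par p α θ W (Lower_Y p α W) (Lower_Z p W)) {i : ℕ × ℕ × ℕ}
    (hi : i ∈ Om p θ (Lower_Y p α W) (Lower_Z p W)) (h1 : cen p θ i ≤ β)
    (h2 : β ≤ cen p θ i + Lower_r p κ0 h W) :
    ∃ x y z : ℕ, 1 ≤ x ∧ 1 ≤ y ∧ z.Prime ∧ Lower_Z p W < z ∧ z ≤ 2 * Lower_Z p W ∧
      (x : ℝ) ^ p ≤ 9 * (Lower_Z p W : ℝ) ^ 2 ∧ 4 * α * (y : ℝ) ^ 3 ≤ (Lower_Z p W : ℝ) ^ 2 ∧
      0 ≤ β * (z : ℝ) ^ 2 - ((x : ℝ) ^ p + θ y) ∧
      β * (z : ℝ) ^ 2 - ((x : ℝ) ^ p + θ y) ≤ 4 * κ0 * (Lower_Z p W : ℝ) ^ (2 * h) := by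
  classical
  obtain ⟨x, y, z⟩ := i
  unfold Om at hi
  obtain ⟨hm, hc1, hc2⟩ := Finset.mem_filter.mp hi
  obtain ⟨hx, hyz⟩ := Finset.mem_product.mp hm
  simp only at hx hyz
  obtain ⟨f1, f2, f3, f4, f5, f6⟩ := macro_facts P hyz
  have hyz' := hyz
  simp only [yz, prm, Finset.mem_product, Finset.mem_Ioc, Finset.mem_filter] at hyz'
  obtain ⟨⟨hy1, hy2⟩, ⟨hz1, hz2⟩, hz⟩ := hyz'
  have hW0 : W ≠ 0 := by have := P.hW; omega
  have hZ0 := Lower_Z_pos (p := p) hW0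
  set Zr : ℝ := (Lower_Z p W : ℝ) with hZr
  have hz0 : (0 : ℝ) < (z : ℝ) ^ 2 := by
    have : (0 : ℝ) < z := by exact_mod_cast hz.pos
    positivity
  have hce : cen p θ (x, y, z) * (z : ℝ) ^ 2 = (x : ℝ) ^ p + θ y := by
    unfold cen
    exact div_mul_cancel₀ _ hz0.ne'
  refine ⟨x, y, z, (Finset.mem_Icc.mp hx).1, by omega, hz, hz1, hz2, ?_, ?_, ?_, ?_⟩
  · have h3 : (x : ℝ) ^ p + θ y ≤ 2 * (z : ℝ) ^ 2 := by
      rw [← hce]
      exact mul_le_mul_of_nonneg_right hc2 hz0.le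
    linarith
  · have hy3 : (y : ℝ) ^ 3 ≤ 8 * (Lower_Y p α W : ℝ) ^ 3 := by
      have h3 : (y : ℝ) ≤ 2 * (Lower_Y p α W : ℝ) := by exact_mod_cast hy2
      have h4 : (y : ℝ) ^ 3 ≤ (2 * (Lower_Y p α W : ℝ)) ^ 3 := pow_le_pow_left₀ (Nat.cast_nonneg _) h3 3
      linarith [h4, (by ring : (2 * (Lower_Y p α W : ℝ)) ^ 3 = 8 * (Lower_Y p α W : ℝ) ^ 3)]
    have h5 := P.hY1
    have h6 : 4 * α * (y : ℝ) ^ 3 ≤ 4 * α * (8 * (Lower_Y p α W : ℝ) ^ 3) :=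
      mul_le_mul_of_nonneg_left hy3 (by have := P.hα; positivity)
    linarith
  · have h3 : cen p θ (x, y, z) * (z : ℝ) ^ 2 ≤ β * (z : ℝ) ^ 2 := mul_le_mul_of_nonneg_right h1 hz0.le
    rw [hce] at h3
    linarith
  · have h3 : β * (z : ℝ) ^ 2 ≤ (cen p θ (x, y, z) + Lower_r p κ0 h W) * (z : ℝ) ^ 2 :=
      mul_le_mul_of_nonneg_right h2 hz0.le
    rw [add_mul, hce] at h3
    have hr : Lower_r p κ0 h W = κ0 * Zr ^ (2 * h - 2) := by
      unfold Lower_r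
      rw [if_neg hW0]
    have h4 : Lower_r p κ0 h W * (z : ℝ) ^ 2 ≤ 4 * κ0 * Zr ^ (2 * h) := by
      have h5 : Zr ^ (2 * h) = Zr ^ (2 * h - 2) * Zr ^ 2 := by
        rw [← Real.rpow_natCast Zr 2, ← Real.rpow_add hZ0]
        congr 1
        push_cast
        ring
      rw [hr, h5]
      have h6 : 0 < Zr ^ (2 * h - 2) := Real.rpow_pos_of_pos hZ0 _
      calc κ0 * Zr ^ (2 * h - 2) * (z : ℝ) ^ 2 ≤ κ0 * Zr ^ (2 * h - 2) * (4 * Zr ^ 2) :=
            mul_le_mul_of_nonneg_left f3 (by positivity)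
        _ = _ := by ring
    linarith

theorem lower {p : ℕ} (hp : 7 ≤ p) {α : ℝ} (hα : 0 < α) {θ : ℕ → ℝ} (hθ : ∀ y, |θ y - α * (y : ℝ) ^ 3| ≤ 1)
    {h κ0 : ℝ} (hκ0 : 0 < κ0) (hh : h < 1 / 6 - 1 / (p : ℝ)) :
    ENNReal.ofReal ((5 / 6 + 1 / (p : ℝ)) / (1 - h)) ≤
      dimH {β : ℝ | 1 ≤ β ∧ β ≤ 2 ∧ ∀ N : ℕ, ∃ Z x y z : ℕ, N ≤ Z ∧ 1 ≤ x ∧ 1 ≤ y ∧ z.Prime ∧ Z < z ∧ z ≤ 2 * Z ∧
        (x : ℝ) ^ p ≤ 9 * (Z : ℝ) ^ 2 ∧ 4 * α * (y : ℝ) ^ 3 ≤ (Z : ℝ) ^ 2 ∧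
        0 ≤ β * (z : ℝ) ^ 2 - ((x : ℝ) ^ p + θ y) ∧
        β * (z : ℝ) ^ 2 - ((x : ℝ) ^ p + θ y) ≤ 4 * κ0 * (Z : ℝ) ^ (2 * h)} := by
  classical
  have hp0 : (0 : ℝ) < p := by
    have : 0 < p := by omega
    exact_mod_cast this
  have hp7 : (7 : ℝ) ≤ p := by exact_mod_cast hp
  have hp1 : (0 : ℝ) < 1 / (p : ℝ) := by positivity
  have hh1 : h < 1 := by linarith
  have h1h : 0 < 1 - h := by linarith
  set s : ℝ := (5 / 6 + 1 / (p : ℝ)) / (1 - h) with hs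
  have hs0 : 0 < s := by positivity
  have hs1 : s ≤ 1 := by
    rw [hs, div_le_one h1h]
    linarith
  have hsh : s * (1 - h) ≤ 5 / 6 + 1 / (p : ℝ) := by
    rw [hs, div_mul_cancel₀ _ h1h.ne']
  have hPar := Lower_par hp hα hθ
  have hrho0 : Tendsto Lower_rho atTop (𝓝 0) := by
    have h1 : Tendsto (fun W : ℕ => (W : ℝ) ^ (-(6 : ℝ)) / 2) atTop (𝓝 (0 / 2)) :=
      ((tendsto_rpow_neg_atTop (by norm_num : (0 : ℝ) < 6)).comp tendsto_natCast_atTop_atTop).div_const 2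
    rw [zero_div] at h1
    exact h1
  have hrhop : ∀ᶠ W : ℕ in atTop, 0 < Lower_rho W ∧ Lower_rho W ≤ (W : ℝ) ^ (-(6 : ℝ)) := by
    filter_upwards [eventually_ge_atTop 1] with W hW
    have hW0 : (0 : ℝ) < W := by exact_mod_cast hW
    have h1 : 0 < (W : ℝ) ^ (-(6 : ℝ)) := Real.rpow_pos_of_pos hW0 _
    unfold Lower_rho
    constructor <;> linarith
  have hmain : ∀ s' : ℝ, 0 < s' → s' < s → ENNReal.ofReal s' ≤
      dimH {β : ℝ | 1 ≤ β ∧ β ≤ 2 ∧ ∀ N : ℕ, ∃ Z x y z : ℕ, N ≤ Z ∧ 1 ≤ x ∧ 1 ≤ y ∧ z.Prime ∧ Z < z ∧ z ≤ 2 * Z ∧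
        (x : ℝ) ^ p ≤ 9 * (Z : ℝ) ^ 2 ∧ 4 * α * (y : ℝ) ^ 3 ≤ (Z : ℝ) ^ 2 ∧
        0 ≤ β * (z : ℝ) ^ 2 - ((x : ℝ) ^ p + θ y) ∧
        β * (z : ℝ) ^ 2 - ((x : ℝ) ^ p + θ y) ≤ 4 * κ0 * (Z : ℝ) ^ (2 * h)} := by
    intro s' hs'0 hs's
    obtain ⟨Γ, hΓ, hF⟩ := fam_of_pairs (fun W => Om p θ (Lower_Y p α W) (Lower_Z p W)) (cen p θ)
      (Lower_r p κ0 h) Lower_rho (C := 800 * p) (κ := 1 / (600 * p)) (s := s) (δ := 6) (s' := s')
      (by linarith) (by positivity) (by norm_num) hs'0 hs's hs1 (Lower_r_pos hκ0) (Lower_r_tendsto hp hh1)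
      hrhop hrho0
      (by
        filter_upwards [hPar, eventually_ge_atTop (200 * p), eventually_ge_atTop 1] with W P hW hW1
        have h1 := (Lower_card P hW).1
        have h2 := Lower_yz_pos P
        have h3 : (0 : ℝ) < (W : ℝ) ^ 6 := by
          have : (0 : ℝ) < W := by exact_mod_cast hW1
          positivity
        have h4 : 0 < 200 * p * ((Om p θ (Lower_Y p α W) (Lower_Z p W)).card : ℝ) :=
          lt_of_lt_of_le (mul_pos h2 h3) h1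
        have h5 : (0 : ℝ) < ((Om p θ (Lower_Y p α W) (Lower_Z p W)).card : ℝ) := by
          by_contra hcon
          push Not at hcon
          have : 200 * p * ((Om p θ (Lower_Y p α W) (Lower_Z p W)).card : ℝ) ≤ 0 :=
            mul_nonpos_of_nonneg_of_nonpos (by positivity) hcon
          linarith
        exact Finset.card_pos.mp (by exact_mod_cast h5))
      (by
        filter_upwards [hPar, eventually_ge_atTop (200 * p), eventually_ge_atTop 1, hrhop] with W P hW hW1 hrp u v huv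
        have h1 := (Lower_card P hW).1
        have h3 := Lower_rho_eq hW1
        have huv0 : 0 < v - u := lt_of_lt_of_le hrp.1 huv
        have h2 := macro_upper P (u := u) (v := v) (by linarith)
        have h4 : (0 : ℝ) ≤ (W : ℝ) ^ 6 := by positivity
        have h5 : 1 ≤ 2 * (v - u) * (W : ℝ) ^ 6 := by
          rw [← h3]
          gcongr
        have hc : (0 : ℝ) ≤ ((yz (Lower_Y p α W) (Lower_Z p W)).card : ℝ) := Nat.cast_nonneg _
        calc _ ≤ _ := h2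
          _ ≤ ((yz (Lower_Y p α W) (Lower_Z p W)).card : ℝ) * (4 * (v - u) * (W : ℝ) ^ 6) :=
              mul_le_mul_of_nonneg_left (by linarith) hc
          _ = 4 * (v - u) * (((yz (Lower_Y p α W) (Lower_Z p W)).card : ℝ) * (W : ℝ) ^ 6) := by ring
          _ ≤ 4 * (v - u) * (200 * p * ((Om p θ (Lower_Y p α W) (Lower_Z p W)).card : ℝ)) :=
              mul_le_mul_of_nonneg_left h1 (by positivity)
          _ = _ := by ring)
      (by
        intro u v hu huv hv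
        have huv0 : 0 < v - u := by linarith
        have hlim : Tendsto (fun W : ℕ => (W : ℝ) ^ 6) atTop atTop :=
          (tendsto_pow_atTop (by norm_num)).comp tendsto_natCast_atTop_atTop
        filter_upwards [hPar, eventually_ge_atTop (200 * p), eventually_ge_atTop 1,
          hlim.eventually_ge_atTop (200 * p / (v - u))] with W P hW hW1 hW6
        have h1 := (Lower_card P hW).2
        have hWr : (1 : ℝ) ≤ W := by exact_mod_cast hW1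
        have hpW : p ≤ W ^ 6 := by
          have h7 : p ≤ W := by omega
          exact h7.trans (Nat.le_self_pow (by norm_num) W)
        have h2 := macro_lower P hpW hu huv.le hv
        have hc : (0 : ℝ) ≤ ((yz (Lower_Y p α W) (Lower_Z p W)).card : ℝ) := Nat.cast_nonneg _
        rw [div_le_iff₀ huv0] at hW6
        have h5 : (v - u) * (W : ℝ) ^ 6 / (200 * p) ≤ (v - u) * (W : ℝ) ^ 6 / (100 * p) - 1 := by
          have h6 : 1 ≤ (v - u) * (W : ℝ) ^ 6 / (200 * p) := by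
            rw [le_div_iff₀ (by positivity)]
            linarith
          have h7 : (v - u) * (W : ℝ) ^ 6 / (100 * p) = 2 * ((v - u) * (W : ℝ) ^ 6 / (200 * p)) := by
            field_simp
            ring
          rw [h7]
          linarith
        calc 1 / (600 * (p : ℝ)) * (v - u) * ((Om p θ (Lower_Y p α W) (Lower_Z p W)).card : ℝ) ≤
            1 / (600 * (p : ℝ)) * (v - u) * (3 * (((yz (Lower_Y p α W) (Lower_Z p W)).card : ℝ) * (W : ℝ) ^ 6)) :=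
              mul_le_mul_of_nonneg_left h1 (by positivity)
          _ = ((yz (Lower_Y p α W) (Lower_Z p W)).card : ℝ) * ((v - u) * (W : ℝ) ^ 6 / (200 * p)) := by
              field_simp
              ring
          _ ≤ _ := mul_le_mul_of_nonneg_left h5 hc
          _ ≤ _ := h2)
      (by
        intro ε hε
        filter_upwards [hPar, pairs_asym hp hα hκ0 hh1 hs0 hs1 hsh hε, eventually_ge_atTop 1] with W P hA hW1 t ht1 ht2
        apply hA θ _ _ P t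
        · unfold Lower_r at ht1
          rw [if_neg (by omega)] at ht1
          exact ht1
        · have h3 := Lower_rho_eq hW1
          have h4 : (0 : ℝ) ≤ (W : ℝ) ^ 6 := by positivity
          have h5 : t * (W : ℝ) ^ 6 ≤ Lower_rho W * (W : ℝ) ^ 6 := mul_le_mul_of_nonneg_right ht2 h4
          linarith)
    have hc := cantor hF (by linarith) (by positivity)
      (by
        rw [div_div, div_le_one (by positivity)]
        linarith) hs'0 (by linarith)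
    refine hc.trans (dimH_mono ?_)
    rintro β ⟨hβ1, hβ2, hfr⟩
    refine ⟨hβ1, hβ2, fun N => ?_⟩
    have hev : ∀ᶠ W : ℕ in atTop, Par p α θ W (Lower_Y p α W) (Lower_Z p W) ∧ N ≤ Lower_Z p W := by
      filter_upwards [hPar, (Lower_Z_tendsto hp).eventually_ge_atTop (N : ℝ)] with W P hN
      exact ⟨P, by exact_mod_cast hN⟩
    obtain ⟨W, ⟨i, hi, hi1, hi2⟩, P, hN⟩ := (hfr.and_eventually hev).exists
    obtain ⟨x, y, z, hx⟩ := Lower_point hκ0 P (hΓ W hi) hi1 hi2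
    exact ⟨Lower_Z p W, x, y, z, hN, hx⟩
  have hcont : Tendsto (fun s' : ℝ => ENNReal.ofReal s') (𝓝[<] s) (𝓝 (ENNReal.ofReal s)) :=
    (ENNReal.continuous_ofReal.tendsto s).mono_left nhdsWithin_le_nhds
  refine le_of_tendsto hcont ?_
  filter_upwards [Ioo_mem_nhdsLT hs0] with s' hs'
  exact hmain s' hs'.1 hs'.2

end EMu
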