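import Pool.Agent.EMu.Basic

/-!
# EMu.Win: pairs of different primes with given centres

`N, N'` are fixed, `z ≠ z'` primes in `(Z, 2Z]` with `N / z^2, N' / z'^2 ∈ [1, 2]` at distance at most `t`. Then
`|(z/z')^2 - N/N'| = z^2 |N'/z'^2 - N/z^2| / N' ≤ 4 t` (`N' ≥ z'^2 > Z^2`), and `z/z' ≥ 1/2`, so with `q = √(N/N')`:
`|z/z' - q| ≤ 4 t / (z/z' + q) ≤ 8 t`. The fractions `z/z'` belonging to different pairs `(z, z') ≠ (w, w')` are different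
(`z w' = w z'`, `z ≠ z'` primes give `z = w`) and so at distance at least `1/(z' w') ≥ 1 / (4 Z^2)`. Points of an interval of
length `16 t` with mutual distances at least `1 / (4 Z^2)`: at most `1 + 64 t Z^2`.
-/

set_option autoImplicit false

namespace EMu

open Finset

private theorem win_close {Z z z' N N' t : ℝ} (hZ : 0 < Z) (hz1 : Z < z) (hz2 : z ≤ 2 * Z)
    (hz1' : Z < z') (hz2' : z' ≤ 2 * Z) (h1 : 1 ≤ N / z ^ 2) (h2 : 1 ≤ N' / z' ^ 2)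
    (h3 : |N / z ^ 2 - N' / z' ^ 2| ≤ t) : |z / z' - Real.sqrt (N / N')| ≤ 8 * t := by
  have hz0 : 0 < z := by linarith
  have hz0' : 0 < z' := by linarith
  have ht : 0 ≤ t := (abs_nonneg _).trans h3
  have hN : z ^ 2 ≤ N := by rwa [le_div_iff₀ (by positivity), one_mul] at h1
  have hN' : z' ^ 2 ≤ N' := by rwa [le_div_iff₀ (by positivity), one_mul] at h2
  have hN0 : 0 < N := by have := pow_pos hz0 2; linarith
  have hN0' : 0 < N' := by have := pow_pos hz0' 2; linarith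
  set q := Real.sqrt (N / N') with hq
  have hq0 : 0 ≤ q := Real.sqrt_nonneg _
  have hq2 : q ^ 2 = N / N' := Real.sq_sqrt (by positivity)
  have e1 : (z / z') ^ 2 - q ^ 2 = z ^ 2 / N' * (N' / z' ^ 2 - N / z ^ 2) := by
    rw [hq2]; field_simp
  have e2 : z ^ 2 / N' ≤ 4 := by
    rw [div_le_iff₀ hN0']
    nlinarith
  have e3 : |(z / z') ^ 2 - q ^ 2| ≤ 4 * t := by
    rw [e1, abs_mul, abs_of_nonneg (by positivity : 0 ≤ z ^ 2 / N'), abs_sub_comm]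
    exact mul_le_mul e2 h3 (abs_nonneg _) (by norm_num)
  have e4 : 1 / 2 ≤ z / z' := by
    rw [div_le_div_iff₀ (by norm_num) hz0']
    linarith
  have e5 : |z / z' - q| * (z / z' + q) ≤ 4 * t := by
    have : (z / z') ^ 2 - q ^ 2 = (z / z' - q) * (z / z' + q) := by ring
    rw [this, abs_mul, abs_of_nonneg (by linarith : 0 ≤ z / z' + q)] at e3
    exact e3
  have e6 : |z / z' - q| * (1 / 2) ≤ |z / z' - q| * (z / z' + q) :=
    mul_le_mul_of_nonneg_left (by linarith) (abs_nonneg _)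
  linarith

private theorem win_ne {z z' w w' : ℕ} (hz : z.Prime) (hz' : z'.Prime) (hw : w.Prime)
    (hne : z ≠ z') (h : z * w' = w * z') : z = w ∧ z' = w' := by
  have h1 : z ∣ w * z' := ⟨w', h.symm⟩
  rcases hz.dvd_mul.1 h1 with h2 | h2
  · have h3 : z = w := (Nat.prime_dvd_prime_iff_eq hz hw).1 h2
    subst h3
    exact ⟨rfl, (Nat.eq_of_mul_eq_mul_left hz.pos h).symm⟩
  · exact absurd ((Nat.prime_dvd_prime_iff_eq hz hz').1 h2) hne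

private theorem win_far {Z : ℕ} {z z' w w' : ℕ} (hz0' : 0 < z') (hw0' : 0 < w') (hz' : z' ≤ 2 * Z)
    (hw' : w' ≤ 2 * Z) (h : z * w' ≠ w * z') :
    1 ≤ |(z : ℝ) / z' - (w : ℝ) / w'| * (4 * (Z : ℝ) ^ 2) := by
  have a1 : (0 : ℝ) < z' := by exact_mod_cast hz0'
  have a2 : (0 : ℝ) < w' := by exact_mod_cast hw0'
  have e1 : (z : ℝ) / z' - (w : ℝ) / w' = ((z : ℝ) * w' - w * z') / (z' * w') := by
    field_simp
  have e2 : (1 : ℝ) ≤ |(z : ℝ) * w' - w * z'| := by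
    have h1 : (1 : ℤ) ≤ |(z : ℤ) * w' - w * z'| := by
      apply Int.one_le_abs
      intro h2
      apply h
      have : (z : ℤ) * w' = w * z' := by linarith
      exact_mod_cast this
    exact_mod_cast h1
  have e3 : (z' : ℝ) * w' ≤ 4 * (Z : ℝ) ^ 2 := by
    have b1 : (z' : ℝ) ≤ 2 * Z := by exact_mod_cast hz'
    have b2 : (w' : ℝ) ≤ 2 * Z := by exact_mod_cast hw'
    calc (z' : ℝ) * w' ≤ (2 * Z) * (2 * Z) := mul_le_mul b1 b2 a2.le (by positivity)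
      _ = 4 * (Z : ℝ) ^ 2 := by ring
  rw [e1, abs_div, abs_of_pos (mul_pos a1 a2), div_mul_eq_mul_div, le_div_iff₀ (mul_pos a1 a2), one_mul]
  calc (z' : ℝ) * w' ≤ 4 * (Z : ℝ) ^ 2 := e3
    _ = 1 * (4 * (Z : ℝ) ^ 2) := (one_mul _).symm
    _ ≤ |(z : ℝ) * w' - w * z'| * (4 * (Z : ℝ) ^ 2) := mul_le_mul_of_nonneg_right e2 (by positivity)

open Classical in
theorem diff_z {Z : ℕ} (hZ : 1 ≤ Z) {N N' t : ℝ} (ht : 0 ≤ t) :
    (((prm Z ×ˢ prm Z).filter (fun q => q.1 ≠ q.2 ∧ 1 ≤ N / (q.1 : ℝ) ^ 2 ∧ N / (q.1 : ℝ) ^ 2 ≤ 2 ∧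
      1 ≤ N' / (q.2 : ℝ) ^ 2 ∧ N' / (q.2 : ℝ) ^ 2 ≤ 2 ∧
      |N / (q.1 : ℝ) ^ 2 - N' / (q.2 : ℝ) ^ 2| ≤ t)).card : ℝ) ≤ 1 + 64 * t * (Z : ℝ) ^ 2 := by
  set S := (prm Z ×ˢ prm Z).filter (fun q => q.1 ≠ q.2 ∧ 1 ≤ N / (q.1 : ℝ) ^ 2 ∧ N / (q.1 : ℝ) ^ 2 ≤ 2 ∧
      1 ≤ N' / (q.2 : ℝ) ^ 2 ∧ N' / (q.2 : ℝ) ^ 2 ≤ 2 ∧
      |N / (q.1 : ℝ) ^ 2 - N' / (q.2 : ℝ) ^ 2| ≤ t) with hS
  set c : ℝ := Real.sqrt (N / N') - 8 * t with hc
  have hZ0 : (0 : ℝ) < Z := by exact_mod_cast hZ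
  have key : ∀ q ∈ S, q.1.Prime ∧ q.2.Prime ∧ q.1 ≠ q.2 ∧ q.2 ≤ 2 * Z ∧ 0 ≤ (q.1 : ℝ) / q.2 - c ∧
      (q.1 : ℝ) / q.2 - c ≤ 16 * t := by
    intro q hq
    rw [hS, Finset.mem_filter, Finset.mem_product] at hq
    obtain ⟨⟨h1, h2⟩, h3, h4, _, h5, _, h6⟩ := hq
    rw [prm, Finset.mem_filter, Finset.mem_Ioc] at h1 h2
    obtain ⟨⟨a1, a2⟩, a3⟩ := h1
    obtain ⟨⟨b1, b2⟩, b3⟩ := h2
    have := win_close (Z := (Z : ℝ)) (z := (q.1 : ℝ)) (z' := (q.2 : ℝ)) hZ0 (by exact_mod_cast a1)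
      (by exact_mod_cast a2) (by exact_mod_cast b1) (by exact_mod_cast b2) h4 h5 h6
    rw [abs_le] at this
    refine ⟨a3, b3, h3, b2, ?_, ?_⟩
    · rw [hc]; linarith [this.1]
    · rw [hc]; linarith [this.2]
  have hcard : S.card ≤ (Finset.range (⌊64 * t * (Z : ℝ) ^ 2⌋₊ + 1)).card := by
    apply Finset.card_le_card_of_injOn
      (fun q : ℕ × ℕ => ⌊((q.1 : ℝ) / q.2 - c) * (4 * (Z : ℝ) ^ 2)⌋₊)
    · intro q hq
      obtain ⟨_, _, _, _, k5, k6⟩ := key q (Finset.mem_coe.1 hq)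
      rw [Finset.mem_coe, Finset.mem_range, Nat.lt_succ_iff]
      apply Nat.floor_le_floor
      calc ((q.1 : ℝ) / q.2 - c) * (4 * (Z : ℝ) ^ 2) ≤ (16 * t) * (4 * (Z : ℝ) ^ 2) :=
            mul_le_mul_of_nonneg_right k6 (by positivity)
        _ = 64 * t * (Z : ℝ) ^ 2 := by ring
    · intro q hq r hr hqr
      obtain ⟨k1, k2, k3, k4, k5, k6⟩ := key q (Finset.mem_coe.1 hq)
      obtain ⟨l1, l2, l3, l4, l5, l6⟩ := key r (Finset.mem_coe.1 hr)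
      have hp : (0 : ℝ) ≤ 4 * (Z : ℝ) ^ 2 := by positivity
      by_contra hne
      have hne' : q.1 * r.2 ≠ r.1 * q.2 := by
        intro h
        apply hne
        have := win_ne k1 k2 l1 k3 h
        exact Prod.ext this.1 this.2
      have far := win_far (Z := Z) k2.pos l2.pos k4 l4 hne'
      have f1 := Nat.floor_le (mul_nonneg k5 hp)
      have f2 := Nat.lt_floor_add_one (((q.1 : ℝ) / q.2 - c) * (4 * (Z : ℝ) ^ 2))
      have f3 := Nat.floor_le (mul_nonneg l5 hp)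
      have f4 := Nat.lt_floor_add_one (((r.1 : ℝ) / r.2 - c) * (4 * (Z : ℝ) ^ 2))
      have hqr' : (⌊((q.1 : ℝ) / q.2 - c) * (4 * (Z : ℝ) ^ 2)⌋₊ : ℝ) =
          (⌊((r.1 : ℝ) / r.2 - c) * (4 * (Z : ℝ) ^ 2)⌋₊ : ℝ) := by
        exact_mod_cast hqr
      have e1 : |(q.1 : ℝ) / q.2 - (r.1 : ℝ) / r.2| * (4 * (Z : ℝ) ^ 2) =
          |((q.1 : ℝ) / q.2 - c) * (4 * (Z : ℝ) ^ 2) - ((r.1 : ℝ) / r.2 - c) * (4 * (Z : ℝ) ^ 2)| := by
        rw [← sub_mul, abs_mul, abs_of_nonneg hp]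
        congr 2
        ring
      rw [e1] at far
      have e2 : |((q.1 : ℝ) / q.2 - c) * (4 * (Z : ℝ) ^ 2) - ((r.1 : ℝ) / r.2 - c) * (4 * (Z : ℝ) ^ 2)| < 1 := by
        rw [abs_lt]
        constructor <;> linarith
      linarith
  rw [Finset.card_range] at hcard
  have h0 : (0 : ℝ) ≤ 64 * t * (Z : ℝ) ^ 2 := by positivity
  calc (S.card : ℝ) ≤ ((⌊64 * t * (Z : ℝ) ^ 2⌋₊ + 1 : ℕ) : ℝ) := by exact_mod_cast hcard
    _ = (⌊64 * t * (Z : ℝ) ^ 2⌋₊ : ℝ) + 1 := by push_cast; ring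
    _ ≤ 1 + 64 * t * (Z : ℝ) ^ 2 := by linarith [Nat.floor_le h0]

end EMu
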