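import Pool.Agent.EMu.SameZ
import Pool.Agent.EMu.Win

/-!
# EMu.Pairs: the number of close pairs of centres

Sum `same_z` over `z ∈ prm Z`. For different `z, z'`: the number of `(x, y, x', y')` is at most `(4 W^6 Y)^2` (all `x` of
elements of `Om` satisfy `Z^2/2 ≤ x^p ≤ 9 Z^2`, `x_upper`), and for each of them `diff_z` with `N = x^p + θ y`,
`N' = x'^p + θ y'` bounds the number of `(z, z')`.
-/

set_option autoImplicit false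

namespace EMu

open Finset

private theorem Pairs_facts {p : ℕ} {α : ℝ} {θ : ℕ → ℝ} {W Y Z : ℕ} (P : Par p α θ W Y Z) {y z : ℕ}
    (h : (y, z) ∈ yz Y Z) :
    (Z : ℝ) ^ 2 ≤ (z : ℝ) ^ 2 ∧ (z : ℝ) ^ 2 ≤ 4 * (Z : ℝ) ^ 2 ∧
      θ y ≤ (Z : ℝ) ^ 2 / 4 + 1 ∧ -1 ≤ θ y ∧ 4 ≤ (Z : ℝ) ^ 2 ∧ 0 < (z : ℝ) ^ 2 := by
  have hZ2 : (Z : ℝ) ^ 2 = (W : ℝ) ^ (6 * p) := by
    rw [P.hZ]
    push_cast
    rw [← pow_mul]
    congr 1
    ring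
  simp only [yz, prm, mem_product, mem_Ioc, mem_filter] at h
  obtain ⟨⟨hy1, hy2⟩, ⟨hz1, hz2⟩, hz3⟩ := h
  have hz1' : (Z : ℝ) ≤ z := by exact_mod_cast hz1.le
  have hz2' : (z : ℝ) ≤ 2 * Z := by exact_mod_cast hz2
  have hy2' : (y : ℝ) ≤ 2 * Y := by exact_mod_cast hy2
  have hZ0 : (0 : ℝ) ≤ Z := Nat.cast_nonneg _
  have hz0 : (0 : ℝ) ≤ z := Nat.cast_nonneg _
  have hzp : (0 : ℝ) < z := by
    have : 0 < z := by omega
    exact_mod_cast this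
  have hy0 : (0 : ℝ) ≤ y := Nat.cast_nonneg _
  have hW : (2 : ℝ) ≤ W := by exact_mod_cast P.hW
  have hth := abs_le.1 (P.hθ y)
  have hy3 : (y : ℝ) ^ 3 ≤ 8 * (Y : ℝ) ^ 3 := by
    calc (y : ℝ) ^ 3 ≤ (2 * (Y : ℝ)) ^ 3 := pow_le_pow_left₀ hy0 hy2' 3
      _ = 8 * (Y : ℝ) ^ 3 := by ring
  have hα := P.hα
  have hay : α * (y : ℝ) ^ 3 ≤ (Z : ℝ) ^ 2 / 4 := by
    have h1 := P.hY1
    have h2 : α * (y : ℝ) ^ 3 ≤ α * (8 * (Y : ℝ) ^ 3) := mul_le_mul_of_nonneg_left hy3 hα.le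
    linarith
  have hay0 : 0 ≤ α * (y : ℝ) ^ 3 := by positivity
  have hp := P.hp
  refine ⟨pow_le_pow_left₀ hZ0 hz1' 2, ?_, by linarith, by linarith, ?_, by positivity⟩
  · calc (z : ℝ) ^ 2 ≤ (2 * (Z : ℝ)) ^ 2 := pow_le_pow_left₀ hz0 hz2' 2
      _ = 4 * (Z : ℝ) ^ 2 := by ring
  · rw [hZ2]
    calc (4 : ℝ) = 2 ^ 2 := by norm_num
      _ ≤ 2 ^ (6 * p) := pow_le_pow_right₀ (by norm_num) (by omega)
      _ ≤ (W : ℝ) ^ (6 * p) := pow_le_pow_left₀ (by norm_num) hW _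

open Classical in
private noncomputable def Pairs_S (p Z : ℕ) : Finset ℕ :=
  (Icc 1 (9 * Z ^ 2)).filter (fun x : ℕ => (Z : ℝ) ^ 2 / 2 ≤ (x : ℝ) ^ p ∧ (x : ℝ) ^ p ≤ 9 * (Z : ℝ) ^ 2)

private theorem Pairs_S_card {p : ℕ} {α : ℝ} {θ : ℕ → ℝ} {W Y Z : ℕ} (P : Par p α θ W Y Z) :
    ((Pairs_S p Z).card : ℝ) ≤ 4 * (W : ℝ) ^ 6 := by
  have hZ2 : (Z : ℝ) ^ 2 = (W : ℝ) ^ (6 * p) := by
    rw [P.hZ]
    push_cast
    rw [← pow_mul]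
    congr 1
    ring
  have hW : (2 : ℝ) ≤ W := by exact_mod_cast P.hW
  have hWp : (0 : ℝ) < (W : ℝ) ^ (6 * p) := by positivity
  have h1 := x_upper (p := p) (W := W) P.hp (le_trans (by norm_num) P.hW) (a := (W : ℝ) ^ (6 * p) / 2)
    (b := 9 * (W : ℝ) ^ (6 * p)) le_rfl (by linarith) (Pairs_S p Z) (by
      intro x hx
      unfold Pairs_S at hx
      rw [mem_filter, hZ2] at hx
      exact hx.2)
  refine h1.trans ?_
  have h2 : (9 * (W : ℝ) ^ (6 * p) - (W : ℝ) ^ (6 * p) / 2) * (W : ℝ) ^ 6 / (3 * (W : ℝ) ^ (6 * p)) =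
      17 / 6 * (W : ℝ) ^ 6 := by
    field_simp
    ring
  rw [h2]
  have h3 : (1 : ℝ) ≤ (W : ℝ) ^ 6 := one_le_pow₀ (by linarith)
  have h4 : (64 : ℝ) ≤ (W : ℝ) ^ 6 := by
    calc (64 : ℝ) = 2 ^ 6 := by norm_num
      _ ≤ (W : ℝ) ^ 6 := pow_le_pow_left₀ (by norm_num) hW 6
  linarith

private theorem Pairs_mem {p : ℕ} {α : ℝ} {θ : ℕ → ℝ} {W Y Z : ℕ} (P : Par p α θ W Y Z)
    {s : ℕ × ℕ × ℕ} (hs : s ∈ Om p θ Y Z) :
    (s.1, s.2.1) ∈ Pairs_S p Z ×ˢ Ioc Y (2 * Y) ∧ s.2.2 ∈ prm Z ∧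
      1 ≤ ((s.1 : ℝ) ^ p + θ s.2.1) / (s.2.2 : ℝ) ^ 2 ∧
      ((s.1 : ℝ) ^ p + θ s.2.1) / (s.2.2 : ℝ) ^ 2 ≤ 2 := by
  obtain ⟨x, y, z⟩ := s
  unfold Om at hs
  rw [mem_filter, mem_product] at hs
  obtain ⟨⟨hx, hyz⟩, h1, h2⟩ := hs
  obtain ⟨hz1, hz2, ht1, ht2, hZ4, hz0⟩ := Pairs_facts P hyz
  unfold cen at h1 h2
  have hyz' := hyz
  unfold yz at hyz'
  rw [mem_product] at hyz'
  simp only at h1 h2 hx hyz' ⊢
  have h1' := (le_div_iff₀ hz0).1 h1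
  have h2' := (div_le_iff₀ hz0).1 h2
  refine ⟨mem_product.2 ⟨?_, hyz'.1⟩, hyz'.2, h1, h2⟩
  unfold Pairs_S
  rw [mem_filter]
  exact ⟨hx, by linarith, by linarith⟩

theorem pairs_le {p : ℕ} {α : ℝ} {θ : ℕ → ℝ} {W Y Z : ℕ} (P : Par p α θ W Y Z) {R : ℝ} (hR0 : 0 ≤ R)
    (hR : ∀ D : ℤ, D ≠ 0 → (((Icc 1 (2 * Y) ×ˢ Icc 1 (2 * Y)).filter
      (fun q : ℕ × ℕ => (q.1 : ℤ) ^ 3 - (q.2 : ℤ) ^ 3 = D)).card : ℝ) ≤ R)
    {t : ℝ} (ht0 : 0 ≤ t) (ht : t * (W : ℝ) ^ 6 ≤ 1 / 2) :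
    (pairs (Om p θ Y Z) (cen p θ) t : ℝ) ≤
      (prm Z).card * (4 * (W : ℝ) ^ 6 * (Y * (1 + (4 * t * (Z : ℝ) ^ 2 + 2) / (α * (Y : ℝ) ^ 2))) +
      16 * (W : ℝ) ^ 12 * ((2 * (4 * t * (Z : ℝ) ^ 2 + 2) / α + 1) * R)) +
      16 * (W : ℝ) ^ 12 * (Y : ℝ) ^ 2 * (1 + 64 * t * (Z : ℝ) ^ 2) := by
  classical
  have hZ1 : 1 ≤ Z := by
    rw [P.hZ]
    exact Nat.one_le_pow _ _ (lt_of_lt_of_le (by norm_num) P.hW)
  set A := Om p θ Y Z with hA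
  set E := (A ×ˢ A).filter (fun s => |cen p θ s.1 - cen p θ s.2| ≤ t) with hE
  have hpair : pairs A (cen p θ) t = E.card := rfl
  have hsplit : E.card = (E.filter (fun s => s.1.2.2 = s.2.2.2)).card +
      (E.filter (fun s => ¬ s.1.2.2 = s.2.2.2)).card := by
    rw [Finset.card_filter_add_card_filter_not]
  rw [hpair, hsplit]
  push_cast
  refine add_le_add ?_ ?_
  · -- the same z
    have hsub : E.filter (fun s => s.1.2.2 = s.2.2.2) ⊆ (prm Z).biUnion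
        (fun z => (A ×ˢ A).filter (fun s => s.1.2.2 = z ∧ s.2.2.2 = z ∧
          |cen p θ s.1 - cen p θ s.2| ≤ t)) := by
      intro s hs
      rw [mem_filter, hE, mem_filter, mem_product] at hs
      obtain ⟨⟨⟨hs1, hs2⟩, hs3⟩, hs4⟩ := hs
      rw [mem_biUnion]
      refine ⟨s.1.2.2, (Pairs_mem P hs1).2.1, ?_⟩
      rw [mem_filter, mem_product]
      exact ⟨⟨hs1, hs2⟩, rfl, hs4.symm, hs3⟩
    have h1 : ((E.filter (fun s => s.1.2.2 = s.2.2.2)).card : ℝ) ≤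
        ∑ z ∈ prm Z, (((A ×ˢ A).filter (fun s => s.1.2.2 = z ∧ s.2.2.2 = z ∧
          |cen p θ s.1 - cen p θ s.2| ≤ t)).card : ℝ) := by
      exact_mod_cast (card_le_card hsub).trans card_biUnion_le
    have h2 : ∀ z ∈ prm Z, (((A ×ˢ A).filter (fun s => s.1.2.2 = z ∧ s.2.2.2 = z ∧
          |cen p θ s.1 - cen p θ s.2| ≤ t)).card : ℝ) ≤
        4 * (W : ℝ) ^ 6 * (Y * (1 + (4 * t * (Z : ℝ) ^ 2 + 2) / (α * (Y : ℝ) ^ 2))) +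
        16 * (W : ℝ) ^ 12 * ((2 * (4 * t * (Z : ℝ) ^ 2 + 2) / α + 1) * R) := by
      intro z hz
      convert same_z P hR0 hR ht0 ht hz
    refine h1.trans ((sum_le_sum h2).trans (le_of_eq ?_))
    rw [sum_const, nsmul_eq_mul]
  · -- different z
    set F := E.filter (fun s => ¬ s.1.2.2 = s.2.2.2) with hF
    set U := Pairs_S p Z ×ˢ Ioc Y (2 * Y) with hU
    have hmaps : ∀ s ∈ F, ((s.1.1, s.1.2.1), (s.2.1, s.2.2.1)) ∈ U ×ˢ U := by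
      intro s hs
      rw [hF, mem_filter, hE, mem_filter, mem_product] at hs
      rw [mem_product]
      exact ⟨(Pairs_mem P hs.1.1.1).1, (Pairs_mem P hs.1.1.2).1⟩
    have hfib := Finset.card_eq_sum_card_fiberwise
      (f := fun s : (ℕ × ℕ × ℕ) × (ℕ × ℕ × ℕ) => ((s.1.1, s.1.2.1), (s.2.1, s.2.2.1))) hmaps
    have hfibR : (F.card : ℝ) = ∑ b ∈ U ×ˢ U, ((F.filter (fun s =>
        ((s.1.1, s.1.2.1), (s.2.1, s.2.2.1)) = b)).card : ℝ) := by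
      exact_mod_cast hfib
    have hone : ∀ b ∈ U ×ˢ U, ((F.filter (fun s =>
        ((s.1.1, s.1.2.1), (s.2.1, s.2.2.1)) = b)).card : ℝ) ≤ 1 + 64 * t * (Z : ℝ) ^ 2 := by
      rintro ⟨⟨x, y⟩, ⟨x', y'⟩⟩ _
      refine le_trans ?_ (diff_z (Z := Z) hZ1 (N := (x : ℝ) ^ p + θ y) (N' := (x' : ℝ) ^ p + θ y') ht0)
      have hle : (F.filter (fun s => ((s.1.1, s.1.2.1), (s.2.1, s.2.2.1)) = ((x, y), (x', y')))).card ≤
          ((prm Z ×ˢ prm Z).filter (fun q => q.1 ≠ q.2 ∧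
            1 ≤ ((x : ℝ) ^ p + θ y) / (q.1 : ℝ) ^ 2 ∧ ((x : ℝ) ^ p + θ y) / (q.1 : ℝ) ^ 2 ≤ 2 ∧
            1 ≤ ((x' : ℝ) ^ p + θ y') / (q.2 : ℝ) ^ 2 ∧ ((x' : ℝ) ^ p + θ y') / (q.2 : ℝ) ^ 2 ≤ 2 ∧
            |((x : ℝ) ^ p + θ y) / (q.1 : ℝ) ^ 2 - ((x' : ℝ) ^ p + θ y') / (q.2 : ℝ) ^ 2| ≤ t)).card := by
        refine card_le_card_of_injOn (fun s => (s.1.2.2, s.2.2.2)) ?_ ?_
        · intro s hs
          rw [mem_coe, mem_filter, hF, mem_filter, hE, mem_filter, mem_product] at hs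
          obtain ⟨⟨⟨⟨hs1, hs2⟩, hs3⟩, hs4⟩, hs5⟩ := hs
          simp only [Prod.mk.injEq] at hs5
          obtain ⟨⟨hx, hy⟩, hx', hy'⟩ := hs5
          have m1 := Pairs_mem P hs1
          have m2 := Pairs_mem P hs2
          unfold cen at hs3
          rw [hx, hy, hx', hy'] at hs3
          rw [hx, hy] at m1
          rw [hx', hy'] at m2
          rw [mem_coe, mem_filter, mem_product]
          exact ⟨⟨m1.2.1, m2.2.1⟩, hs4, m1.2.2.1, m1.2.2.2, m2.2.2.1, m2.2.2.2, hs3⟩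
        · intro s hs s' hs' he
          rw [mem_coe, mem_filter] at hs hs'
          have e1 := hs.2
          have e2 := hs'.2
          simp only [Prod.mk.injEq] at e1 e2 he
          ext <;> simp_all
      exact_mod_cast hle
    rw [hfibR]
    refine (sum_le_sum hone).trans ?_
    rw [sum_const, nsmul_eq_mul]
    have hB : (0 : ℝ) ≤ 1 + 64 * t * (Z : ℝ) ^ 2 := by positivity
    refine mul_le_mul_of_nonneg_right ?_ hB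
    have hUc : (U.card : ℝ) ≤ 4 * (W : ℝ) ^ 6 * Y := by
      rw [hU, card_product]
      push_cast
      have h1 : (Ioc Y (2 * Y)).card = Y := by
        rw [Nat.card_Ioc]
        omega
      rw [h1]
      exact mul_le_mul_of_nonneg_right (Pairs_S_card P) (Nat.cast_nonneg _)
    rw [card_product]
    push_cast
    calc (U.card : ℝ) * U.card ≤ (4 * (W : ℝ) ^ 6 * Y) * (4 * (W : ℝ) ^ 6 * Y) :=
          mul_le_mul hUc hUc (Nat.cast_nonneg _) (by positivity)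
      _ = 16 * (W : ℝ) ^ 12 * (Y : ℝ) ^ 2 := by ring

end EMu
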