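import Pool.Agent.EMu.Xc

/-!
# EMu.SameZ: close pairs with the same `z`

Let `z ∈ prm Z`, `(x,y,z), (x',y',z) ∈ Om` with `|cen - cen'| ≤ t ≤ W^(-6)/2`. Then `|x^p + θ y - x'^p - θ y'| ≤ t z^2 ≤ 4 t Z^2`,
hence `|x^p - x'^p + α (y^3 - y'^3)| ≤ T := 4 t Z^2 + 2`. All `x` satisfy `Z^2/2 ≤ x^p ≤ 9 Z^2` (as in Macro), so there are at
most `4 W^6` of them (`x_upper`).
* `x = x'`: `α |y^3 - y'^3| ≤ T` and `|y^3 - y'^3| ≥ 3 Y^2 |y - y'|`, so for given `y` at most `1 + T / (α Y^2)` numbers `y'`.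
* `x ≠ x'`, `y = y'`: impossible, `|x^p - x'^p| ≥ 7 W^(6(p-1)) / 2` (see `x_upper`) but it is `≤ 4 t Z^2 ≤ 2 W^(6(p-1))`.
* `x ≠ x'`, `y ≠ y'`: the nonzero integer `y^3 - y'^3` lies in an interval of length `2 T / α`, so it takes at most
  `2 T / α + 1` values, each for at most `R` pairs `(y, y')`.
-/

set_option autoImplicit false

namespace EMu

open Finset

private theorem SameZ_int {a b : ℝ} (hab : a ≤ b) (G : Finset ℤ) (hG : ∀ x ∈ G, a ≤ (x : ℝ) ∧ (x : ℝ) ≤ b) :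
    (G.card : ℝ) ≤ b - a + 1 := by
  rcases G.eq_empty_or_nonempty with h0 | h0
  · rw [h0, card_empty]
    push_cast
    linarith
  · have h1 : G ⊆ Icc (G.min' h0) (G.max' h0) := fun x hx =>
      mem_Icc.2 ⟨G.min'_le x hx, G.le_max' x hx⟩
    have h2 := card_le_card h1
    rw [Int.card_Icc] at h2
    have h3 := (hG _ (G.min'_mem h0)).1
    have h4 := (hG _ (G.max'_mem h0)).2
    have h5 : (G.min' h0) ≤ G.max' h0 := G.min'_le _ (G.max'_mem h0)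
    have h6 : ((G.card : ℤ) : ℝ) ≤ ((G.max' h0 + 1 - G.min' h0 : ℤ) : ℝ) := by
      have : (G.card : ℤ) ≤ G.max' h0 + 1 - G.min' h0 := by
        have h7 : ((G.max' h0 + 1 - G.min' h0).toNat : ℤ) = G.max' h0 + 1 - G.min' h0 :=
          Int.toNat_of_nonneg (by omega)
        have h8 : (G.card : ℤ) ≤ ((G.max' h0 + 1 - G.min' h0).toNat : ℤ) := by exact_mod_cast h2
        omega
      exact_mod_cast this
    push_cast at h6
    linarith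

private theorem SameZ_nat {a b : ℝ} (hab : a ≤ b) (G : Finset ℕ) (hG : ∀ x ∈ G, a ≤ (x : ℝ) ∧ (x : ℝ) ≤ b) :
    (G.card : ℝ) ≤ b - a + 1 := by
  have h1 := SameZ_int hab (G.map Nat.castEmbedding) (fun x hx => by
    obtain ⟨y, hy, rfl⟩ := mem_map.1 hx
    have := hG y hy
    simpa using this)
  rwa [card_map] at h1

/-- the elements of `Om` -/
private theorem SameZ_om {p : ℕ} {α : ℝ} {θ : ℕ → ℝ} {W Y Z : ℕ} (P : Par p α θ W Y Z) {s : ℕ × ℕ × ℕ}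
    (hs : s ∈ Om p θ Y Z) :
    s.1 ∈ Icc 1 (9 * Z ^ 2) ∧ s.2.1 ∈ Ioc Y (2 * Y) ∧ (W : ℝ) ^ (6 * p) / 2 ≤ (s.1 : ℝ) ^ p ∧
      (s.1 : ℝ) ^ p ≤ 9 * (W : ℝ) ^ (6 * p) := by
  classical
  unfold Om yz prm at hs
  rw [mem_filter, mem_product, mem_product, mem_filter] at hs
  obtain ⟨⟨hx, hy, hzz0, _⟩, hc1, hc2⟩ := hs
  obtain ⟨hz1, hz2⟩ := mem_Ioc.1 hzz0
  refine ⟨hx, hy, ?_⟩
  rw [mem_Ioc] at hy
  have hZW : (Z : ℝ) ^ 2 = (W : ℝ) ^ (6 * p) := by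
    rw [P.hZ]
    push_cast
    rw [← pow_mul]
    congr 1
    ring
  have hZ4 : (4 : ℝ) ≤ Z := by
    have h1 : 2 ^ 2 ≤ Z := by
      rw [P.hZ]
      calc 2 ^ 2 ≤ 2 ^ (3 * p) := Nat.pow_le_pow_right (by norm_num) (by have := P.hp; omega)
        _ ≤ W ^ (3 * p) := Nat.pow_le_pow_left P.hW _
    have : 4 ≤ Z := by omega
    exact_mod_cast this
  have hz0 : (0 : ℝ) < s.2.2 := by
    have : 0 < s.2.2 := by omega
    exact_mod_cast this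
  have hz1' : (Z : ℝ) ≤ s.2.2 := by exact_mod_cast hz1.le
  have hz2' : (s.2.2 : ℝ) ≤ 2 * Z := by exact_mod_cast hz2
  have hy2' : (s.2.1 : ℝ) ≤ 2 * Y := by exact_mod_cast hy.2
  have hθ := abs_le.1 (P.hθ s.2.1)
  have hα := P.hα
  have hy3 : (s.2.1 : ℝ) ^ 3 ≤ 8 * (Y : ℝ) ^ 3 := by
    calc (s.2.1 : ℝ) ^ 3 ≤ (2 * (Y : ℝ)) ^ 3 := pow_le_pow_left₀ (Nat.cast_nonneg _) hy2' 3
      _ = 8 * (Y : ℝ) ^ 3 := by ring
  have hy4 : α * (s.2.1 : ℝ) ^ 3 ≤ (Z : ℝ) ^ 2 / 4 := by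
    have h1 := mul_le_mul_of_nonneg_left hy3 hα.le
    have h2 := P.hY1
    linarith
  have hy5 : 0 ≤ α * (s.2.1 : ℝ) ^ 3 := by positivity
  have hzz : (0 : ℝ) < (s.2.2 : ℝ) ^ 2 := by positivity
  unfold cen at hc1 hc2
  rw [le_div_iff₀ hzz] at hc1
  rw [div_le_iff₀ hzz] at hc2
  have hq1 : (Z : ℝ) ^ 2 ≤ (s.2.2 : ℝ) ^ 2 := pow_le_pow_left₀ (Nat.cast_nonneg _) hz1' 2
  have hq2 : (s.2.2 : ℝ) ^ 2 ≤ 4 * (Z : ℝ) ^ 2 := by
    calc (s.2.2 : ℝ) ^ 2 ≤ (2 * (Z : ℝ)) ^ 2 := pow_le_pow_left₀ hz0.le hz2' 2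
      _ = 4 * (Z : ℝ) ^ 2 := by ring
  have hZ16 : (16 : ℝ) ≤ (Z : ℝ) ^ 2 := by
    calc (16 : ℝ) = 4 ^ 2 := by norm_num
      _ ≤ (Z : ℝ) ^ 2 := pow_le_pow_left₀ (by norm_num) hZ4 2
  rw [← hZW]
  constructor
  · linarith [hθ.2]
  · linarith [hθ.1]

private theorem SameZ_zw {p : ℕ} {α : ℝ} {θ : ℕ → ℝ} {W Y Z : ℕ} (P : Par p α θ W Y Z) :
    (Z : ℝ) ^ 2 = (W : ℝ) ^ (6 * p) := by
  rw [P.hZ]
  push_cast
  rw [← pow_mul]
  congr 1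
  ring

open Classical in
/-- the number of the `x` -/
private theorem SameZ_X {p : ℕ} {α : ℝ} {θ : ℕ → ℝ} {W Y Z : ℕ} (P : Par p α θ W Y Z) :
    ((((Icc 1 (9 * Z ^ 2)).filter (fun x : ℕ => (W : ℝ) ^ (6 * p) / 2 ≤ (x : ℝ) ^ p ∧
      (x : ℝ) ^ p ≤ 9 * (W : ℝ) ^ (6 * p))).card : ℕ) : ℝ) ≤ 4 * (W : ℝ) ^ 6 := by
  have hW := P.hW
  have hW2 : (2 : ℝ) ≤ W := by exact_mod_cast hW
  have hWp : (0 : ℝ) < (W : ℝ) ^ (6 * p) := by positivity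
  have hW6 : (64 : ℝ) ≤ (W : ℝ) ^ 6 := by
    calc (64 : ℝ) = 2 ^ 6 := by norm_num
      _ ≤ (W : ℝ) ^ 6 := pow_le_pow_left₀ (by norm_num) hW2 6
  have h := x_upper P.hp (by omega : 1 ≤ W) (a := (W : ℝ) ^ (6 * p) / 2) (b := 9 * (W : ℝ) ^ (6 * p)) le_rfl
    (by linarith) ((Icc 1 (9 * Z ^ 2)).filter (fun x : ℕ => (W : ℝ) ^ (6 * p) / 2 ≤ (x : ℝ) ^ p ∧
      (x : ℝ) ^ p ≤ 9 * (W : ℝ) ^ (6 * p))) (fun x hx => (mem_filter.1 hx).2)
  refine h.trans ?_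
  have e : (9 * (W : ℝ) ^ (6 * p) - (W : ℝ) ^ (6 * p) / 2) * (W : ℝ) ^ 6 / (3 * (W : ℝ) ^ (6 * p)) =
      17 / 6 * (W : ℝ) ^ 6 := by
    field_simp
    ring
  rw [e]
  linarith

/-- different `x` have powers far apart -/
private theorem SameZ_gap {p : ℕ} {α : ℝ} {θ : ℕ → ℝ} {W Y Z : ℕ} (P : Par p α θ W Y Z) {x x' : ℕ}
    (hne : x ≠ x') (hx : (W : ℝ) ^ (6 * p) / 2 ≤ (x : ℝ) ^ p) (hx' : (W : ℝ) ^ (6 * p) / 2 ≤ (x' : ℝ) ^ p) :
    3 * (W : ℝ) ^ (6 * p) ≤ |(x : ℝ) ^ p - (x' : ℝ) ^ p| * (W : ℝ) ^ 6 := by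
  have hW := P.hW
  have hW2 : (2 : ℝ) ≤ W := by exact_mod_cast hW
  have hWp : (0 : ℝ) < (W : ℝ) ^ (6 * p) := by positivity
  have key : ∀ u v : ℕ, u ≠ v → (W : ℝ) ^ (6 * p) / 2 ≤ (u : ℝ) ^ p → (u : ℝ) ^ p ≤ (v : ℝ) ^ p →
      3 * (W : ℝ) ^ (6 * p) ≤ ((v : ℝ) ^ p - (u : ℝ) ^ p) * (W : ℝ) ^ 6 := by
    intro u v huv hu huv'
    have h := x_upper P.hp (by omega : 1 ≤ W) (a := (u : ℝ) ^ p) (b := (v : ℝ) ^ p) hu huv' {u, v}
      (fun w hw => by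
        rcases mem_insert.1 hw with h1 | h1
        · rw [h1]; exact ⟨le_rfl, huv'⟩
        · rw [mem_singleton.1 h1]; exact ⟨huv', le_rfl⟩)
    rw [card_pair huv] at h
    push_cast at h
    have h2 : 1 ≤ ((v : ℝ) ^ p - (u : ℝ) ^ p) * (W : ℝ) ^ 6 / (3 * (W : ℝ) ^ (6 * p)) := by linarith
    rw [le_div_iff₀ (by positivity)] at h2
    linarith
  rcases le_total ((x : ℝ) ^ p) ((x' : ℝ) ^ p) with h | h
  · have := key x x' hne hx h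
    rwa [abs_sub_comm, abs_of_nonneg (by linarith)]
  · have := key x' x hne.symm hx' h
    rwa [abs_of_nonneg (by linarith)]

open Classical in
theorem same_z {p : ℕ} {α : ℝ} {θ : ℕ → ℝ} {W Y Z : ℕ} (P : Par p α θ W Y Z) {R : ℝ} (hR0 : 0 ≤ R)
    (hR : ∀ D : ℤ, D ≠ 0 → (((Icc 1 (2 * Y) ×ˢ Icc 1 (2 * Y)).filter
      (fun q : ℕ × ℕ => (q.1 : ℤ) ^ 3 - (q.2 : ℤ) ^ 3 = D)).card : ℝ) ≤ R)
    {t : ℝ} (ht0 : 0 ≤ t) (ht : t * (W : ℝ) ^ 6 ≤ 1 / 2) {z : ℕ} (hz : z ∈ prm Z) :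
    (((Om p θ Y Z ×ˢ Om p θ Y Z).filter (fun s => s.1.2.2 = z ∧ s.2.2.2 = z ∧
      |cen p θ s.1 - cen p θ s.2| ≤ t)).card : ℝ) ≤
      4 * (W : ℝ) ^ 6 * (Y * (1 + (4 * t * (Z : ℝ) ^ 2 + 2) / (α * (Y : ℝ) ^ 2))) +
      16 * (W : ℝ) ^ 12 * ((2 * (4 * t * (Z : ℝ) ^ 2 + 2) / α + 1) * R) := by
  obtain ⟨F, hF⟩ : ∃ F, F = (Om p θ Y Z ×ˢ Om p θ Y Z).filter (fun s => s.1.2.2 = z ∧ s.2.2.2 = z ∧
      |cen p θ s.1 - cen p θ s.2| ≤ t) := ⟨_, rfl⟩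
  obtain ⟨X, hX⟩ : ∃ X, X = (Icc 1 (9 * Z ^ 2)).filter (fun x : ℕ => (W : ℝ) ^ (6 * p) / 2 ≤ (x : ℝ) ^ p ∧
      (x : ℝ) ^ p ≤ 9 * (W : ℝ) ^ (6 * p)) := ⟨_, rfl⟩
  obtain ⟨T, hT⟩ : ∃ T, T = 4 * t * (Z : ℝ) ^ 2 + 2 := ⟨_, rfl⟩
  have hXc : (X.card : ℝ) ≤ 4 * (W : ℝ) ^ 6 := by rw [hX]; exact SameZ_X P
  have hα := P.hα
  have hY1 : (1 : ℝ) ≤ Y := by exact_mod_cast P.hY
  have hY0 : (0 : ℝ) < Y := by linarith
  have hT0 : 0 < T := by rw [hT]; positivity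
  rw [← hF, ← hT]
  unfold prm at hz
  rw [mem_filter, mem_Ioc] at hz
  obtain ⟨⟨hz1, hz2⟩, -⟩ := hz
  have hz0 : (0 : ℝ) < z := by
    have : 0 < z := by omega
    exact_mod_cast this
  have hz2' : (z : ℝ) ≤ 2 * Z := by exact_mod_cast hz2
  have hzz : (z : ℝ) ^ 2 ≤ 4 * (Z : ℝ) ^ 2 := by
    calc (z : ℝ) ^ 2 ≤ (2 * (Z : ℝ)) ^ 2 := pow_le_pow_left₀ hz0.le hz2' 2
      _ = 4 * (Z : ℝ) ^ 2 := by ring
  -- the facts on the elements of F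
  have hmem : ∀ s ∈ F, s.1.1 ∈ X ∧ s.2.1 ∈ X ∧ s.1.2.1 ∈ Ioc Y (2 * Y) ∧ s.2.2.1 ∈ Ioc Y (2 * Y) ∧
      s.1.2.2 = z ∧ s.2.2.2 = z ∧
      |((s.1.1 : ℝ) ^ p + θ s.1.2.1) - ((s.2.1 : ℝ) ^ p + θ s.2.2.1)| ≤ 4 * t * (Z : ℝ) ^ 2 := by
    intro s hs
    rw [hF, mem_filter, mem_product] at hs
    obtain ⟨⟨h1, h2⟩, h3, h4, h5⟩ := hs
    obtain ⟨a1, a2, a3, a4⟩ := SameZ_om P h1
    obtain ⟨b1, b2, b3, b4⟩ := SameZ_om P h2
    refine ⟨by rw [hX]; exact mem_filter.2 ⟨a1, a3, a4⟩, by rw [hX]; exact mem_filter.2 ⟨b1, b3, b4⟩,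
      a2, b2, h3, h4, ?_⟩
    have e : ((s.1.1 : ℝ) ^ p + θ s.1.2.1) - ((s.2.1 : ℝ) ^ p + θ s.2.2.1) =
        (cen p θ s.1 - cen p θ s.2) * (z : ℝ) ^ 2 := by
      unfold cen
      rw [h3, h4]
      field_simp
    rw [e, abs_mul, abs_of_nonneg (by positivity : 0 ≤ (z : ℝ) ^ 2)]
    calc |cen p θ s.1 - cen p θ s.2| * (z : ℝ) ^ 2 ≤ t * (4 * (Z : ℝ) ^ 2) :=
          mul_le_mul h5 hzz (by positivity) ht0
      _ = 4 * t * (Z : ℝ) ^ 2 := by ring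
  have hTs : ∀ s ∈ F, |((s.1.1 : ℝ) ^ p - (s.2.1 : ℝ) ^ p) +
      α * ((s.1.2.1 : ℝ) ^ 3 - (s.2.2.1 : ℝ) ^ 3)| ≤ T := by
    intro s hs
    obtain ⟨-, -, -, -, -, -, h⟩ := hmem s hs
    have h1 := abs_le.1 (P.hθ s.1.2.1)
    have h2 := abs_le.1 (P.hθ s.2.2.1)
    rw [abs_le] at h ⊢
    rw [hT]
    constructor <;> linarith [h.1, h.2, h1.1, h1.2, h2.1, h2.2]
  -- split
  have hsplit : (F.card : ℝ) = ((F.filter fun s => s.1.1 = s.2.1).card : ℝ) +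
      ((F.filter fun s => ¬ s.1.1 = s.2.1).card : ℝ) := by
    have := card_filter_add_card_filter_not (s := F) (fun s => s.1.1 = s.2.1)
    exact_mod_cast this.symm
  rw [hsplit]
  refine add_le_add ?_ ?_
  · -- x = x'
    have h1 : ((F.filter fun s => s.1.1 = s.2.1).card : ℝ) =
        ∑ q ∈ X ×ˢ Ioc Y (2 * Y), (((F.filter fun s => s.1.1 = s.2.1).filter
          fun s => (s.1.1, s.1.2.1) = q).card : ℝ) := by
      have := card_eq_sum_card_fiberwise (s := F.filter fun s => s.1.1 = s.2.1)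
        (t := X ×ˢ Ioc Y (2 * Y)) (f := fun s => (s.1.1, s.1.2.1)) (fun s hs => by
          have hs' := hmem s (mem_filter.1 hs).1
          exact mem_product.2 ⟨hs'.1, hs'.2.2.1⟩)
      rw [this]
      push_cast
      rfl
    rw [h1]
    have h2 : ∀ q ∈ X ×ˢ Ioc Y (2 * Y), (((F.filter fun s => s.1.1 = s.2.1).filter
        fun s => (s.1.1, s.1.2.1) = q).card : ℝ) ≤ 1 + T / (α * (Y : ℝ) ^ 2) := by
      rintro ⟨x, y⟩ -
      obtain ⟨G, hG⟩ : ∃ G, G = ((F.filter fun s => s.1.1 = s.2.1).filter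
        fun s => (s.1.1, s.1.2.1) = (x, y)) := ⟨_, rfl⟩
      have hG' : ∀ s ∈ G, s ∈ F ∧ s.1.1 = s.2.1 ∧ s.1.1 = x ∧ s.1.2.1 = y := by
        intro s hs
        rw [hG, mem_filter, mem_filter] at hs
        exact ⟨hs.1.1, hs.1.2, (Prod.mk.inj hs.2).1, (Prod.mk.inj hs.2).2⟩
      rw [← hG]
      have hinj : Set.InjOn (fun s : (ℕ × ℕ × ℕ) × (ℕ × ℕ × ℕ) => s.2.2.1) (G : Set _) := by
        intro s hs s' hs' h
        obtain ⟨a1, a2, a3, a4⟩ := hG' s hs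
        obtain ⟨b1, b2, b3, b4⟩ := hG' s' hs'
        have a5 := hmem s a1
        have b5 := hmem s' b1
        simp only at h
        obtain ⟨⟨s1, s2, s3⟩, ⟨s4, s5, s6⟩⟩ := s
        obtain ⟨⟨r1, r2, r3⟩, ⟨r4, r5, r6⟩⟩ := s'
        simp only at a2 a3 a4 a5 b2 b3 b4 b5 h ⊢
        obtain ⟨-, -, -, -, a6, a7, -⟩ := a5
        obtain ⟨-, -, -, -, b6, b7, -⟩ := b5
        simp only [Prod.mk.injEq]
        omega
      rw [← card_image_of_injOn hinj]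
      have hr : 0 ≤ T / (3 * (α * (Y : ℝ) ^ 2)) := by positivity
      have h3 := SameZ_nat (a := y - T / (3 * (α * (Y : ℝ) ^ 2))) (b := y + T / (3 * (α * (Y : ℝ) ^ 2)))
        (by linarith) (G.image fun s => s.2.2.1) (fun y' hy' => by
          obtain ⟨s, hs, rfl⟩ := mem_image.1 hy'
          obtain ⟨a1, a2, a3, a4⟩ := hG' s hs
          have a5 := hTs s a1
          obtain ⟨-, -, b1, b2, -, -, -⟩ := hmem s a1
          rw [mem_Ioc] at b1 b2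
          have c1 : (Y : ℝ) ≤ s.1.2.1 := by exact_mod_cast b1.1.le
          have c2 : (Y : ℝ) ≤ s.2.2.1 := by exact_mod_cast b2.1.le
          rw [a2, sub_self, zero_add, abs_mul, abs_of_pos hα] at a5
          have e : (s.1.2.1 : ℝ) ^ 3 - (s.2.2.1 : ℝ) ^ 3 = ((s.1.2.1 : ℝ) - s.2.2.1) *
              ((s.1.2.1 : ℝ) ^ 2 + s.1.2.1 * s.2.2.1 + (s.2.2.1 : ℝ) ^ 2) := by ring
          have c3 : 3 * (Y : ℝ) ^ 2 ≤ (s.1.2.1 : ℝ) ^ 2 + s.1.2.1 * s.2.2.1 + (s.2.2.1 : ℝ) ^ 2 := by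
            have d1 := pow_le_pow_left₀ hY0.le c1 2
            have d2 := pow_le_pow_left₀ hY0.le c2 2
            have d3 : (Y : ℝ) * Y ≤ s.1.2.1 * s.2.2.1 := mul_le_mul c1 c2 hY0.le (Nat.cast_nonneg _)
            have d4 : (Y : ℝ) ^ 2 = Y * Y := sq _
            linarith
          rw [e, abs_mul, abs_of_nonneg (by positivity : 0 ≤ (s.1.2.1 : ℝ) ^ 2 + s.1.2.1 * s.2.2.1 +
            (s.2.2.1 : ℝ) ^ 2)] at a5
          have c4 : |(s.1.2.1 : ℝ) - s.2.2.1| * (3 * (α * (Y : ℝ) ^ 2)) ≤ T := by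
            calc |(s.1.2.1 : ℝ) - s.2.2.1| * (3 * (α * (Y : ℝ) ^ 2)) =
                  α * (|(s.1.2.1 : ℝ) - s.2.2.1| * (3 * (Y : ℝ) ^ 2)) := by ring
              _ ≤ α * (|(s.1.2.1 : ℝ) - s.2.2.1| * ((s.1.2.1 : ℝ) ^ 2 + s.1.2.1 * s.2.2.1 +
                  (s.2.2.1 : ℝ) ^ 2)) :=
                mul_le_mul_of_nonneg_left (mul_le_mul_of_nonneg_left c3 (abs_nonneg _)) hα.le
              _ ≤ T := a5
          rw [← le_div_iff₀ (by positivity)] at c4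
          rw [a4, abs_le] at c4
          constructor <;> linarith [c4.1, c4.2])
      have e5 : (y + T / (3 * (α * (Y : ℝ) ^ 2))) - (y - T / (3 * (α * (Y : ℝ) ^ 2))) + 1 =
          1 + 2 / 3 * (T / (α * (Y : ℝ) ^ 2)) := by
        field_simp
        ring
      have h6 : 0 ≤ T / (α * (Y : ℝ) ^ 2) := by positivity
      linarith
    refine (sum_le_sum h2).trans ?_
    rw [sum_const, nsmul_eq_mul, card_product, Nat.card_Ioc]
    have h7 : 0 ≤ 1 + T / (α * (Y : ℝ) ^ 2) := by positivity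
    have e8 : 2 * Y - Y = Y := by omega
    rw [e8]
    push_cast
    have h9 := mul_le_mul_of_nonneg_right hXc (mul_nonneg hY0.le h7)
    calc (X.card : ℝ) * Y * (1 + T / (α * (Y : ℝ) ^ 2)) = X.card * (Y * (1 + T / (α * (Y : ℝ) ^ 2))) := by ring
      _ ≤ _ := h9
  · -- x ≠ x'
    have h1 : ((F.filter fun s => ¬ s.1.1 = s.2.1).card : ℝ) =
        ∑ q ∈ X ×ˢ X, (((F.filter fun s => ¬ s.1.1 = s.2.1).filter
          fun s => (s.1.1, s.2.1) = q).card : ℝ) := by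
      have := card_eq_sum_card_fiberwise (s := F.filter fun s => ¬ s.1.1 = s.2.1)
        (t := X ×ˢ X) (f := fun s => (s.1.1, s.2.1)) (fun s hs => by
          have hs' := hmem s (mem_filter.1 hs).1
          exact mem_product.2 ⟨hs'.1, hs'.2.1⟩)
      rw [this]
      push_cast
      rfl
    rw [h1]
    have h2 : ∀ q ∈ X ×ˢ X, (((F.filter fun s => ¬ s.1.1 = s.2.1).filter
        fun s => (s.1.1, s.2.1) = q).card : ℝ) ≤ (2 * T / α + 1) * R := by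
      rintro ⟨x, x'⟩ -
      obtain ⟨G, hG⟩ : ∃ G, G = ((F.filter fun s => ¬ s.1.1 = s.2.1).filter
        fun s => (s.1.1, s.2.1) = (x, x')) := ⟨_, rfl⟩
      have hG' : ∀ s ∈ G, s ∈ F ∧ s.1.1 ≠ s.2.1 ∧ s.1.1 = x ∧ s.2.1 = x' := by
        intro s hs
        rw [hG, mem_filter, mem_filter] at hs
        exact ⟨hs.1.1, hs.1.2, (Prod.mk.inj hs.2).1, (Prod.mk.inj hs.2).2⟩
      rw [← hG]
      have hD : ∀ s ∈ G, (s.1.2.1 : ℤ) ^ 3 - (s.2.2.1 : ℤ) ^ 3 ≠ 0 := by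
        intro s hs h0
        obtain ⟨a1, a2, a3, a4⟩ := hG' s hs
        obtain ⟨b1, b2, b3, b4, b5, b6, b7⟩ := hmem s a1
        have h3 : (s.1.2.1 : ℤ) ^ 3 = (s.2.2.1 : ℤ) ^ 3 := by linarith
        have h4 : s.1.2.1 = s.2.2.1 := by
          have : s.1.2.1 ^ 3 = s.2.2.1 ^ 3 := by exact_mod_cast h3
          exact Nat.pow_left_injective (by norm_num : (3:ℕ) ≠ 0) this
        rw [hX, mem_filter] at b1 b2
        have h5 := SameZ_gap P a2 b1.2.1 b2.2.1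
        rw [h4, add_sub_add_right_eq_sub] at b7
        have h6 := mul_le_mul_of_nonneg_right b7 (by positivity : 0 ≤ (W : ℝ) ^ 6)
        rw [SameZ_zw P] at h6
        have hW2 : (2 : ℝ) ≤ W := by exact_mod_cast P.hW
        have hWp : (0 : ℝ) < (W : ℝ) ^ (6 * p) := by positivity
        have h7 : 4 * t * (W : ℝ) ^ (6 * p) * (W : ℝ) ^ 6 = 4 * ((t * (W : ℝ) ^ 6) * (W : ℝ) ^ (6 * p)) := by
          ring
        have h8 := mul_le_mul_of_nonneg_right ht hWp.le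
        linarith
      obtain ⟨E, hE⟩ : ∃ E, E = G.image fun s => (s.1.2.1 : ℤ) ^ 3 - (s.2.2.1 : ℤ) ^ 3 := ⟨_, rfl⟩
      have h3 : (G.card : ℝ) = ∑ D ∈ E, ((G.filter fun s =>
          (s.1.2.1 : ℤ) ^ 3 - (s.2.2.1 : ℤ) ^ 3 = D).card : ℝ) := by
        have := card_eq_sum_card_fiberwise (s := G) (t := E)
          (f := fun s => (s.1.2.1 : ℤ) ^ 3 - (s.2.2.1 : ℤ) ^ 3) (fun s hs => by
            rw [hE]
            exact mem_image_of_mem _ hs)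
        rw [this]
        push_cast
        rfl
      have h4 : ∀ D ∈ E, ((G.filter fun s =>
          (s.1.2.1 : ℤ) ^ 3 - (s.2.2.1 : ℤ) ^ 3 = D).card : ℝ) ≤ R := by
        intro D hDE
        have hD0 : D ≠ 0 := by
          rw [hE] at hDE
          obtain ⟨s, hs, rfl⟩ := mem_image.1 hDE
          exact hD s hs
        refine le_trans (Nat.cast_le.2 ?_) (hR D hD0)
        refine card_le_card_of_injOn (fun s => (s.1.2.1, s.2.2.1)) (fun s hs => ?_) ?_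
        · have hs1 := mem_filter.1 (mem_coe.1 hs)
          obtain ⟨a1, a2, a3, a4⟩ := hG' s hs1.1
          obtain ⟨b1, b2, b3, b4, b5, b6, b7⟩ := hmem s a1
          rw [mem_Ioc] at b3 b4
          refine mem_coe.2 (mem_filter.2 ⟨mem_product.2 ⟨mem_Icc.2 ⟨?_, b3.2⟩, mem_Icc.2 ⟨?_, b4.2⟩⟩, hs1.2⟩)
          · show 1 ≤ s.1.2.1
            omega
          · show 1 ≤ s.2.2.1
            omega
        · intro s hs s' hs' h
          obtain ⟨a1, a2, a3, a4⟩ := hG' s (mem_filter.1 (mem_coe.1 hs)).1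
          obtain ⟨b1, b2, b3, b4⟩ := hG' s' (mem_filter.1 (mem_coe.1 hs')).1
          have a5 := hmem s a1
          have b5 := hmem s' b1
          obtain ⟨⟨s1, s2, s3⟩, ⟨s4, s5, s6⟩⟩ := s
          obtain ⟨⟨r1, r2, r3⟩, ⟨r4, r5, r6⟩⟩ := s'
          simp only [Prod.mk.injEq] at a3 a4 a5 b3 b4 b5 h ⊢
          obtain ⟨-, -, -, -, a6, a7, -⟩ := a5
          obtain ⟨-, -, -, -, b6, b7, -⟩ := b5
          omega
      rw [h3]
      refine (sum_le_sum h4).trans ?_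
      rw [sum_const, nsmul_eq_mul]
      refine mul_le_mul_of_nonneg_right ?_ hR0
      have hlen : (-((x : ℝ) ^ p - (x' : ℝ) ^ p) - T) / α ≤ (-((x : ℝ) ^ p - (x' : ℝ) ^ p) + T) / α :=
        div_le_div_of_nonneg_right (by linarith) hα.le
      have h5 := SameZ_int hlen E (fun D hDE => by
        rw [hE] at hDE
        obtain ⟨s, hs, rfl⟩ := mem_image.1 hDE
        obtain ⟨a1, a2, a3, a4⟩ := hG' s hs
        have a5 := hTs s a1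
        rw [a3, a4, abs_le] at a5
        push_cast
        rw [div_le_iff₀ hα, le_div_iff₀ hα]
        constructor <;> linarith [a5.1, a5.2])
      refine h5.trans (le_of_eq ?_)
      rw [div_sub_div_same]
      congr 2
      ring
    refine (sum_le_sum h2).trans ?_
    rw [sum_const, nsmul_eq_mul, card_product]
    have h8 : 0 ≤ (2 * T / α + 1) * R := by positivity
    push_cast
    refine mul_le_mul_of_nonneg_right ?_ h8
    calc (X.card : ℝ) * X.card ≤ (4 * (W : ℝ) ^ 6) * (4 * (W : ℝ) ^ 6) :=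
          mul_le_mul hXc hXc (Nat.cast_nonneg _) (by positivity)
      _ = 16 * (W : ℝ) ^ 12 := by ring

end EMu
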