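import Pool.Agent.EMu.StepDefs

/-!
# EMu.Step: one step of the Cantor construction

Write `K = 4 C / κ` (so `K ≥ 1`), `W(u,v) = wsum A w r u v`, and let `k` be large (depending on the stage). Put
`r' = r k`. For `a ∈ A` the children of `a` are the `i ∈ Γ k` with `a ≤ c i ≤ a + r - r'`, and
`n a` = their number `≥ κ (r - r') #Γ k ≥ (κ/2) r #Γ k > 0` (`h2` for the interval `[a, a + r - r/2]`, or for
`[a, a + r/2]`, which does not depend on `k`; this is the place where `k` has to be large in dependence of the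
finitely many `a ∈ A`). New stage: `A' = ` image under `c` of the children of all `a ∈ A`,
`w' b = ∑ a ∈ A, w a * #{i child of a | c i = b} / n a`.

Then for all `u, v`: `W'(u,v) = ∑ a ∈ A, w a * #{i child of a | u - r' ≤ c i ≤ v} / n a`.
* total weight `1`; nonnegative;
* `W'(u,v) ≤ W(u,v)`: if the number of children in `[u - r', v]` is nonzero then `u - r ≤ a ≤ v`;
* for `r' ≤ v - u ≤ r`: only `a` with `u - r ≤ a ≤ v` contribute, their weight is
  `W(u,v) ≤ W(u, u + r) ≤ B r^s1`; and `#{i ∈ Γ k | u - r' ≤ c i ≤ v} ≤ C (2 (v - u)) #Γ k` if `v - u + r' ≥ ρ k`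
  (by `h1`), resp. `≤ C (2 (v - u))^s #Γ k` if `v - u + r' ≤ ρ k` (by `h3`). In the first case
  `W'(u,v) ≤ (4C/κ) B r^(s1 - 1) (v - u) ≤ K B (v - u)^s1` because `s1 ≤ 1`, `v - u ≤ r`. In the second case
  `W'(u,v) ≤ (4C/κ) B r^(s1-1) (v - u)^s ≤ K B (v - u)^s1` because `(v - u)^(s - s1) ≤ (ρ k)^(s - s1) ≤ r^(1 - s1)` for
  large `k` (`ρ k → 0`, `s1 < s`).
* hence `P` for the new stage with `B' = K B`: for `v - u ≥ r` from `W' ≤ W`, otherwise from the previous item;
* for `r' ≤ v - u ≤ r`: `W'(u,v) ≤ K B (v - u)^s1 ≤ K B r^(s1 - s2) (v - u)^s2 ≤ C0 (v - u)^s2`;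
* `K B' (r k)^(s1 - s2) ≤ C0` for large `k`.
-/

set_option autoImplicit false

namespace EMu

open Finset Filter Topology

variable {ι : Type} {Γ : ℕ → Finset ι} {c : ι → ℝ} {r ρ : ℕ → ℝ} {C κ s : ℝ}

/-- the children of the interval with left end point `a` -/
private noncomputable def Step_ch (Γk : Finset ι) (c : ι → ℝ) (R a : ℝ) : Finset ι :=
  Γk.filter (fun i => a ≤ c i ∧ c i ≤ a + R / 2)

private theorem Step_mem {Γk : Finset ι} {R a : ℝ} {i : ι} :
    i ∈ Step_ch Γk c R a ↔ i ∈ Γk ∧ a ≤ c i ∧ c i ≤ a + R / 2 := by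
  simp [Step_ch]

private noncomputable def Step_A (A : Finset ℝ) (Γk : Finset ι) (c : ι → ℝ) (R : ℝ) : Finset ℝ :=
  A.biUnion (fun a => (Step_ch Γk c R a).image c)

private noncomputable def Step_w (A : Finset ℝ) (w : ℝ → ℝ) (Γk : Finset ι) (c : ι → ℝ) (R : ℝ) (b : ℝ) : ℝ :=
  ∑ a ∈ A, w a * ((((Step_ch Γk c R a).filter (fun i => c i = b)).card : ℝ) / ((Step_ch Γk c R a).card : ℝ))

private theorem Step_sum (A : Finset ℝ) (w : ℝ → ℝ) (Γk : Finset ι) (R : ℝ) (p : ℝ → Prop) [DecidablePred p] :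
    ∑ b ∈ (Step_A A Γk c R).filter p, Step_w A w Γk c R b
      = ∑ a ∈ A, w a * ((((Step_ch Γk c R a).filter (fun i => p (c i))).card : ℝ)
          / ((Step_ch Γk c R a).card : ℝ)) := by
  unfold Step_w
  rw [Finset.sum_comm]
  refine Finset.sum_congr rfl fun a ha => ?_
  rw [← Finset.mul_sum, ← Finset.sum_div]
  congr 2
  have h := Finset.card_eq_sum_card_fiberwise (f := c) (s := (Step_ch Γk c R a).filter (fun i => p (c i)))
    (t := (Step_A A Γk c R).filter p) (by
      intro i hi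
      rw [Finset.mem_coe, Finset.mem_filter] at hi
      rw [Finset.mem_coe, Finset.mem_filter]
      refine ⟨?_, hi.2⟩
      exact Finset.mem_biUnion.2 ⟨a, ha, Finset.mem_image.2 ⟨i, hi.1, rfl⟩⟩)
  rw [h]
  push_cast
  refine Finset.sum_congr rfl fun b hb => ?_
  congr 2
  ext i
  simp only [Finset.mem_filter]
  constructor
  · rintro ⟨h1, h2⟩
    refine ⟨⟨h1, ?_⟩, h2⟩
    rw [h2]
    exact (Finset.mem_filter.1 hb).2
  · rintro ⟨⟨h1, _⟩, h2⟩
    exact ⟨h1, h2⟩

theorem step (F : Fam Γ c r ρ C κ s) (hC : 1 ≤ C) (hκ : 0 < κ) (hκ1 : κ ≤ 1) {s1 s2 : ℝ} (h2 : 0 < s2)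
    (h21 : s2 < s1) (h1s : s1 < s) (hs : s ≤ 1) {A : Finset ℝ} {w : ℝ → ℝ} {R B C0 : ℝ} (hC0 : 0 < C0)
    (S : Stg A w R B (4 * C / κ) C0 s1 s2) (N : ℕ) :
    ∃ k : ℕ, N ≤ k ∧ ∃ (A' : Finset ℝ) (w' : ℝ → ℝ), Stg A' w' (r k) (4 * C / κ * B) (4 * C / κ) C0 s1 s2 ∧
      r k ≤ R / 2 ∧ (∀ a ∈ A', ∃ b ∈ A, b ≤ a ∧ a + r k ≤ b + R) ∧ (∀ a ∈ A', ∃ i ∈ Γ k, c i = a) ∧
      (∀ u v : ℝ, wsum A' w' (r k) u v ≤ wsum A w R u v) ∧
      (∀ u v : ℝ, r k ≤ v - u → v - u ≤ R → wsum A' w' (r k) u v ≤ C0 * (v - u) ^ s2) := by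
  have hR : 0 < R := S.hr
  have hK1 : 1 ≤ 4 * C / κ := by
    rw [le_div_iff₀ hκ]
    linarith
  have hK0 : 0 < 4 * C / κ := by linarith
  have hB0 : 0 < B := lt_of_lt_of_le one_pos S.hB1
  -- the scale
  have e1 : ∀ᶠ k in atTop, r k ≤ R / 2 := F.hr0.eventually_le_const (by positivity)
  have e5 : ∀ᶠ k in atTop, ∀ a ∈ A, κ * (R / 2) * (Γ k).card ≤ ((Step_ch (Γ k) c R a).card : ℝ) := by
    rw [Filter.eventually_all_finset]
    intro a ha
    have h1 := S.hA a ha
    filter_upwards [F.h2 a (a + R / 2) h1.1 (by linarith) (by linarith)] with k hk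
    have h3 : a + R / 2 - a = R / 2 := by ring
    rw [h3] at hk
    exact hk
  have e6 : ∀ᶠ k in atTop, (ρ k) ^ (s - s1) ≤ R ^ (1 - s1) := by
    have h1 : Tendsto (fun k => (ρ k) ^ (s - s1)) atTop (𝓝 (0 ^ (s - s1))) :=
      F.hρ0.rpow_const (Or.inr (by linarith))
    rw [Real.zero_rpow (by linarith)] at h1
    exact h1.eventually_le_const (Real.rpow_pos_of_pos hR _)
  have e7 : ∀ᶠ k in atTop, 4 * C / κ * (4 * C / κ * B) * (r k) ^ (s1 - s2) ≤ C0 := by
    have h1 : Tendsto (fun k => 4 * C / κ * (4 * C / κ * B) * (r k) ^ (s1 - s2)) atTop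
        (𝓝 (4 * C / κ * (4 * C / κ * B) * 0 ^ (s1 - s2))) :=
      (F.hr0.rpow_const (Or.inr (by linarith))).const_mul _
    rw [Real.zero_rpow (by linarith), mul_zero] at h1
    exact h1.eventually_le_const hC0
  obtain ⟨k, hkN, k1, k2, k3, k4, k5, k6, k7⟩ :=
    ((eventually_ge_atTop N).and (e1.and (F.hne.and (F.h1.and (F.h3.and (e5.and (e6.and e7))))))).exists
  have hr' : 0 < r k := F.hr k
  have hG : (0 : ℝ) < (Γ k).card := by
    exact_mod_cast Finset.card_pos.2 k2
  have hn : ∀ a ∈ A, (0 : ℝ) < ((Step_ch (Γ k) c R a).card : ℝ) := fun a ha =>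
    lt_of_lt_of_le (by positivity) (k5 a ha)
  have hratio : ∀ a ∈ A, ∀ (p : ι → Prop) [DecidablePred p],
      (((Step_ch (Γ k) c R a).filter p).card : ℝ) / ((Step_ch (Γ k) c R a).card : ℝ) ≤ 1 := by
    intro a ha p _
    rw [div_le_one (hn a ha)]
    exact_mod_cast Finset.card_filter_le _ _
  -- the weights of the new stage
  have hW' : ∀ u v : ℝ, wsum (Step_A A (Γ k) c R) (Step_w A w (Γ k) c R) (r k) u v
      = ∑ a ∈ A, w a * ((((Step_ch (Γ k) c R a).filter (fun i => u - r k ≤ c i ∧ c i ≤ v)).card : ℝ)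
          / ((Step_ch (Γ k) c R a).card : ℝ)) := fun u v =>
    Step_sum A w (Γ k) R (fun b => u - r k ≤ b ∧ b ≤ v)
  -- only the intervals meeting [u, v] contribute
  have hzero : ∀ u v : ℝ, ∀ a ∈ A, ¬ (u - R ≤ a ∧ a ≤ v) →
      ((Step_ch (Γ k) c R a).filter (fun i => u - r k ≤ c i ∧ c i ≤ v)).card = 0 := by
    intro u v a ha hna
    rw [Finset.card_eq_zero, Finset.filter_eq_empty_iff]
    intro i hi hc
    rw [Step_mem] at hi
    apply hna
    constructor <;> linarith [hi.2.1, hi.2.2, hc.1, hc.2]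
  have hsub : ∀ u v : ℝ, wsum (Step_A A (Γ k) c R) (Step_w A w (Γ k) c R) (r k) u v
      = ∑ a ∈ A.filter (fun a => u - R ≤ a ∧ a ≤ v),
        w a * ((((Step_ch (Γ k) c R a).filter (fun i => u - r k ≤ c i ∧ c i ≤ v)).card : ℝ)
          / ((Step_ch (Γ k) c R a).card : ℝ)) := by
    intro u v
    rw [hW', Finset.sum_filter]
    refine Finset.sum_congr rfl fun a ha => ?_
    split_ifs with h
    · rfl
    · rw [hzero u v a ha h]
      simp
  have hle : ∀ u v : ℝ, wsum (Step_A A (Γ k) c R) (Step_w A w (Γ k) c R) (r k) u v ≤ wsum A w R u v := by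
    intro u v
    rw [hsub]
    refine Finset.sum_le_sum fun a ha => ?_
    have haA := (Finset.mem_filter.1 ha).1
    exact mul_le_of_le_one_right (S.hw a haA) (hratio a haA _)
  have hcard : ∀ u v : ℝ, wsum (Step_A A (Γ k) c R) (Step_w A w (Γ k) c R) (r k) u v
      ≤ wsum A w R u v * ((((Γ k).filter (fun i => u - r k ≤ c i ∧ c i ≤ v)).card : ℝ)
          / (κ * (R / 2) * (Γ k).card)) := by
    intro u v
    rw [hsub]
    unfold wsum
    rw [Finset.sum_mul]
    refine Finset.sum_le_sum fun a ha => ?_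
    have haA := (Finset.mem_filter.1 ha).1
    refine mul_le_mul_of_nonneg_left ?_ (S.hw a haA)
    refine div_le_div₀ (by positivity) ?_ (by positivity) (k5 a haA)
    have : (Step_ch (Γ k) c R a).filter (fun i => u - r k ≤ c i ∧ c i ≤ v)
        ⊆ (Γ k).filter (fun i => u - r k ≤ c i ∧ c i ≤ v) :=
      Finset.filter_subset_filter _ (Finset.filter_subset _ _)
    exact_mod_cast Finset.card_le_card this
  have hWR : ∀ u v : ℝ, v - u ≤ R → wsum A w R u v ≤ B * R ^ s1 := by
    intro u v huv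
    have h1 : wsum A w R u v ≤ wsum A w R u (u + R) := by
      unfold wsum
      refine Finset.sum_le_sum_of_subset_of_nonneg ?_ fun a ha _ => S.hw a (Finset.mem_filter.1 ha).1
      intro a ha
      rw [Finset.mem_filter] at ha ⊢
      exact ⟨ha.1, ha.2.1, by linarith [ha.2.2]⟩
    have h3 := S.hP u (u + R) (by linarith)
    have h4 : u + R - u = R := by ring
    rw [h4] at h3
    exact h1.trans h3
  have hmid : ∀ u v : ℝ, r k ≤ v - u → v - u ≤ R →
      wsum (Step_A A (Γ k) c R) (Step_w A w (Γ k) c R) (r k) u v ≤ 4 * C / κ * B * (v - u) ^ s1 := by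
    intro u v hru huR
    have hd : 0 < v - u := lt_of_lt_of_le hr' hru
    -- the count
    have hcnt : (((Γ k).filter (fun i => u - r k ≤ c i ∧ c i ≤ v)).card : ℝ)
        ≤ 2 * C * (R ^ (1 - s1) * (v - u) ^ s1) * (Γ k).card := by
      rcases le_total (ρ k) (v - (u - r k)) with h | h
      · refine (k3 (u - r k) v h).trans ?_
        refine mul_le_mul_of_nonneg_right ?_ hG.le
        have h5 : v - u ≤ R ^ (1 - s1) * (v - u) ^ s1 := by
          have h6 : v - u = (v - u) ^ (1 - s1) * (v - u) ^ s1 := by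
            rw [← Real.rpow_add hd]
            simp
          calc v - u = (v - u) ^ (1 - s1) * (v - u) ^ s1 := h6
            _ ≤ R ^ (1 - s1) * (v - u) ^ s1 :=
              mul_le_mul_of_nonneg_right (Real.rpow_le_rpow hd.le huR (by linarith))
                (Real.rpow_nonneg hd.le _)
        have h7 : v - (u - r k) ≤ 2 * (v - u) := by linarith
        calc C * (v - (u - r k)) ≤ C * (2 * (v - u)) := mul_le_mul_of_nonneg_left h7 (by linarith)
          _ ≤ C * (2 * (R ^ (1 - s1) * (v - u) ^ s1)) := by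
            refine mul_le_mul_of_nonneg_left ?_ (by linarith)
            linarith
          _ = 2 * C * (R ^ (1 - s1) * (v - u) ^ s1) := by ring
      · refine (k4 (u - r k) v (by linarith) h).trans ?_
        refine mul_le_mul_of_nonneg_right ?_ hG.le
        have hs0 : 0 < s := by linarith
        have h7 : v - (u - r k) ≤ 2 * (v - u) := by linarith
        have h8 : (v - (u - r k)) ^ s ≤ 2 * (v - u) ^ s := by
          calc (v - (u - r k)) ^ s ≤ (2 * (v - u)) ^ s :=
                Real.rpow_le_rpow (by linarith) h7 hs0.le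
            _ = 2 ^ s * (v - u) ^ s := Real.mul_rpow (by norm_num) hd.le
            _ ≤ 2 * (v - u) ^ s := by
              refine mul_le_mul_of_nonneg_right ?_ (Real.rpow_nonneg hd.le _)
              calc (2 : ℝ) ^ s ≤ 2 ^ (1 : ℝ) := Real.rpow_le_rpow_of_exponent_le (by norm_num) hs
                _ = 2 := Real.rpow_one 2
        have h9 : (v - u) ^ s ≤ R ^ (1 - s1) * (v - u) ^ s1 := by
          have h10 : (v - u) ^ s = (v - u) ^ (s - s1) * (v - u) ^ s1 := by
            rw [← Real.rpow_add hd]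
            congr 1
            ring
          rw [h10]
          refine mul_le_mul_of_nonneg_right ?_ (Real.rpow_nonneg hd.le _)
          refine (Real.rpow_le_rpow hd.le ?_ (by linarith)).trans k6
          linarith
        calc C * (v - (u - r k)) ^ s ≤ C * (2 * (v - u) ^ s) := mul_le_mul_of_nonneg_left h8 (by linarith)
          _ ≤ C * (2 * (R ^ (1 - s1) * (v - u) ^ s1)) := by
            refine mul_le_mul_of_nonneg_left ?_ (by linarith)
            linarith
          _ = 2 * C * (R ^ (1 - s1) * (v - u) ^ s1) := by ring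
    have hX : 0 ≤ (((Γ k).filter (fun i => u - r k ≤ c i ∧ c i ≤ v)).card : ℝ) / (κ * (R / 2) * (Γ k).card) := by
      positivity
    calc wsum (Step_A A (Γ k) c R) (Step_w A w (Γ k) c R) (r k) u v
        ≤ wsum A w R u v * ((((Γ k).filter (fun i => u - r k ≤ c i ∧ c i ≤ v)).card : ℝ)
          / (κ * (R / 2) * (Γ k).card)) := hcard u v
      _ ≤ (B * R ^ s1) * ((2 * C * (R ^ (1 - s1) * (v - u) ^ s1) * (Γ k).card)
          / (κ * (R / 2) * (Γ k).card)) := by
        refine mul_le_mul (hWR u v huR) ?_ hX (by positivity)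
        exact div_le_div_of_nonneg_right hcnt (by positivity)
      _ = 4 * C / κ * B * ((R ^ s1 * R ^ (1 - s1)) / R) * (v - u) ^ s1 := by
        field_simp
        ring
      _ = 4 * C / κ * B * (v - u) ^ s1 := by
        rw [← Real.rpow_add hR]
        have : s1 + (1 - s1) = 1 := by ring
        rw [this, Real.rpow_one, div_self hR.ne', mul_one]
  refine ⟨k, hkN, Step_A A (Γ k) c R, Step_w A w (Γ k) c R, ⟨hr', ?_, ?_, ?_, ?_, ?_, ?_, k7⟩, k1, ?_, ?_,
    hle, ?_⟩
  · linarith [S.hr1]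
  · intro b hb
    obtain ⟨a, ha, hb⟩ := Finset.mem_biUnion.1 hb
    obtain ⟨i, hi, rfl⟩ := Finset.mem_image.1 hb
    rw [Step_mem] at hi
    have h3 := S.hA a ha
    constructor <;> linarith [hi.2.1, hi.2.2]
  · intro b hb
    unfold Step_w
    refine Finset.sum_nonneg fun a ha => mul_nonneg (S.hw a ha) (by positivity)
  · have h3 := Step_sum (c := c) A w (Γ k) R (fun _ => True)
    rw [Finset.filter_true] at h3
    rw [h3, ← S.hsum]
    refine Finset.sum_congr rfl fun a ha => ?_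
    rw [Finset.filter_true, div_self (hn a ha).ne', mul_one]
  · intro u v huv
    rcases le_total (v - u) R with h | h
    · exact hmid u v huv h
    · refine (hle u v).trans ((S.hP u v h).trans ?_)
      refine mul_le_mul_of_nonneg_right ?_ (Real.rpow_nonneg (by linarith) _)
      exact le_mul_of_one_le_left hB0.le hK1
  · exact one_le_mul_of_one_le_of_one_le hK1 S.hB1
  · intro b hb
    obtain ⟨a, ha, hb⟩ := Finset.mem_biUnion.1 hb
    obtain ⟨i, hi, rfl⟩ := Finset.mem_image.1 hb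
    rw [Step_mem] at hi
    exact ⟨a, ha, hi.2.1, by linarith [hi.2.2]⟩
  · intro b hb
    obtain ⟨a, ha, hb⟩ := Finset.mem_biUnion.1 hb
    obtain ⟨i, hi, rfl⟩ := Finset.mem_image.1 hb
    rw [Step_mem] at hi
    exact ⟨i, hi.1, rfl⟩
  · intro u v huv huR
    have hd : 0 < v - u := lt_of_lt_of_le hr' huv
    refine (hmid u v huv huR).trans ?_
    have h10 : (v - u) ^ s1 = (v - u) ^ (s1 - s2) * (v - u) ^ s2 := by
      rw [← Real.rpow_add hd]
      congr 1
      ring
    rw [h10, ← mul_assoc]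
    refine mul_le_mul_of_nonneg_right ?_ (Real.rpow_nonneg hd.le _)
    refine le_trans ?_ S.hB
    refine mul_le_mul_of_nonneg_left (Real.rpow_le_rpow hd.le huR (by linarith)) (by positivity)

end EMu
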