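import Pool.Agent.EMu.Basic

/-!
# EMu.StepDefs: families of intervals and stages of the Cantor construction

`Fam Γ c r ρ C κ s`: for the scale `k` the intervals are `[c i, c i + r k]`, `i ∈ Γ k`; the points `c i` are
equidistributed in intervals of length at least `ρ k` (upper bound `h1`), in every fixed interval for large `k` (lower
bound `h2`), and an interval of length between `r k` and `ρ k` contains at most the proportion `C (v - u)^s` of them.

`Stg A w r B K C0 s1 s2`: a stage of the construction, a probability distribution `w` on a finite set `A` of left endpoints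
of intervals of length `r` in `[1, 2]`; `wsum A w r u v` is the total weight of the intervals which meet `[u, v]`.
-/

set_option autoImplicit false

namespace EMu

open Finset Filter Topology

structure Fam {ι : Type} (Γ : ℕ → Finset ι) (c : ι → ℝ) (r ρ : ℕ → ℝ) (C κ s : ℝ) : Prop where
  hr : ∀ k, 0 < r k
  hr0 : Tendsto r atTop (𝓝 0)
  hρ0 : Tendsto ρ atTop (𝓝 0)
  hne : ∀ᶠ k in atTop, (Γ k).Nonempty
  h1 : ∀ᶠ k in atTop, ∀ u v : ℝ, ρ k ≤ v - u →
    (((Γ k).filter (fun i => u ≤ c i ∧ c i ≤ v)).card : ℝ) ≤ C * (v - u) * (Γ k).card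
  h2 : ∀ u v : ℝ, 1 ≤ u → u < v → v ≤ 2 → ∀ᶠ k in atTop,
    κ * (v - u) * (Γ k).card ≤ (((Γ k).filter (fun i => u ≤ c i ∧ c i ≤ v)).card : ℝ)
  h3 : ∀ᶠ k in atTop, ∀ u v : ℝ, r k ≤ v - u → v - u ≤ ρ k →
    (((Γ k).filter (fun i => u ≤ c i ∧ c i ≤ v)).card : ℝ) ≤ C * (v - u) ^ s * (Γ k).card

/-- the total weight of the intervals `[a, a + r]`, `a ∈ A`, which meet `[u, v]` -/
noncomputable def wsum (A : Finset ℝ) (w : ℝ → ℝ) (r u v : ℝ) : ℝ :=
  ∑ a ∈ A.filter (fun a => u - r ≤ a ∧ a ≤ v), w a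

structure Stg (A : Finset ℝ) (w : ℝ → ℝ) (r B K C0 s1 s2 : ℝ) : Prop where
  hr : 0 < r
  hr1 : r ≤ 1
  hA : ∀ a ∈ A, 1 ≤ a ∧ a + r ≤ 2
  hw : ∀ a ∈ A, 0 ≤ w a
  hsum : ∑ a ∈ A, w a = 1
  hP : ∀ u v : ℝ, r ≤ v - u → wsum A w r u v ≤ B * (v - u) ^ s1
  hB1 : 1 ≤ B
  hB : K * B * r ^ (s1 - s2) ≤ C0

end EMu
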