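import Pool.Agent.EMu.Basic

/-!
# EMu.Xc: the number of `x` with `x^p` in an interval

Here `X = W^6`, `Z^2 = W^(6p) = X^p`. Upper bound: if `x < x'` are in `S` then
`x'^p - x^p ≥ p x^(p-1) (x' - x)` and `x^p ≥ X^p / 2` gives `x^(p-1) ≥ X^(p-1) / 2` (if `x ≥ X` clear, if `x < X` then
`x^(p-1) = x^p / x ≥ X^p / (2 X)`), so `(max - min) * (7/2) X^(p-1) ≤ b - a`.
Lower bound: let `x1` be the largest natural number with `x1^p ≤ b` and `x0` the least with `a ≤ x0^p`. Then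
`(x1+1)^p > b`, `(x0-1)^p < a`, and `(x1+1)^p - (x0-1)^p ≤ p (x1+1)^(p-1) (x1 - x0 + 2)`. From `x1^p ≤ 9 X^p` and `p ≤ X`:
`(x1+1)^(p-1) ≤ 99 X^(p-1)` (for instance: if `x1 < X` then `(x1+1)^(p-1) ≤ X^(p-1)`; otherwise
`(1 + 1/x1)^(p-1) ≤ (1+1/p)^p ≤ e < 3` and `x1^(p-1) = x1^p / x1 ≤ 9 X^(p-1)`).
-/

set_option autoImplicit false

namespace EMu

open Finset

theorem Xc_pow_sub_ge (n : ℕ) {u v : ℝ} (hu : 0 ≤ u) (huv : u ≤ v) :
    ((n : ℝ) + 1) * u ^ n * (v - u) ≤ v ^ (n + 1) - u ^ (n + 1) := by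
  induction n with
  | zero => simp
  | succ n ih =>
    have h1 : u * (((n : ℝ) + 1) * u ^ n * (v - u)) ≤ v * (v ^ (n + 1) - u ^ (n + 1)) := by
      have h2 : 0 ≤ ((n : ℝ) + 1) * u ^ n * (v - u) := by
        have : 0 ≤ v - u := sub_nonneg.2 huv
        positivity
      exact mul_le_mul huv ih h2 (hu.trans huv)
    have h3 : v ^ (n + 1 + 1) - u ^ (n + 1 + 1) = v * (v ^ (n + 1) - u ^ (n + 1)) + u ^ (n + 1) * (v - u) := by ring
    rw [h3]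
    push_cast
    have h4 : ((n : ℝ) + 1 + 1) * u ^ (n + 1) * (v - u) =
        u * (((n : ℝ) + 1) * u ^ n * (v - u)) + u ^ (n + 1) * (v - u) := by ring
    rw [h4]
    linarith

theorem Xc_pow_sub_le (n : ℕ) {u v : ℝ} (hu : 0 ≤ u) (huv : u ≤ v) :
    v ^ (n + 1) - u ^ (n + 1) ≤ ((n : ℝ) + 1) * v ^ n * (v - u) := by
  induction n with
  | zero => simp
  | succ n ih =>
    have hv : 0 ≤ v := hu.trans huv
    have hd : 0 ≤ v - u := sub_nonneg.2 huv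
    have h1 : v * (v ^ (n + 1) - u ^ (n + 1)) ≤ v * (((n : ℝ) + 1) * v ^ n * (v - u)) :=
      mul_le_mul_of_nonneg_left ih hv
    have h2 : u ^ (n + 1) * (v - u) ≤ v ^ (n + 1) * (v - u) :=
      mul_le_mul_of_nonneg_right (pow_le_pow_left₀ hu huv _) hd
    have h3 : v ^ (n + 1 + 1) - u ^ (n + 1 + 1) = v * (v ^ (n + 1) - u ^ (n + 1)) + u ^ (n + 1) * (v - u) := by ring
    rw [h3]
    push_cast
    have h4 : ((n : ℝ) + 1 + 1) * v ^ (n + 1) * (v - u) =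
        v * (((n : ℝ) + 1) * v ^ n * (v - u)) + v ^ (n + 1) * (v - u) := by ring
    rw [h4]
    linarith

theorem x_upper {p W : ℕ} (hp : 7 ≤ p) (hW : 1 ≤ W) {a b : ℝ} (ha : (W : ℝ) ^ (6 * p) / 2 ≤ a) (hab : a ≤ b)
    (S : Finset ℕ) (hS : ∀ x ∈ S, a ≤ (x : ℝ) ^ p ∧ (x : ℝ) ^ p ≤ b) :
    (S.card : ℝ) ≤ (b - a) * (W : ℝ) ^ 6 / (3 * (W : ℝ) ^ (6 * p)) + 1 := by
  have hW0 : (0 : ℝ) < W := by exact_mod_cast hW
  obtain ⟨q, rfl⟩ : ∃ q, p = q + 1 := ⟨p - 1, by omega⟩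
  set X : ℝ := (W : ℝ) ^ 6 with hX
  have hX0 : 0 < X := by positivity
  have hXp : (W : ℝ) ^ (6 * (q + 1)) = X ^ q * X := by
    rw [pow_mul, ← hX, pow_succ]
  rw [hXp] at ha ⊢
  have hba : 0 ≤ b - a := sub_nonneg.2 hab
  rcases S.eq_empty_or_nonempty with h | h
  · rw [h]
    simp only [card_empty, Nat.cast_zero]
    positivity
  · have hm0 := S.min'_mem h
    have hm1 := S.max'_mem h
    set x0 := S.min' h
    set x1 := S.max' h
    have h01 : x0 ≤ x1 := S.min'_le _ hm1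
    have hsub : S ⊆ Icc x0 x1 := fun x hx => mem_Icc.2 ⟨S.min'_le _ hx, S.le_max' _ hx⟩
    have hcard : S.card ≤ x1 + 1 - x0 := by
      have := card_le_card hsub
      rwa [Nat.card_Icc] at this
    have hcardR : (S.card : ℝ) ≤ ((x1 : ℝ) - x0) + 1 := by
      have h2 : S.card + x0 ≤ x1 + 1 := by omega
      have h3 : (S.card : ℝ) + x0 ≤ x1 + 1 := by exact_mod_cast h2
      linarith
    have h01R : (x0 : ℝ) ≤ x1 := by exact_mod_cast h01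
    have hge := Xc_pow_sub_ge q (Nat.cast_nonneg x0 : (0 : ℝ) ≤ x0) h01R
    have hx0a := (hS x0 hm0).1
    have hx1b := (hS x1 hm1).2
    have hlow : X ^ q / 2 ≤ (x0 : ℝ) ^ q := by
      rcases le_or_gt X (x0 : ℝ) with hc | hc
      · have := pow_le_pow_left₀ hX0.le hc q
        have h5 : 0 < X ^ q := by positivity
        linarith
      · have h6 : X ^ q * X / 2 ≤ (x0 : ℝ) ^ q * x0 := by
          rw [← pow_succ (x0 : ℝ)]
          exact ha.trans hx0a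
        have h7 : (x0 : ℝ) ^ q * x0 ≤ (x0 : ℝ) ^ q * X :=
          mul_le_mul_of_nonneg_left hc.le (by positivity)
        have h8 : (X ^ q / 2) * X ≤ (x0 : ℝ) ^ q * X := by linarith
        exact le_of_mul_le_mul_right h8 hX0
    have hd : 0 ≤ (x1 : ℝ) - x0 := sub_nonneg.2 h01R
    have hq : (6 : ℝ) ≤ q := by
      have : 6 ≤ q := by omega
      exact_mod_cast this
    have hmain : ((x1 : ℝ) - x0) * (3 * X ^ q) ≤ b - a := by
      have h9 : 3 * X ^ q ≤ ((q : ℝ) + 1) * (x0 : ℝ) ^ q := by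
        have h10 : (6 : ℝ) * (X ^ q / 2) ≤ ((q : ℝ) + 1) * (x0 : ℝ) ^ q :=
          mul_le_mul (by linarith) hlow (by positivity) (by positivity)
        linarith
      have h11 := mul_le_mul_of_nonneg_left h9 hd
      calc ((x1 : ℝ) - x0) * (3 * X ^ q) ≤ ((x1 : ℝ) - x0) * (((q : ℝ) + 1) * (x0 : ℝ) ^ q) := h11
        _ = ((q : ℝ) + 1) * (x0 : ℝ) ^ q * ((x1 : ℝ) - x0) := by ring
        _ ≤ (x1 : ℝ) ^ (q + 1) - (x0 : ℝ) ^ (q + 1) := hge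
        _ ≤ b - a := by linarith
    have hfin : (x1 : ℝ) - x0 ≤ (b - a) * X / (3 * (X ^ q * X)) := by
      rw [le_div_iff₀ (by positivity)]
      calc ((x1 : ℝ) - x0) * (3 * (X ^ q * X)) = (((x1 : ℝ) - x0) * (3 * X ^ q)) * X := by ring
        _ ≤ (b - a) * X := mul_le_mul_of_nonneg_right hmain hX0.le
    linarith

open Classical in
theorem x_lower {p W : ℕ} (hp : 7 ≤ p) (hW : 1 ≤ W) (hpW : p ≤ W ^ 6) {a b : ℝ}
    (ha : (W : ℝ) ^ (6 * p) / 2 ≤ a) (hab : a ≤ b) (hb : b ≤ 9 * (W : ℝ) ^ (6 * p)) :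
    (b - a) * (W : ℝ) ^ 6 / (100 * p * (W : ℝ) ^ (6 * p)) - 1 ≤
      (((Icc 1 (9 * W ^ (6 * p))).filter (fun x : ℕ => a ≤ (x : ℝ) ^ p ∧ (x : ℝ) ^ p ≤ b)).card : ℝ) := by
  have hW0 : (0 : ℝ) < W := by exact_mod_cast hW
  obtain ⟨q, rfl⟩ : ∃ q, p = q + 1 := ⟨p - 1, by omega⟩
  have hXpN : (((9 * W ^ (6 * (q + 1)) : ℕ)) : ℝ) = 9 * (W : ℝ) ^ (6 * (q + 1)) := by push_cast; ring
  have hb' : b ≤ (((9 * W ^ (6 * (q + 1)) : ℕ)) : ℝ) := by rw [hXpN]; exact hb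
  have hpX : ((q : ℝ) + 1) ≤ (W : ℝ) ^ 6 := by exact_mod_cast hpW
  set M : ℕ := 9 * W ^ (6 * (q + 1)) with hM
  set X : ℝ := (W : ℝ) ^ 6 with hX
  have hX0 : 0 < X := by positivity
  have hXp : (W : ℝ) ^ (6 * (q + 1)) = X ^ q * X := by
    rw [pow_mul, ← hX, pow_succ]
  rw [hXp] at ha hb ⊢
  have ha0 : 0 < a := lt_of_lt_of_le (by positivity) ha
  have hb0 : 0 < b := lt_of_lt_of_le ha0 hab
  -- every natural number with `x^p ≤ b` is at most `M`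
  have hbound : ∀ x : ℕ, (x : ℝ) ^ (q + 1) ≤ b → x ≤ M := by
    intro x hx
    rcases Nat.eq_zero_or_pos x with h0 | h0
    · omega
    · have h1 : (1 : ℝ) ≤ x := by exact_mod_cast h0
      have h2 : (x : ℝ) ≤ (x : ℝ) ^ (q + 1) := le_self_pow₀ h1 (by omega)
      exact_mod_cast h2.trans (hx.trans hb')
  have hP0 : ((0 : ℕ) : ℝ) ^ (q + 1) ≤ b := by
    rw [Nat.cast_zero, zero_pow (by omega)]
    exact hb0.le
  let x1 : ℕ := Nat.findGreatest (fun x : ℕ => (x : ℝ) ^ (q + 1) ≤ b) M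
  have hx1 : (x1 : ℝ) ^ (q + 1) ≤ b :=
    Nat.findGreatest_spec (P := fun x : ℕ => (x : ℝ) ^ (q + 1) ≤ b) (Nat.zero_le M) hP0
  have hx1' : b < ((x1 : ℝ) + 1) ^ (q + 1) := by
    by_contra hcon
    have h1 : (((x1 + 1 : ℕ) : ℝ)) ^ (q + 1) ≤ b := by
      push_cast
      exact not_lt.1 hcon
    have h2 : x1 + 1 ≤ M := hbound _ h1
    have h3 : x1 + 1 ≤ x1 :=
      Nat.le_findGreatest (P := fun x : ℕ => (x : ℝ) ^ (q + 1) ≤ b) h2 h1
    omega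
  have hex : ∃ x : ℕ, a ≤ (x : ℝ) ^ (q + 1) := by
    refine ⟨x1 + 1, ?_⟩
    push_cast
    exact hab.trans hx1'.le
  let x0 : ℕ := Nat.find hex
  have hx0 : a ≤ (x0 : ℝ) ^ (q + 1) := Nat.find_spec hex
  have hx0pos : 1 ≤ x0 := by
    rcases Nat.eq_zero_or_pos x0 with h0 | h0
    · rw [h0, Nat.cast_zero, zero_pow (by omega)] at hx0
      linarith
    · exact h0
  have hx0' : (((x0 - 1 : ℕ) : ℝ)) ^ (q + 1) < a := by
    have := Nat.find_min hex (m := x0 - 1) (by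
      change x0 - 1 < x0
      omega)
    exact not_le.1 this
  have hx0le : x0 ≤ x1 + 1 := by
    refine Nat.find_min' hex ?_
    push_cast
    exact hab.trans hx1'.le
  -- the count
  have hsub : Icc x0 x1 ⊆ (Icc 1 M).filter (fun x : ℕ => a ≤ (x : ℝ) ^ (q + 1) ∧ (x : ℝ) ^ (q + 1) ≤ b) := by
    intro x hx
    rw [mem_Icc] at hx
    have h1 : (x0 : ℝ) ≤ x := by exact_mod_cast hx.1
    have h2 : (x : ℝ) ≤ x1 := by exact_mod_cast hx.2
    have h3 : (x : ℝ) ^ (q + 1) ≤ b := (pow_le_pow_left₀ (Nat.cast_nonneg x) h2 _).trans hx1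
    rw [mem_filter, mem_Icc]
    exact ⟨⟨hx0pos.trans hx.1, hbound _ h3⟩, hx0.trans (pow_le_pow_left₀ (Nat.cast_nonneg x0) h1 _), h3⟩
  have hcard : (x1 : ℝ) + 1 - x0 ≤
      (((Icc 1 M).filter (fun x : ℕ => a ≤ (x : ℝ) ^ (q + 1) ∧ (x : ℝ) ^ (q + 1) ≤ b)).card : ℝ) := by
    have h1 := card_le_card hsub
    rw [Nat.card_Icc] at h1
    have h2 : x1 + 1 ≤ ((Icc 1 M).filter
        (fun x : ℕ => a ≤ (x : ℝ) ^ (q + 1) ∧ (x : ℝ) ^ (q + 1) ≤ b)).card + x0 := by omega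
    have h3 : (x1 : ℝ) + 1 ≤ (((Icc 1 M).filter
        (fun x : ℕ => a ≤ (x : ℝ) ^ (q + 1) ∧ (x : ℝ) ^ (q + 1) ≤ b)).card : ℝ) + x0 := by exact_mod_cast h2
    linarith
  -- the power of `x1 + 1`
  have hpow : ((x1 : ℝ) + 1) ^ q ≤ 100 * X ^ q := by
    have hXq : 0 < X ^ q := by positivity
    rcases lt_or_ge (x1 : ℝ) X with hc | hc
    · have h1 : (x1 : ℝ) + 1 ≤ X := by
        have h2 : x1 < W ^ 6 := by
          have : (x1 : ℝ) < ((W ^ 6 : ℕ) : ℝ) := by push_cast; exact hc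
          exact_mod_cast this
        have h3 : x1 + 1 ≤ W ^ 6 := h2
        have h4 : ((x1 + 1 : ℕ) : ℝ) ≤ ((W ^ 6 : ℕ) : ℝ) := by exact_mod_cast h3
        push_cast at h4
        exact h4
      have h5 : ((x1 : ℝ) + 1) ^ q ≤ X ^ q := pow_le_pow_left₀ (by positivity) h1 _
      linarith
    · have hx1pos : (0 : ℝ) < x1 := hX0.trans_le hc
      have h1 : (x1 : ℝ) ^ q * X ≤ 9 * X ^ q * X := by
        calc (x1 : ℝ) ^ q * X ≤ (x1 : ℝ) ^ q * x1 := mul_le_mul_of_nonneg_left hc (by positivity)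
          _ = (x1 : ℝ) ^ (q + 1) := (pow_succ _ _).symm
          _ ≤ b := hx1
          _ ≤ 9 * (X ^ q * X) := hb
          _ = 9 * X ^ q * X := by ring
      have h2 : (x1 : ℝ) ^ q ≤ 9 * X ^ q := le_of_mul_le_mul_right h1 hX0
      have h3 : (x1 : ℝ) + 1 ≤ x1 * Real.exp (1 / x1) := by
        have h4 := Real.add_one_le_exp (1 / (x1 : ℝ))
        calc (x1 : ℝ) + 1 = x1 * (1 / x1 + 1) := by field_simp; ring
          _ ≤ x1 * Real.exp (1 / x1) := mul_le_mul_of_nonneg_left h4 hx1pos.le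
      have h5 : ((x1 : ℝ) + 1) ^ q ≤ (x1 : ℝ) ^ q * Real.exp 1 := by
        calc ((x1 : ℝ) + 1) ^ q ≤ (x1 * Real.exp (1 / x1)) ^ q := pow_le_pow_left₀ (by positivity) h3 _
          _ = (x1 : ℝ) ^ q * Real.exp (q * (1 / x1)) := by rw [mul_pow, ← Real.exp_nat_mul]
          _ ≤ (x1 : ℝ) ^ q * Real.exp 1 := by
            refine mul_le_mul_of_nonneg_left (Real.exp_le_exp.2 ?_) (by positivity)
            rw [mul_one_div, div_le_one hx1pos]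
            linarith
      have h6 : Real.exp 1 ≤ 3 := by
        have := Real.exp_one_lt_d9
        linarith
      calc ((x1 : ℝ) + 1) ^ q ≤ (x1 : ℝ) ^ q * Real.exp 1 := h5
        _ ≤ (9 * X ^ q) * 3 := mul_le_mul h2 h6 (Real.exp_pos 1).le (by positivity)
        _ ≤ 100 * X ^ q := by linarith
  have hu : (0 : ℝ) ≤ ((x0 - 1 : ℕ) : ℝ) := Nat.cast_nonneg _
  have hcast : (((x0 - 1 : ℕ)) : ℝ) = (x0 : ℝ) - 1 := by
    rw [Nat.cast_sub hx0pos, Nat.cast_one]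
  have huv : (((x0 - 1 : ℕ)) : ℝ) ≤ (x1 : ℝ) + 1 := by
    have h1 : x0 - 1 ≤ x1 + 1 := by omega
    exact_mod_cast h1
  have hle := Xc_pow_sub_le q hu huv
  have hd : 0 ≤ (x1 : ℝ) + 1 - (((x0 - 1 : ℕ)) : ℝ) := sub_nonneg.2 huv
  have hmain : b - a ≤ ((q : ℝ) + 1) * (100 * X ^ q) * ((x1 : ℝ) + 1 - (((x0 - 1 : ℕ)) : ℝ)) := by
    have h1 : ((q : ℝ) + 1) * ((x1 : ℝ) + 1) ^ q * ((x1 : ℝ) + 1 - (((x0 - 1 : ℕ)) : ℝ)) ≤
        ((q : ℝ) + 1) * (100 * X ^ q) * ((x1 : ℝ) + 1 - (((x0 - 1 : ℕ)) : ℝ)) :=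
      mul_le_mul_of_nonneg_right (mul_le_mul_of_nonneg_left hpow (by positivity)) hd
    linarith
  have hfin : (b - a) * X / (100 * ((q + 1 : ℕ) : ℝ) * (X ^ q * X)) ≤ (x1 : ℝ) + 1 - (((x0 - 1 : ℕ)) : ℝ) := by
    rw [div_le_iff₀ (by positivity)]
    push_cast
    calc (b - a) * X ≤ (((q : ℝ) + 1) * (100 * X ^ q) * ((x1 : ℝ) + 1 - (((x0 - 1 : ℕ)) : ℝ))) * X :=
          mul_le_mul_of_nonneg_right hmain hX0.le
      _ = ((x1 : ℝ) + 1 - (((x0 - 1 : ℕ)) : ℝ)) * (100 * ((q : ℝ) + 1) * (X ^ q * X)) := by ring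
  rw [hcast] at hfin
  linarith

end EMu
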